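import Mathlib
import Pool.Agent.MP_5e38ef_lc.Defs

section

namespace Pool.Agent.MP_5e38ef_lc.TP

/-- The sum selected by the label `l` in the database `A` with entries in `[0, U]`. -/
def zs {k n U : ℕ} (A : Fin k × Fin n → Fin (U + 1)) (l : Fin k → Fin n) : ℤ :=
  ∑ i, ((A (i, l i) : ℕ) : ℤ)

lemma zs_mem {k n U : ℕ} (A : Fin k × Fin n → Fin (U + 1)) (l : Fin k → Fin n) :
    zs A l ∈ Finset.Icc (0 : ℤ) (k * U) := by
  rw [Finset.mem_Icc]
  refine ⟨Finset.sum_nonneg fun i _ => by positivity, ?_⟩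
  calc zs A l ≤ ∑ _i : Fin k, (U : ℤ) :=
        Finset.sum_le_sum fun i _ => by exact_mod_cast Nat.lt_succ_iff.mp (A (i, l i)).2
    _ = k * U := by simp

end Pool.Agent.MP_5e38ef_lc.TP

end

section

namespace Pool.Agent.MP_5e38ef_lc.SP
open Finset TP

/-- The number of labels with sum in `Z`, in the `j`-row of `l`, with smaller `i`-coordinate. -/
def mates {k n U : ℕ} (A : Fin k × Fin n → Fin (U + 1)) (Z : Finset ℤ) (i j : Fin k)
    (l : Fin k → Fin n) : ℕ :=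
  (univ.filter (fun l' : Fin k → Fin n => zs A l' ∈ Z ∧ l' j = l j ∧ l' i < l i)).card

/-- Labels with sum in `Z` and few earlier row mates. -/
def good {k n U : ℕ} (A : Fin k × Fin n → Fin (U + 1)) (Z : Finset ℤ) (D : ℕ) :
    Finset (Fin k → Fin n) :=
  univ.filter (fun l => zs A l ∈ Z ∧ ∀ i j, mates A Z i j l ≤ D)

/-- The piece of `Z` with class `c`. -/
def piece {T : Type} [DecidableEq T] (Z : Finset ℤ) (cls : ℤ → T) (c : T) : Finset ℤ :=
  Z.filter (fun z => cls z = c)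

/-- Good labels of `Z` that are not good in their own piece. -/
def bad {k n U : ℕ} {T : Type} [DecidableEq T] (A : Fin k × Fin n → Fin (U + 1)) (Z : Finset ℤ)
    (cls : ℤ → T) (D D' : ℕ) : Finset (Fin k → Fin n) :=
  (good A Z D).filter (fun l => l ∉ good A (piece Z cls (cls (zs A l))) D')

/-- The first `s` probes lie in `R`. -/
def inside {S W : ℕ} (addr : List (Fin W) → Fin S) (M : Fin S → Fin W) (s : ℕ)
    (R : Finset (Fin S)) : Prop :=
  ∀ u < s, addr (reads addr M u) ∈ R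

/-- The numerical conditions under which `T + 2` probes are impossible. -/
def Par (k n U S w T : ℕ) : Prop :=
  ∃ (ρ P K d N V : ℕ) (B D G E r : ℕ → ℕ),
    S ≤ P * ρ ∧ k * U + 1 ≤ B 0 ∧ (∀ s < T, B s ≤ P * B (s + 1)) ∧ (∀ s ≤ T, 0 < B (s + 1)) ∧
    B T ≤ V * B (T + 1) ∧ n ^ (k - 1) ≤ D 0 ∧ D (T + 1) = 0 ∧ G 0 ≤ n ^ k ∧
    (∀ s < T, 0 < G (s + 1)) ∧
    (∀ s < T, 2 * P * G (s + 1) + k ^ 2 * (r s * (1 + k * D s) + n * E s) ≤ G s) ∧
    N + k ^ 2 * (r T * (1 + k * D T) + n * E T) ≤ G T ∧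
    (∀ s ≤ T, (T + 3) * (2 * P * (2 ^ w) ^ ρ) ^ s *
        (k ^ 2 * n.choose (r s) * (n ^ (k - 1) * D s * B (s + 1)) ^ r s)
      ≤ ((D (s + 1) + 1) * (E s + 1) * (U + 1)) ^ r s) ∧
    0 < d ∧ 0 < K ∧ 2 * S * (4 * d) ^ k ≤ N ∧ 8 * k * d * (S + V) ≤ N ∧
    24 * k * K * (T * ρ + 1) * (1 + k * D T) ≤ N ∧ 2 * n ^ k * (12 * K ^ 2) ^ K < d ^ K ∧
    ∀ v ≤ 6 * K * (T * ρ + 1), (T + 3) * (6 * K * (T * ρ + 1) + 1) *
        (k * (n ^ k) ^ (v + (T * ρ + 1)) * (S * 2 ^ w) ^ v * (n ^ k) ^ (v + (T * ρ + 1)))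
      ≤ (U + 1) ^ (v + (T * ρ + 1))

end Pool.Agent.MP_5e38ef_lc.SP

end

section

namespace Pool.Agent.MP_5e38ef_lc.TP

open Finset

theorem groups {Λ Y C : Type} [DecidableEq Λ] [DecidableEq Y] [DecidableEq C]
    (cell : Λ → Y) (col : Λ → C) (g : ℕ) (hg : 0 < g) (L : Finset Λ) :
    ∃ L1 ⊆ L, ∃ gr : Λ → Λ,
      (∀ l ∈ L1, gr l ∈ L1 ∧ cell (gr l) = cell l) ∧
      (∀ l ∈ L1, ∀ l' ∈ L1, gr l = gr l' → col l = col l' → l = l') ∧
      (∀ r, (L1.filter (fun l => gr l = r)).card ≤ g) ∧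
      g * (L1.image gr).card ≤ L1.card ∧
      ∀ y, (((L \ L1).filter (fun l => cell l = y)).image col).card < g := by
  induction L using Finset.strongInduction with
  | H L ih =>
  by_cases h : ∀ y, ((L.filter (fun l => cell l = y)).image col).card < g
  · exact ⟨∅, empty_subset _, id, by simp, by simp, by simp, by simp, by simpa using h⟩
  push Not at h
  obtain ⟨y, hy⟩ := h
  obtain ⟨G0, hG0, hinj, himg⟩ := Finset.exists_subset_injOn_image_eq_of_surjOn
    (f := col) (↑(L.filter (fun l => cell l = y)) : Set Λ)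
    ((L.filter (fun l => cell l = y)).image col) (by rw [coe_image]; exact Set.surjOn_image _ _)
  have hc0 : g ≤ G0.card := by
    rw [← himg] at hy
    exact hy.trans card_image_le
  obtain ⟨G, hG, hc⟩ := exists_subset_card_eq hc0
  have hGL : ∀ l ∈ G, l ∈ L ∧ cell l = y := fun l hl => mem_filter.1 (mem_coe.1 (hG0 (hG hl)))
  obtain ⟨r, hr⟩ : G.Nonempty := card_pos.1 (by omega)
  obtain ⟨L1, hL1, gr, h1, h2, h3, h4, h5⟩ := ih (L \ G)
    (sdiff_ssubset (fun l hl => (hGL l hl).1) ⟨r, hr⟩)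
  have hn : ∀ l ∈ L1, l ∉ G := fun l hl => (mem_sdiff.1 (hL1 hl)).2
  have hd : Disjoint L1 G := disjoint_left.2 hn
  have hne : ∀ l ∈ L1, gr l ≠ r := fun l hl e => hn _ (h1 l hl).1 (e ▸ hr)
  refine ⟨L1 ∪ G, union_subset (hL1.trans sdiff_subset) fun l hl => (hGL l hl).1,
    fun l => if l ∈ G then r else gr l, ?_, ?_, ?_, ?_, ?_⟩
  · intro l hl
    rcases mem_union.1 hl with hl | hl
    · simp only [if_neg (hn l hl)]
      exact ⟨mem_union_left _ (h1 l hl).1, (h1 l hl).2⟩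
    · simp only [if_pos hl]
      exact ⟨mem_union_right _ hr, by rw [(hGL r hr).2, (hGL l hl).2]⟩
  · intro l hl l' hl' e ec
    rcases mem_union.1 hl with hl | hl <;> rcases mem_union.1 hl' with hl' | hl'
    · simp only [if_neg (hn l hl), if_neg (hn l' hl')] at e
      exact h2 l hl l' hl' e ec
    · simp only [if_neg (hn l hl), if_pos hl'] at e
      exact absurd e (hne l hl)
    · simp only [if_neg (hn l' hl'), if_pos hl] at e
      exact absurd e.symm (hne l' hl')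
    · exact hinj (hG hl) (hG hl') ec
  · intro r'
    by_cases e : r' = r
    · refine (card_le_card fun l hl => ?_).trans hc.le
      obtain ⟨hl, e'⟩ := mem_filter.1 hl
      beta_reduce at e'
      by_contra hlG
      rw [if_neg hlG, e] at e'
      exact hne l ((mem_union.1 hl).resolve_right hlG) e'
    · refine (card_le_card fun l hl => ?_).trans (h3 r')
      obtain ⟨hl, e'⟩ := mem_filter.1 hl
      beta_reduce at e'
      by_cases hlG : l ∈ G
      · rw [if_pos hlG] at e'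
        exact absurd e'.symm e
      · rw [if_neg hlG] at e'
        exact mem_filter.2 ⟨(mem_union.1 hl).resolve_right hlG, e'⟩
  · have h6 : (L1 ∪ G).image (fun l => if l ∈ G then r else gr l) ⊆ insert r (L1.image gr) := by
      intro x hx
      obtain ⟨l, hl, rfl⟩ := mem_image.1 hx
      by_cases hlG : l ∈ G
      · simp [hlG]
      · simp only [if_neg hlG]
        exact mem_insert_of_mem (mem_image_of_mem _ ((mem_union.1 hl).resolve_right hlG))
    have h7 := Nat.mul_le_mul_left g ((card_le_card h6).trans (card_insert_le _ _))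
    rw [card_union_of_disjoint hd, hc]
    rw [mul_add, mul_one] at h7
    omega
  · intro y'
    rw [union_comm, ← sup_eq_union, ← sdiff_sdiff_left]
    exact h5 y'

theorem classes {S : ℕ} (Q q : ℕ) (hq : 0 < q) (h : ℤ → Fin S) :
    ∃ cls : ℤ → ℤ ⊕ Fin S,
      (∀ z ∈ Icc (0 : ℤ) Q, ∀ z' ∈ Icc (0 : ℤ) Q, cls z = cls z' → h z = h z') ∧
      (∀ c, ((Icc (0 : ℤ) Q).filter (fun z => cls z = c)).card ≤ q) ∧
      q * ((Icc (0 : ℤ) Q).image cls).card ≤ q * S + (Q + 1) := by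
  obtain ⟨L1, hL1, gr, h1, -, h3, h4, h5⟩ := groups h id q hq (Icc (0 : ℤ) Q)
  refine ⟨fun z => if z ∈ L1 then Sum.inl (gr z) else Sum.inr (h z), ?_, ?_, ?_⟩
  · intro z _ z' _ e
    by_cases hz : z ∈ L1 <;> by_cases hz' : z' ∈ L1 <;> simp only [hz, hz', if_true, if_false] at e
    · rw [← (h1 z hz).2, ← (h1 z' hz').2, Sum.inl.inj e]
    · exact absurd e Sum.inl_ne_inr
    · exact absurd e Sum.inr_ne_inl
    · exact Sum.inr.inj e
  · rintro (r | y)
    · refine (card_le_card fun z hz => ?_).trans (h3 r)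
      have e := (mem_filter.1 hz).2
      beta_reduce at e
      by_cases hz' : z ∈ L1
      · rw [if_pos hz'] at e
        exact mem_filter.2 ⟨hz', Sum.inl.inj e⟩
      · rw [if_neg hz'] at e
        exact absurd e Sum.inr_ne_inl
    · have h6 := (h5 y).le
      rw [image_id] at h6
      refine (card_le_card fun z hz => ?_).trans h6
      obtain ⟨hz, e⟩ := mem_filter.1 hz
      beta_reduce at e
      by_cases hz' : z ∈ L1
      · rw [if_pos hz'] at e
        exact absurd e Sum.inl_ne_inr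
      · rw [if_neg hz'] at e
        exact mem_filter.2 ⟨mem_sdiff.2 ⟨hz, hz'⟩, Sum.inr.inj e⟩
  · have h6 : (Icc (0 : ℤ) Q).image (fun z => if z ∈ L1 then Sum.inl (gr z) else Sum.inr (h z)) ⊆
        (L1.image gr).image Sum.inl ∪ (univ : Finset (Fin S)).image Sum.inr := by
      intro x hx
      obtain ⟨z, -, rfl⟩ := mem_image.1 hx
      by_cases hz : z ∈ L1
      · simp only [if_pos hz]
        exact mem_union_left _ (mem_image_of_mem _ (mem_image_of_mem _ hz))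
      · simp only [if_neg hz]
        exact mem_union_right _ (mem_image_of_mem _ (mem_univ _))
    have h7 := Nat.mul_le_mul_left q ((card_le_card h6).trans ((card_union_le _ _).trans
      (add_le_add card_image_le card_image_le)))
    have h8 := card_le_card hL1
    rw [card_univ, Fintype.card_fin, mul_add] at h7
    rw [Int.card_Icc] at h8
    omega

theorem rainbow_groups {k n S : ℕ} (hk : 0 < k) (cell : (Fin k → Fin n) → Fin S) (g : ℕ)
    (hg : 0 < g) (L : Finset (Fin k → Fin n)) :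
    ∃ i0 : Fin k, ∃ L1 ⊆ L, ∃ gr : (Fin k → Fin n) → (Fin k → Fin n),
      (∀ l ∈ L1, cell (gr l) = cell l) ∧
      (∀ l ∈ L1, ∀ l' ∈ L1, gr l = gr l' → l i0 = l' i0 → l = l') ∧
      g * (L1.image gr).card ≤ L1.card ∧
      L.card ≤ k * L1.card + S * g ^ k := by
  choose M hM gr h1 h2 _ h4 h5 using fun i : Fin k => groups cell (fun l => l i) g hg L
  obtain ⟨i0, -, hi0⟩ := exists_max_image univ (fun i => (M i).card) ⟨⟨0, hk⟩, mem_univ _⟩
  refine ⟨i0, M i0, hM i0, gr i0, fun l hl => (h1 i0 l hl).2, h2 i0, h4 i0, ?_⟩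
  have h6 : L ⊆ univ.biUnion M ∪ univ.biUnion fun y : Fin S => Fintype.piFinset fun i =>
      ((L \ M i).filter (fun l => cell l = y)).image fun l => l i := by
    intro l hl
    by_cases h7 : ∃ i, l ∈ M i
    · obtain ⟨i, hi⟩ := h7
      exact mem_union_left _ (mem_biUnion.2 ⟨i, mem_univ _, hi⟩)
    · exact mem_union_right _ (mem_biUnion.2 ⟨cell l, mem_univ _, Fintype.mem_piFinset.2 fun i =>
        mem_image_of_mem _ (mem_filter.2 ⟨mem_sdiff.2 ⟨hl, fun h => h7 ⟨i, h⟩⟩, rfl⟩)⟩)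
  refine (card_le_card h6).trans ((card_union_le _ _).trans (add_le_add ?_ ?_))
  · refine (card_biUnion_le_card_mul _ _ _ fun i hi => hi0 i hi).trans ?_
    rw [card_univ, Fintype.card_fin]
  · refine (card_biUnion_le_card_mul _ _ (g ^ k) fun y _ => ?_).trans ?_
    · rw [Fintype.card_piFinset]
      refine (prod_le_pow_card _ _ g fun i _ => (h5 i y).le).trans ?_
      rw [card_univ, Fintype.card_fin]
    · rw [card_univ, Fintype.card_fin]

end Pool.Agent.MP_5e38ef_lc.TP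

end

section

namespace Pool.Agent.MP_5e38ef_lc.SP
open Finset TP

theorem classesZ {S : ℕ} (Z : Finset ℤ) (q : ℕ) (hq : 0 < q) (h : ℤ → Fin S) :
    ∃ cls : ℤ → ℤ ⊕ Fin S, (∀ z ∈ Z, ∀ z' ∈ Z, cls z = cls z' → h z = h z') ∧
      (∀ c, (piece Z cls c).card ≤ q) ∧ q * (Z.image cls).card ≤ q * S + Z.card := by
  obtain ⟨L1, hL1, gr, h1, -, h3, h4, h5⟩ := groups h id q hq Z
  refine ⟨fun z => if z ∈ L1 then Sum.inl (gr z) else Sum.inr (h z), ?_, ?_, ?_⟩
  · intro z _ z' _ e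
    by_cases hz : z ∈ L1 <;> by_cases hz' : z' ∈ L1 <;> simp only [hz, hz', if_true, if_false] at e
    · rw [← (h1 z hz).2, ← (h1 z' hz').2, Sum.inl.inj e]
    · exact absurd e Sum.inl_ne_inr
    · exact absurd e Sum.inr_ne_inl
    · exact Sum.inr.inj e
  · rintro (r | y)
    · refine (card_le_card fun z hz => ?_).trans (h3 r)
      have e := (mem_filter.1 hz).2
      beta_reduce at e
      by_cases hz' : z ∈ L1
      · rw [if_pos hz'] at e
        exact mem_filter.2 ⟨hz', Sum.inl.inj e⟩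
      · rw [if_neg hz'] at e
        exact absurd e Sum.inr_ne_inl
    · have h6 := (h5 y).le
      rw [image_id] at h6
      refine (card_le_card fun z hz => ?_).trans h6
      obtain ⟨hz, e⟩ := mem_filter.1 hz
      beta_reduce at e
      by_cases hz' : z ∈ L1
      · rw [if_pos hz'] at e
        exact absurd e Sum.inl_ne_inr
      · rw [if_neg hz'] at e
        exact mem_filter.2 ⟨mem_sdiff.2 ⟨hz, hz'⟩, Sum.inr.inj e⟩
  · have h6 : Z.image (fun z => if z ∈ L1 then Sum.inl (gr z) else Sum.inr (h z)) ⊆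
        (L1.image gr).image Sum.inl ∪ (univ : Finset (Fin S)).image Sum.inr := by
      intro x hx
      obtain ⟨z, -, rfl⟩ := mem_image.1 hx
      by_cases hz : z ∈ L1
      · simp only [if_pos hz]
        exact mem_union_left _ (mem_image_of_mem _ (mem_image_of_mem _ hz))
      · simp only [if_neg hz]
        exact mem_union_right _ (mem_image_of_mem _ (mem_univ _))
    have h7 := Nat.mul_le_mul_left q ((card_le_card h6).trans ((card_union_le _ _).trans
      (add_le_add card_image_le card_image_le)))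
    have h8 := card_le_card hL1
    rw [card_univ, Fintype.card_fin, mul_add] at h7
    omega

theorem union_small {α β : Type} [DecidableEq β] (s : Finset α) (f : α → Finset β) (M H N : ℕ)
    (hs : s.card ≤ M) (hf : ∀ a ∈ s, H * M * (f a).card ≤ N) : H * (s.biUnion f).card ≤ N := by
  rcases s.eq_empty_or_nonempty with rfl | hne
  · simp
  have hM : 0 < M := (card_pos.2 hne).trans_le hs
  refine Nat.le_of_mul_le_mul_left ?_ hM
  calc M * (H * (s.biUnion f).card) ≤ M * (H * ∑ a ∈ s, (f a).card) := by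
        gcongr
        exact card_biUnion_le
    _ = ∑ a ∈ s, H * M * (f a).card := by rw [← mul_sum]; ring
    _ ≤ s.card * N := by simpa using sum_le_card_nsmul s _ N hf
    _ ≤ M * N := by gcongr

theorem good_zero_Levels {k n U : ℕ} (A : Fin k × Fin n → Fin (U + 1)) (D : ℕ)
    (hD : n ^ (k - 1) ≤ D) : good A (Icc (0 : ℤ) (k * U)) D = univ := by
  refine eq_univ_of_forall fun l => mem_filter.2 ⟨mem_univ _, zs_mem A l, fun i j => ?_⟩
  have h := Fintype.card_filter_piFinset_const_eq_of_mem (univ : Finset (Fin n)) j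
    (mem_univ (l j))
  rw [card_univ, Fintype.card_fin, Fintype.card_fin] at h
  refine le_trans ?_ (h.le.trans hD)
  exact card_le_card fun l' hl' => mem_filter.2
    ⟨Fintype.mem_piFinset.2 fun _ => mem_univ _, (mem_filter.1 hl').2.2.1⟩

theorem fibre_Levels {S P ρ : ℕ} (e : Fin S ↪ Fin P × Fin ρ) (b : Fin P) :
    (univ.filter (fun y => (e y).1 = b)).card ≤ ρ := by
  have := card_le_card_of_injOn (s := univ.filter (fun y => (e y).1 = b))
    (t := (univ : Finset (Fin ρ))) (fun y => (e y).2) (fun _ _ => mem_coe.2 (mem_univ _))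
    (fun y hy y' hy' h => e.injective (Prod.ext
      ((mem_filter.1 (mem_coe.1 hy)).2.trans (mem_filter.1 (mem_coe.1 hy')).2.symm) h))
  simpa using this

theorem pick_Levels {k n U : ℕ} {T : Type} [DecidableEq T] (A : Fin k × Fin n → Fin (U + 1))
    (Z : Finset ℤ) (cls : ℤ → T) (D D' m g : ℕ) (hg : 0 < g) (hm : 0 < m)
    (hc : (Z.image cls).card ≤ m)
    (h : m * g + (bad A Z cls D D').card ≤ (good A Z D).card) :
    ∃ c ∈ Z.image cls, g ≤ (good A (piece Z cls c) D').card := by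
  have h1 : m * g ≤ (good A Z D \ bad A Z cls D D').card := by
    have := le_card_sdiff (bad A Z cls D D') (good A Z D)
    omega
  have h2 : ∀ l ∈ good A Z D \ bad A Z cls D D', cls (zs A l) ∈ Z.image cls := fun l hl =>
    mem_image_of_mem _ (mem_filter.1 (mem_sdiff.1 hl).1).2.1
  obtain ⟨l0, hl0⟩ : (good A Z D \ bad A Z cls D D').Nonempty :=
    card_pos.1 ((Nat.mul_pos hm hg).trans_le h1)
  obtain ⟨c, hc', h3⟩ := exists_le_card_fiber_of_mul_le_card_of_maps_to h2 ⟨_, h2 l0 hl0⟩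
    ((Nat.mul_le_mul_right g hc).trans h1)
  refine ⟨c, hc', h3.trans (card_le_card fun l hl => ?_)⟩
  obtain ⟨hl', rfl⟩ := mem_filter.1 hl
  obtain ⟨h4, h5⟩ := mem_sdiff.1 hl'
  by_contra h6
  exact h5 (mem_filter.2 ⟨h4, h6⟩)

theorem levels {k n U S W ρ P : ℕ} (pre : (Fin k × Fin n → Fin (U + 1)) → Fin S → Fin W)
    (addr : ℤ → List (Fin W) → Fin S) (hS : S ≤ P * ρ) (B D G : ℕ → ℕ) (H T : ℕ)
    (hB0 : k * U + 1 ≤ B 0) (hB : ∀ s < T, B s ≤ P * B (s + 1)) (hB1 : ∀ s < T, 0 < B (s + 1))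
    (hD0 : n ^ (k - 1) ≤ D 0) (hG0 : G 0 ≤ n ^ k) (hG : ∀ s < T, 0 < G (s + 1))
    (hns : ∀ s < T, ∀ (Z : Finset ℤ) (cls : ℤ → ℤ ⊕ Fin P), (∀ c, (piece Z cls c).card ≤ B (s + 1)) →
      H * (2 * P * W ^ ρ) ^ s * (univ.filter (fun A : Fin k × Fin n → Fin (U + 1) =>
        G s < 2 * P * G (s + 1) + (bad A Z cls (D s) (D (s + 1))).card)).card
        ≤ Fintype.card (Fin k × Fin n → Fin (U + 1))) :
    ∃ 𝒮 : Finset (Finset ℤ × (ℤ → List (Fin W))), 𝒮.card ≤ (2 * P * W ^ ρ) ^ T ∧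
      (∀ σ ∈ 𝒮, σ.1.card ≤ B T) ∧ ∃ X : Finset (Fin k × Fin n → Fin (U + 1)),
      H * X.card ≤ T * Fintype.card (Fin k × Fin n → Fin (U + 1)) ∧
      ∀ A ∉ X, ∃ σ ∈ 𝒮, ∃ R : Finset (Fin S), R.card ≤ T * ρ ∧
        (∀ z ∈ σ.1, reads (addr z) (pre A) T = σ.2 z ∧ inside (addr z) (pre A) T R) ∧
        G T ≤ (good A σ.1 (D T)).card := by
  classical
  induction T with
  | zero =>
    refine ⟨{(Icc (0 : ℤ) (k * U), fun _ => [])}, by simp, ?_, ∅, by simp, fun A _ =>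
      ⟨_, mem_singleton_self _, ∅, by simp, fun z _ => ⟨rfl, fun u hu => absurd hu (by omega)⟩, ?_⟩⟩
    · intro σ hσ
      rw [mem_singleton.1 hσ, Int.card_Icc]
      have : ((k : ℤ) * U + 1 - 0).toNat = k * U + 1 := by
        rw [show (k : ℤ) * U + 1 - 0 = ((k * U + 1 : ℕ) : ℤ) by push_cast; ring, Int.toNat_natCast]
      omega
    · rw [good_zero_Levels A _ hD0]
      simpa using hG0
  | succ T ih =>
    obtain ⟨𝒮, hc, hcB, X, hX, hA⟩ := ih (fun s hs => hB s (by omega))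
      (fun s hs => hB1 s (by omega)) (fun s hs => hG s (by omega)) (fun s hs => hns s (by omega))
    have hT : T < T + 1 := Nat.lt_succ_self T
    obtain ⟨e⟩ : Nonempty (Fin S ↪ Fin P × Fin ρ) :=
      Function.Embedding.nonempty_of_card_le (by simpa using hS)
    have : Nonempty (Fin S) := ⟨addr 0 []⟩
    have hP : 0 < P := (e (addr 0 [])).1.pos
    choose cls hc1 hc2 hc3 using fun σ : Finset ℤ × (ℤ → List (Fin W)) =>
      classesZ σ.1 (B (T + 1)) (hB1 T hT) (fun z => (e (addr z (σ.2 z))).1)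
    have hc4 : ∀ σ ∈ 𝒮, (σ.1.image (cls σ)).card ≤ 2 * P := fun σ hσ => by
      refine Nat.le_of_mul_le_mul_left ((hc3 σ).trans ?_) (hB1 T hT)
      have := (hcB σ hσ).trans (hB T hT)
      nlinarith
    refine ⟨𝒮.biUnion fun σ => ((σ.1.image (cls σ)) ×ˢ (univ : Finset (Fin ρ → Fin W))).image
      fun p => (piece σ.1 (cls σ) p.1, fun z => p.2 (e (addr z (σ.2 z))).2 :: σ.2 z), ?_, ?_,
      X ∪ 𝒮.biUnion fun σ => univ.filter (fun A : Fin k × Fin n → Fin (U + 1) =>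
        G T < 2 * P * G (T + 1) + (bad A σ.1 (cls σ) (D T) (D (T + 1))).card), ?_, ?_⟩
    · refine (card_biUnion_le_card_mul _ _ (2 * P * W ^ ρ) fun σ hσ => ?_).trans ?_
      · refine card_image_le.trans ?_
        rw [card_product, card_univ, Fintype.card_fun, Fintype.card_fin, Fintype.card_fin]
        exact Nat.mul_le_mul_right _ (hc4 σ hσ)
      · rw [pow_succ]
        exact Nat.mul_le_mul_right _ hc
    · intro τ hτ
      obtain ⟨σ, -, hτ⟩ := mem_biUnion.1 hτ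
      obtain ⟨p, -, rfl⟩ := mem_image.1 hτ
      exact hc2 σ p.1
    · have h1 := union_small 𝒮 _ _ H _ hc fun σ _ => hns T hT σ.1 (cls σ) (hc2 σ)
      refine (Nat.mul_le_mul_left H (card_union_le _ _)).trans ?_
      rw [mul_add, add_mul, one_mul]
      exact add_le_add hX h1
    · intro A hAX
      obtain ⟨σ, hσ, R, hR, hz, hgood⟩ := hA A fun h => hAX (mem_union_left _ h)
      have h1 : 2 * P * G (T + 1) + (bad A σ.1 (cls σ) (D T) (D (T + 1))).card ≤ G T := by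
        by_contra h
        exact hAX (mem_union_right _ (mem_biUnion.2 ⟨σ, hσ, mem_filter.2 ⟨mem_univ _, not_le.1 h⟩⟩))
      obtain ⟨c, hcm, h2⟩ := pick_Levels A σ.1 (cls σ) (D T) (D (T + 1)) (2 * P) (G (T + 1))
        (hG T hT) (by omega) (hc4 σ hσ) (h1.trans hgood)
      obtain ⟨z0, hz0, rfl⟩ := mem_image.1 hcm
      refine ⟨_, mem_biUnion.2 ⟨σ, hσ, mem_image.2 ⟨(cls σ z0, fun x =>
        pre A (Function.invFun e ((e (addr z0 (σ.2 z0))).1, x))),
        mem_product.2 ⟨hcm, mem_univ _⟩, rfl⟩⟩,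
        R ∪ univ.filter (fun y => (e y).1 = (e (addr z0 (σ.2 z0))).1), ?_, fun z hzp => ?_, h2⟩
      · refine (card_union_le _ _).trans ?_
        rw [add_mul, one_mul]
        exact add_le_add hR (fibre_Levels e _)
      · obtain ⟨hz1, hz2⟩ := mem_filter.1 hzp
        have h3 : (e (addr z (σ.2 z))).1 = (e (addr z0 (σ.2 z0))).1 := hc1 σ z hz1 z0 hz0 hz2
        obtain ⟨h4, h5⟩ := hz z hz1
        refine ⟨?_, fun u hu => ?_⟩
        · change pre A (addr z (reads (addr z) (pre A) T)) :: reads (addr z) (pre A) T =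
            pre A (Function.invFun e ((e (addr z0 (σ.2 z0))).1, (e (addr z (σ.2 z))).2)) :: σ.2 z
          rw [h4, ← h3, Prod.mk.eta, Function.leftInverse_invFun e.injective]
        · rcases Nat.lt_succ_iff_lt_or_eq.1 hu with hu | rfl
          · exact mem_union_left _ (h5 u hu)
          · rw [h4]
            exact mem_union_right _ (mem_filter.2 ⟨mem_univ _, h3⟩)

end Pool.Agent.MP_5e38ef_lc.SP

end

section

namespace Pool.Agent.MP_5e38ef_lc.SP
open Finset TP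

theorem cu_Params {c u x y : ℕ} (hu : 1 ≤ u) (hc : c ≤ u) (h : x < y) : c * u ^ x ≤ u ^ y :=
  calc c * u ^ x ≤ u * u ^ x := Nat.mul_le_mul_right _ hc
    _ = u ^ (x + 1) := by ring
    _ ≤ u ^ y := Nat.pow_le_pow_right hu h

theorem four_Params (s : ℕ) : s + 2 ≤ 4 ^ (s + 1) := by
  induction s with
  | zero => norm_num
  | succ s ih => rw [pow_succ]; omega

theorem last_Params {k K T n U S w v r C : ℕ} (hK : 0 < K) (hr : 1 ≤ r)
    (hn : 7 * K * k * (T + 3) ≤ n) (hn2 : 2 ≤ n) (hS : S ≤ n ^ k)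
    (hC : C = 2 + 3 * k * (6 * K + 1) + 6 * K) (hU : n ^ C ≤ U)
    (hw : (2 ^ w) ^ C ≤ U ^ (C + 1)) (hv : v ≤ 6 * K * r) :
    (T + 3) * (6 * K * r + 1) * (k * (n ^ k) ^ (v + r) * (S * 2 ^ w) ^ v * (n ^ k) ^ (v + r))
      ≤ (U + 1) ^ (v + r) := by
  have hn1 : 1 ≤ n := by omega
  have h1 : 1 + r + (k * (v + r) + k * v + k * (v + r)) + v ≤ C * r := by
    have e1 : k * v ≤ k * (6 * K * r) := Nat.mul_le_mul_left k hv
    have e2 : C * r = 2 * r + 3 * (k * (6 * K * r)) + 3 * (k * r) + 6 * K * r := by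
      rw [hC]; ring
    rw [e2, mul_add]
    omega
  have hC0 : C ≠ 0 := by omega
  obtain ⟨e, he⟩ : ∃ e, C * r = e + v := ⟨C * r - v, by omega⟩
  have h0 : (T + 3) * (6 * K * r + 1) * k ≤ n ^ (1 + r) := by
    have a1 : 6 * K * r + 1 ≤ 7 * K * n ^ r := by
      have b1 : r ≤ n ^ r := (Nat.lt_pow_self (by omega)).le
      have b2 : 1 ≤ K * r := Nat.mul_pos hK hr
      calc 6 * K * r + 1 ≤ 7 * K * r := by nlinarith
        _ ≤ 7 * K * n ^ r := Nat.mul_le_mul_left _ b1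
    calc (T + 3) * (6 * K * r + 1) * k ≤ (T + 3) * (7 * K * n ^ r) * k := by gcongr
      _ = (7 * K * k * (T + 3)) * n ^ r := by ring
      _ ≤ n * n ^ r := Nat.mul_le_mul_right _ hn
      _ = n ^ (1 + r) := by ring
  have h2 : (T + 3) * (6 * K * r + 1) *
      (k * (n ^ k) ^ (v + r) * (S * 2 ^ w) ^ v * (n ^ k) ^ (v + r)) ≤ n ^ e * (2 ^ w) ^ v := by
    calc (T + 3) * (6 * K * r + 1) *
          (k * (n ^ k) ^ (v + r) * (S * 2 ^ w) ^ v * (n ^ k) ^ (v + r))
        = ((T + 3) * (6 * K * r + 1) * k) * ((n ^ k) ^ (v + r) * S ^ v * (n ^ k) ^ (v + r)) *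
            (2 ^ w) ^ v := by
          rw [mul_pow]
          generalize (n ^ k) ^ (v + r) = x
          generalize S ^ v = y
          generalize (2 ^ w) ^ v = z
          ring
      _ ≤ n ^ (1 + r) * ((n ^ k) ^ (v + r) * (n ^ k) ^ v * (n ^ k) ^ (v + r)) * (2 ^ w) ^ v := by
          gcongr
      _ = n ^ (1 + r + (k * (v + r) + k * v + k * (v + r))) * (2 ^ w) ^ v := by
          rw [← pow_mul, ← pow_mul, ← pow_add, ← pow_add, ← pow_add]
      _ ≤ n ^ e * (2 ^ w) ^ v :=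
          Nat.mul_le_mul_right _ (Nat.pow_le_pow_right hn1 (by omega))
  have h3 : n ^ e * (2 ^ w) ^ v ≤ U ^ (v + r) := by
    rw [← Nat.pow_le_pow_iff_left hC0]
    calc (n ^ e * (2 ^ w) ^ v) ^ C = (n ^ C) ^ e * ((2 ^ w) ^ C) ^ v := by
          rw [mul_pow, pow_right_comm n, pow_right_comm (2 ^ w)]
      _ ≤ U ^ e * (U ^ (C + 1)) ^ v := by gcongr
      _ = (U ^ (v + r)) ^ C := by
          rw [← pow_mul, ← pow_mul, ← pow_add]
          congr 1
          have : (v + r) * C = C * v + C * r := by ring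
          rw [this, he]
          ring
  exact h2.trans (h3.trans (Nat.pow_le_pow_left (Nat.le_succ U) _))

theorem fact_Params (r : ℕ) : r ^ r ≤ 3 ^ r * r.factorial := by
  have h1 := Real.pow_div_factorial_le_exp (r : ℝ) (Nat.cast_nonneg r) r
  have h2 : Real.exp (r : ℝ) ≤ 3 ^ r := by
    rw [← Real.exp_one_pow]
    exact pow_le_pow_left₀ (Real.exp_pos 1).le (by linarith [Real.exp_one_lt_d9]) r
  have h3 : (0 : ℝ) < r.factorial := by exact_mod_cast r.factorial_pos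
  rw [div_le_iff₀ h3] at h1
  have h4 : (r : ℝ) ^ r ≤ 3 ^ r * r.factorial := h1.trans (by gcongr)
  exact_mod_cast h4

theorem choose_Params (r g : ℕ) : (r * g).choose r ≤ (3 * g) ^ r := by
  have h1 : r.factorial * (r * g).choose r ≤ (r * g) ^ r := by
    rw [← Nat.descFactorial_eq_factorial_mul_choose]
    exact Nat.descFactorial_le_pow _ _
  have h2 : (r * g) ^ r ≤ r.factorial * (3 * g) ^ r := by
    rw [mul_pow, mul_pow]
    calc r ^ r * g ^ r ≤ 3 ^ r * r.factorial * g ^ r := Nat.mul_le_mul_right _ (fact_Params r)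
      _ = r.factorial * (3 ^ r * g ^ r) := by ring
  exact Nat.le_of_mul_le_mul_left (h1.trans h2) r.factorial_pos

theorem step_Params {k u A p q e f g G : ℕ} (hk : 1 ≤ k) (hu : 2 + 2 * k ^ 3 + k ^ 2 ≤ u)
    (hA : A ≤ 2 * u ^ g) (h1 : p + q ≤ g) (h2 : e + f ≤ g) (hG : g < G) :
    A + k ^ 2 * (u ^ p * (1 + k * u ^ q) + u ^ e * u ^ f) ≤ u ^ G := by
  have hu1 : 1 ≤ u := by omega
  have a1 : 1 + k * u ^ q ≤ 2 * k * u ^ q := by
    have : 1 ≤ k * u ^ q := Nat.mul_pos hk (by positivity)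
    nlinarith
  have a2 : u ^ p * (1 + k * u ^ q) ≤ 2 * k * u ^ g :=
    calc u ^ p * (1 + k * u ^ q) ≤ u ^ p * (2 * k * u ^ q) := Nat.mul_le_mul_left _ a1
      _ = 2 * k * u ^ (p + q) := by ring
      _ ≤ 2 * k * u ^ g := Nat.mul_le_mul_left _ (Nat.pow_le_pow_right hu1 h1)
  have a3 : u ^ e * u ^ f ≤ u ^ g := by
    rw [← pow_add]
    exact Nat.pow_le_pow_right hu1 h2
  calc A + k ^ 2 * (u ^ p * (1 + k * u ^ q) + u ^ e * u ^ f)
      ≤ 2 * u ^ g + k ^ 2 * (2 * k * u ^ g + u ^ g) := by gcongr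
    _ = (2 + 2 * k ^ 3 + k ^ 2) * u ^ g := by ring
    _ ≤ u ^ G := cu_Params hu1 hu hG

theorem main_Params {T k X n r g Y Z : ℕ} (hn : n = r * g) (h1 : (T + 3) * k ^ 2 * X ≤ 2 ^ r)
    (h2 : 6 * g * Y ≤ Z) : (T + 3) * X * (k ^ 2 * n.choose r * Y ^ r) ≤ Z ^ r :=
  calc (T + 3) * X * (k ^ 2 * n.choose r * Y ^ r)
      = (T + 3) * k ^ 2 * X * (r * g).choose r * Y ^ r := by rw [hn]; ac_rfl
    _ ≤ 2 ^ r * (3 * g) ^ r * Y ^ r := by
        gcongr
        exact choose_Params r g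
    _ = (6 * g * Y) ^ r := by
        rw [← mul_pow, ← mul_pow]
        congr 1
        ring
    _ ≤ Z ^ r := Nat.pow_le_pow_left h2 r

theorem bits_Params {T k a u w s x y : ℕ} (hu : (T + 3) * k ^ 2 + T * (3 + a) ≤ u) (hu1 : 1 ≤ u)
    (hT : T = 0 ∨ w ≤ 2 * u) (hs : s ≤ T) (hxy : x + 1 < y) :
    (T + 3) * k ^ 2 * (2 * u ^ a * (2 ^ w) ^ u ^ x) ^ s ≤ 2 ^ u ^ y := by
  have h1 : (2 * u ^ a * (2 ^ w) ^ u ^ x) ^ s ≤ 2 ^ (T * (1 + u * a + 2 * u * u ^ x)) := by
    rcases hT with rfl | hw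
    · obtain rfl : s = 0 := by omega
      simp
    · have b1 : u ^ a ≤ (2 ^ u) ^ a := Nat.pow_le_pow_left Nat.lt_two_pow_self.le a
      have b2 : 2 ^ w ≤ 2 ^ (2 * u) := Nat.pow_le_pow_right (by norm_num) hw
      calc (2 * u ^ a * (2 ^ w) ^ u ^ x) ^ s
          ≤ (2 * (2 ^ u) ^ a * (2 ^ (2 * u)) ^ u ^ x) ^ s := by gcongr
        _ = 2 ^ ((1 + u * a + 2 * u * u ^ x) * s) := by
            rw [pow_mul 2 (1 + u * a + 2 * u * u ^ x), pow_add, pow_add, pow_one,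
              pow_mul 2 u a, pow_mul 2 (2 * u)]
        _ ≤ 2 ^ (T * (1 + u * a + 2 * u * u ^ x)) := by
            refine Nat.pow_le_pow_right (by norm_num) ?_
            rw [mul_comm]
            exact Nat.mul_le_mul_right _ hs
  have h2 : (T + 3) * k ^ 2 + T * (1 + u * a + 2 * u * u ^ x) ≤ u ^ y := by
    have c1 : 1 ≤ u ^ (x + 1) := Nat.one_le_pow _ _ hu1
    have c2 : u ≤ u ^ (x + 1) := Nat.le_self_pow (by omega) u
    have c3 : 1 + u * a + 2 * u * u ^ x ≤ (3 + a) * u ^ (x + 1) := by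
      have d1 : u * a ≤ u ^ (x + 1) * a := Nat.mul_le_mul_right _ c2
      have d2 : 2 * u * u ^ x = 2 * u ^ (x + 1) := by ring
      have d3 : (3 + a) * u ^ (x + 1) = 3 * u ^ (x + 1) + u ^ (x + 1) * a := by ring
      omega
    calc (T + 3) * k ^ 2 + T * (1 + u * a + 2 * u * u ^ x)
        ≤ (T + 3) * k ^ 2 * u ^ (x + 1) + T * ((3 + a) * u ^ (x + 1)) :=
          Nat.add_le_add (Nat.le_mul_of_pos_right _ c1) (Nat.mul_le_mul_left _ c3)
      _ = ((T + 3) * k ^ 2 + T * (3 + a)) * u ^ (x + 1) := by ring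
      _ ≤ u ^ y := cu_Params hu1 hu hxy
  calc (T + 3) * k ^ 2 * (2 * u ^ a * (2 ^ w) ^ u ^ x) ^ s
      ≤ 2 ^ ((T + 3) * k ^ 2) * 2 ^ (T * (1 + u * a + 2 * u * u ^ x)) :=
        Nat.mul_le_mul Nat.lt_two_pow_self.le h1
    _ = 2 ^ ((T + 3) * k ^ 2 + T * (1 + u * a + 2 * u * u ^ x)) := (pow_add _ _ _).symm
    _ ≤ 2 ^ u ^ y := Nat.pow_le_pow_right (by norm_num) h2

theorem ratio_Params {k u U B g x y t p q D : ℕ} (hu : 6 * (k + 3) ≤ u)
    (hB : B * u ^ t ≤ (k + 3) * U) (hD : u ^ p ≤ D + 1) (h : g + x + y < p + q + t) :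
    6 * u ^ g * (u ^ x * u ^ y * B) ≤ (D + 1) * (u ^ q + 1) * (U + 1) := by
  have hu1 : 1 ≤ u := by omega
  refine Nat.le_of_mul_le_mul_right ?_ (Nat.one_le_pow t u hu1)
  calc 6 * u ^ g * (u ^ x * u ^ y * B) * u ^ t = 6 * u ^ (g + x + y) * (B * u ^ t) := by ring
    _ ≤ 6 * u ^ (g + x + y) * ((k + 3) * U) := Nat.mul_le_mul_left _ hB
    _ = 6 * (k + 3) * u ^ (g + x + y) * U := by ring
    _ ≤ u ^ (p + q + t) * U := Nat.mul_le_mul_right _ (cu_Params hu1 hu h)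
    _ = u ^ p * u ^ q * U * u ^ t := by ring
    _ ≤ (D + 1) * (u ^ q + 1) * (U + 1) * u ^ t := by gcongr <;> omega

theorem core_Params {k T a M c K C u U S w : ℕ} (hk : 2 ≤ k) (ha : M * (k - 1) = a * (T + 1))
    (hc : c = 2 * 4 ^ (T + 1) + k + T + 3) (hM : 4 ^ (T + 2) + c + T + 3 ≤ M) (haT : T + 1 ≤ a)
    (hK : K = M * k + 1) (hC : C = 2 + 3 * k * (6 * K + 1) + 6 * K)
    (u1 : 2 + 2 * k ^ 3 + k ^ 2 ≤ u) (u2 : 6 * (k + 3) ≤ u)
    (u3 : (T + 3) * k ^ 2 + T * (3 + a) ≤ u) (u4 : 2 * 4 ^ k ≤ u) (u5 : 16 * k ≤ u)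
    (u6 : 48 * k ^ 2 * K * (T + 1) ≤ u) (u7 : 2 * (12 * K ^ 2) ^ K < u)
    (u8 : 7 * K * k * (T + 3) ≤ u) (hU : (u ^ M) ^ C ≤ U) (hw : (2 ^ w) ^ C ≤ U ^ (C + 1))
    (hT : T = 0 ∨ w ≤ 2 * u) (hS : S * u ^ c ≤ u ^ (a + M)) : Par k (u ^ M) U S w T := by
  have hu1 : 1 ≤ u := by omega
  have hup : ∀ x, 0 < u ^ x := fun x => Nat.one_le_pow x u hu1
  have hMk : M * k = a * (T + 1) + M := by
    obtain ⟨j, rfl⟩ : ∃ j, k = j + 1 := ⟨k - 1, by omega⟩
    rw [← ha, Nat.add_sub_cancel, mul_add, mul_one]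
  have hn1 : (u ^ M) ^ (k - 1) = u ^ (a * (T + 1)) := by rw [← pow_mul, ha]
  have hnk : (u ^ M) ^ k = u ^ (a * (T + 1) + M) := by rw [← pow_mul, hMk]
  have h4 : 4 ^ (T + 2) = 4 * 4 ^ (T + 1) := by ring
  have h4T := four_Params T
  have hS1 : S ≤ u ^ (a + (M - c)) := by
    refine Nat.le_of_mul_le_mul_right (hS.trans_eq ?_) (hup c)
    rw [← pow_add]
    congr 1
    omega
  have haT1 : a * (T + 1) = a * T + a := by ring
  have hUk : u ^ (a * (T + 1) + M) ≤ U := by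
    rw [← hnk]
    refine le_trans (Nat.pow_le_pow_right (hup M) ?_) hU
    have : 3 * k * (6 * K + 1) = 18 * (k * K) + 3 * k := by ring
    omega
  have hU1 : 1 ≤ U := (hup _).trans_le hUk
  obtain ⟨b, hb⟩ : ∃ b, b = (k * U + 1) / u ^ (a * T) + 1 := ⟨_, rfl⟩
  have hb0 : 0 < b := by rw [hb]; exact Nat.succ_pos _
  have hb1 : k * U + 1 ≤ b * u ^ (a * T) := by
    rw [hb, mul_comm _ (u ^ (a * T))]
    exact (Nat.lt_mul_div_succ _ (hup _)).le
  have hb2 : b * u ^ (a * T) ≤ (k + 2) * U := by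
    have e1 : (k * U + 1) / u ^ (a * T) * u ^ (a * T) ≤ k * U + 1 := Nat.div_mul_le_self _ _
    have e2 : u ^ (a * T) ≤ U := (Nat.pow_le_pow_right hu1 (by omega)).trans hUk
    rw [hb, add_mul, one_mul, add_mul]
    omega
  have hK0 : 0 < K := by omega
  refine ⟨u ^ (M - c), u ^ a, K, u, u ^ (a + M - T - 1), u ^ (a + 4 ^ (T + 2)),
    fun s => if s ≤ T then b * u ^ (a * (T - s)) else b / u ^ (a + 4 ^ (T + 2)) + 1,
    fun s => if s ≤ T then u ^ (a * (T + 1 - s) + 4 ^ (s + 1)) else 0,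
    fun s => u ^ (a * (T + 1 - s) + M - s), fun s => u ^ (a * (T + 1 - s) - s - 1),
    fun s => u ^ (M - 2 * 4 ^ (s + 1)), ?_, ?_, ?_, ?_, ?_, ?_, ?_, ?_, ?_, ?_, ?_, ?_, hu1, hK0,
    ?_, ?_, ?_, ?_, ?_⟩
  · rwa [← pow_add]
  · simpa using hb1
  · intro s hs
    obtain ⟨j, rfl⟩ := Nat.exists_eq_add_of_lt hs
    have e1 : s + j + 1 - s = j + 1 := by omega
    have e2 : s + j + 1 - (s + 1) = j := by omega
    simp only [if_pos hs.le, if_pos (Nat.succ_le_of_lt hs), e1, e2]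
    exact le_of_eq (by ring)
  · intro s _
    by_cases h : s + 1 ≤ T
    · simp only [if_pos h]
      exact Nat.mul_pos hb0 (hup _)
    · simp only [if_neg h]
      exact Nat.succ_pos _
  · simp only [le_refl, if_true, Nat.sub_self, mul_zero, pow_zero, mul_one,
      if_neg (Nat.not_succ_le_self T)]
    exact (Nat.lt_mul_div_succ _ (hup _)).le
  · simp only [Nat.zero_le, if_true, Nat.sub_zero, hn1]
    exact Nat.pow_le_pow_right hu1 (Nat.le_add_right _ _)
  · simp only [if_neg (Nat.not_succ_le_self T)]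
  · simp only [Nat.sub_zero, hnk, le_refl]
  · exact fun s _ => hup _
  · intro s hs
    have f1 := four_Params s
    have f2 : 4 ^ (s + 1) ≤ 4 ^ (T + 1) := Nat.pow_le_pow_right (by norm_num) (by omega)
    obtain ⟨j, rfl⟩ := Nat.exists_eq_add_of_lt hs
    have e1 : s + j + 1 + 1 - s = j + 2 := by omega
    have e2 : s + j + 1 + 1 - (s + 1) = j + 1 := by omega
    have e3 : a * (j + 2) = a * (j + 1) + a := by ring
    simp only [if_pos hs.le, e1, e2]
    refine step_Params (g := a * (j + 2) + M - s - 1) (by omega) u1 ?_ (by omega) (by omega)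
      (by omega)
    rw [mul_assoc, ← pow_add]
    exact Nat.mul_le_mul_left _ (Nat.pow_le_pow_right hu1 (by omega))
  · simp only [le_refl, if_true, Nat.add_sub_cancel_left, mul_one]
    exact step_Params (g := a + M - T - 1) (by omega) u1 (by omega) (by omega) (by omega)
      (by omega)
  · intro s hs
    have f1 := four_Params s
    have f2 : 4 ^ (s + 1) ≤ 4 ^ (T + 1) := Nat.pow_le_pow_right (by norm_num) (by omega)
    have f3 : 4 ^ (s + 1 + 1) = 4 * 4 ^ (s + 1) := by ring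
    refine main_Params (g := u ^ (2 * 4 ^ (s + 1))) ?_
      (bits_Params u3 hu1 hT hs (by omega)) ?_
    · rw [← pow_add]
      congr 1
      omega
    rw [hn1]
    rcases hs.lt_or_eq with hs' | rfl
    · obtain ⟨j, rfl⟩ := Nat.exists_eq_add_of_lt hs'
      have e1 : s + j + 1 + 1 - s = j + 2 := by omega
      have e2 : s + j + 1 + 1 - (s + 1) = j + 1 := by omega
      have e3 : s + j + 1 - (s + 1) = j := by omega
      simp only [if_pos hs, if_pos (Nat.succ_le_of_lt hs'), e1, e2, e3]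
      refine ratio_Params (t := a * (s + 1)) (p := a * (j + 1) + 4 ^ (s + 1 + 1)) u2 ?_
        (Nat.le_succ _) ?_
      · calc b * u ^ (a * j) * u ^ (a * (s + 1)) = b * u ^ (a * (s + j + 1)) := by ring
          _ ≤ (k + 2) * U := hb2
          _ ≤ (k + 3) * U := Nat.mul_le_mul_right _ (by omega)
      · have g1 : a * (s + j + 1 + 1) = a * (j + 1) + a * (s + 1) := by ring
        have g2 : a * (j + 2) = a * (j + 1) + a := by ring
        omega
    · simp only [le_refl, if_true, if_neg (Nat.not_succ_le_self s), Nat.add_sub_cancel_left,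
        mul_one]
      refine ratio_Params (t := a + 4 ^ (s + 2) + a * s) (p := 0) u2 ?_ (by simp) (by omega)
      have e1 : b / u ^ (a + 4 ^ (s + 2)) * u ^ (a + 4 ^ (s + 2)) ≤ b := Nat.div_mul_le_self _ _
      have e2 : u ^ (a + 4 ^ (s + 2) + a * s) ≤ U :=
        (Nat.pow_le_pow_right hu1 (by omega)).trans hUk
      calc (b / u ^ (a + 4 ^ (s + 2)) + 1) * u ^ (a + 4 ^ (s + 2) + a * s)
          = b / u ^ (a + 4 ^ (s + 2)) * u ^ (a + 4 ^ (s + 2)) * u ^ (a * s) +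
              u ^ (a + 4 ^ (s + 2) + a * s) := by
            rw [add_mul, one_mul, pow_add u (a + 4 ^ (s + 2)), mul_assoc]
        _ ≤ b * u ^ (a * s) + U := Nat.add_le_add (Nat.mul_le_mul_right _ e1) e2
        _ ≤ (k + 2) * U + U := Nat.add_le_add_right hb2 _
        _ = (k + 3) * U := by ring
  · calc 2 * S * (4 * u) ^ k ≤ 2 * u ^ (a + (M - c)) * (4 * u) ^ k := by gcongr
      _ = 2 * 4 ^ k * u ^ (a + (M - c) + k) := by
          rw [mul_pow, pow_add u _ k]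
          generalize u ^ (a + (M - c)) = x
          generalize u ^ k = y
          generalize 4 ^ k = z
          ring
      _ ≤ u ^ (a + M - T - 1) := cu_Params hu1 u4 (by omega)
  · have e1 : S ≤ u ^ (a + M - T - 3) := hS1.trans (Nat.pow_le_pow_right hu1 (by omega))
    have e2 : u ^ (a + 4 ^ (T + 2)) ≤ u ^ (a + M - T - 3) := Nat.pow_le_pow_right hu1 (by omega)
    calc 8 * k * u * (S + u ^ (a + 4 ^ (T + 2)))
        ≤ 8 * k * u * (u ^ (a + M - T - 3) + u ^ (a + M - T - 3)) := by gcongr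
      _ = 16 * k * u ^ (a + M - T - 3 + 1) := by ring
      _ ≤ u ^ (a + M - T - 1) := cu_Params hu1 u5 (by omega)
  · simp only [le_refl, if_true, Nat.add_sub_cancel_left, mul_one]
    have e1 : T * u ^ (M - c) + 1 ≤ (T + 1) * u ^ (M - c) := by
      have := hup (M - c)
      rw [add_mul]
      omega
    have e2 : 1 + k * u ^ (a + 4 ^ (T + 1)) ≤ 2 * k * u ^ (a + 4 ^ (T + 1)) := by
      have : 0 < k * u ^ (a + 4 ^ (T + 1)) := Nat.mul_pos (by omega) (hup _)
      rw [mul_assoc]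
      omega
    calc 24 * k * K * (T * u ^ (M - c) + 1) * (1 + k * u ^ (a + 4 ^ (T + 1)))
        ≤ 24 * k * K * ((T + 1) * u ^ (M - c)) * (2 * k * u ^ (a + 4 ^ (T + 1))) := by gcongr
      _ = 48 * k ^ 2 * K * (T + 1) * u ^ (M - c + (a + 4 ^ (T + 1))) := by
          rw [pow_add u (M - c)]
          generalize u ^ (M - c) = x
          generalize u ^ (a + 4 ^ (T + 1)) = y
          ring
      _ ≤ u ^ (a + M - T - 1) := cu_Params hu1 u6 (by omega)
  · have e : u ^ K = u * (u ^ M) ^ k := by rw [hK, ← pow_mul, pow_succ']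
    rw [e, mul_right_comm]
    exact Nat.mul_lt_mul_of_pos_right u7 (Nat.pow_pos (hup M))
  · intro v hv
    have e : u ≤ u ^ M := Nat.le_self_pow (by omega) u
    refine last_Params hK0 (Nat.le_add_left _ _) (u8.trans e) (le_trans (by omega) e) ?_ hC hU hw
      hv
    rw [hnk]
    exact hS1.trans (Nat.pow_le_pow_right hu1 (by omega))

theorem params (k T : ℕ) (hk : 2 ≤ k) : ∃ c m0 : ℕ, ∀ m, m0 ≤ m → c + 1 ≤ m ∧ ∃ C u0 : ℕ,
    (T + 1) * m ≤ C ∧ ∀ u, u0 ≤ u → ∀ U S w : ℕ, (u ^ ((T + 1) * m)) ^ C ≤ U →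
      (2 ^ w) ^ C ≤ U ^ (C + 1) → (T = 0 ∨ w ≤ 2 * u) →
      S * u ^ c ≤ u ^ ((k - 1) * m + (T + 1) * m) → Par k (u ^ ((T + 1) * m)) U S w T := by
  obtain ⟨c, hc⟩ : ∃ c, c = 2 * 4 ^ (T + 1) + k + T + 3 := ⟨_, rfl⟩
  have h0 : 0 < 4 ^ (T + 2) := by positivity
  refine ⟨c, 4 ^ (T + 2) + c + T + 3, fun m hm => ⟨by omega, ?_⟩⟩
  obtain ⟨K, hK⟩ : ∃ K, K = (T + 1) * m * k + 1 := ⟨_, rfl⟩
  obtain ⟨C, hC⟩ : ∃ C, C = 2 + 3 * k * (6 * K + 1) + 6 * K := ⟨_, rfl⟩
  have h1 : (T + 1) * m ≤ (T + 1) * m * k := Nat.le_mul_of_pos_right _ (by omega)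
  have h2 : m ≤ (T + 1) * m := Nat.le_mul_of_pos_left _ (by omega)
  have h3 : m ≤ (k - 1) * m := Nat.le_mul_of_pos_left _ (by omega)
  refine ⟨C, (2 + 2 * k ^ 3 + k ^ 2) + 6 * (k + 3) + ((T + 3) * k ^ 2 + T * (3 + (k - 1) * m)) +
    2 * 4 ^ k + 16 * k + 48 * k ^ 2 * K * (T + 1) + (2 * (12 * K ^ 2) ^ K + 1) +
    7 * K * k * (T + 3), by omega, fun u hu U S w hU hw hT hS => ?_⟩
  exact core_Params hk (by ring) hc (by omega) (by omega) hK hC (by omega) (by omega) (by omega)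
    (by omega) (by omega) (by omega) (by omega) (by omega) hU hw hT hS

end Pool.Agent.MP_5e38ef_lc.SP

end

section

namespace Pool.Agent.MP_5e38ef_lc.SP
open Finset TP

theorem mono_Final {k n n' U S w t : ℕ} (h : Solves k n U S w t) (h0 : 0 < n') (hn : n' ≤ n) :
    Solves k n' U S w t := by
  obtain ⟨pre, addr, out, h⟩ := h
  obtain ⟨f, hf⟩ : ∃ f : Fin n → Fin n', Function.Surjective f :=
    ⟨fun i => if h : i.1 < n' then ⟨i.1, h⟩ else ⟨0, h0⟩, fun j =>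
      ⟨⟨j.1, j.2.trans_le hn⟩, dif_pos j.2⟩⟩
  refine ⟨fun A => pre fun a i => A a (f i), addr, out, fun A hA z h1 h2 => ?_⟩
  rw [h (fun a i => A a (f i)) (fun a i => hA a (f i)) z h1 h2]
  constructor
  · rintro ⟨x, hx⟩
    exact ⟨fun a => f (x a), hx⟩
  · rintro ⟨x, hx⟩
    choose g hg using hf
    exact ⟨fun a => g (x a), by simpa only [hg] using hx⟩

theorem root_Final {M n b : ℕ} (hM : 0 < M) (h : b ^ M ≤ n) :
    ∃ u, b ≤ u ∧ u ^ M ≤ n ∧ n < (u + 1) ^ M := by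
  have h1 : n < (M.nthRoot n + 1) ^ M := Nat.lt_pow_nthRoot_add_one hM.ne' n
  exact ⟨M.nthRoot n, Nat.lt_succ_iff.1 (lt_of_pow_lt_pow_left₀ M (Nat.zero_le _) (h.trans_lt h1)),
    Nat.pow_nthRoot_le (Or.inl hM.ne'), h1⟩

theorem final
    (hpar : ∀ k T : ℕ, 2 ≤ k → ∃ c m0 : ℕ, ∀ m, m0 ≤ m → c + 1 ≤ m ∧ ∃ C u0 : ℕ,
      (T + 1) * m ≤ C ∧ ∀ u, u0 ≤ u → ∀ U S w : ℕ, (u ^ ((T + 1) * m)) ^ C ≤ U →
        (2 ^ w) ^ C ≤ U ^ (C + 1) → (T = 0 ∨ w ≤ 2 * u) →
        S * u ^ c ≤ u ^ ((k - 1) * m + (T + 1) * m) → Par k (u ^ ((T + 1) * m)) U S w T)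
    (habs : ∀ k n U S w T : ℕ, 2 ≤ k → Par k n U S w T → ¬ Solves k n U S w (T + 2))
    (k t : ℕ) (hk : 2 ≤ k) (ht : 2 ≤ t) (δ : ℝ) (hδ : 0 < δ) :
    ∃ C : ℕ, ∀ᶠ n : ℕ in Filter.atTop, ∀ U S w : ℕ, n ^ C ≤ U → (2 ^ w) ^ C ≤ U ^ (C + 1) →
      (t - 2) * w ^ C ≤ n → Solves k n U S w t →
        (n : ℝ) ^ (1 + ((k : ℝ) - 1) / ((t : ℝ) - 1) - δ) ≤ S := by
  obtain ⟨T, rfl⟩ : ∃ T, t = T + 2 := ⟨t - 2, by omega⟩
  obtain ⟨c, m0, h⟩ := hpar k T hk
  obtain ⟨m, hm0, hm1⟩ : ∃ m : ℕ, m0 ≤ m ∧ (c : ℝ) + 1 ≤ m * δ := by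
    refine ⟨max m0 ⌈((c : ℝ) + 1) / δ⌉₊, le_max_left _ _, (div_le_iff₀ hδ).1 ?_⟩
    exact (Nat.le_ceil _).trans (Nat.cast_le.2 (le_max_right _ _))
  obtain ⟨hc, C, u0, hC, h⟩ := h m hm0
  obtain ⟨j, rfl⟩ : ∃ j, k = j + 1 := ⟨k - 1, by omega⟩
  rw [Nat.add_sub_cancel] at h
  have hmM : m ≤ (T + 1) * m := Nat.le_mul_of_pos_left _ (by omega)
  obtain ⟨y, hy⟩ : ∃ y, j * m + (T + 1) * m = y + c + 1 := ⟨j * m + (T + 1) * m - (c + 1), by omega⟩
  have hx : 1 + (((j + 1 : ℕ) : ℝ) - 1) / (((T + 2 : ℕ) : ℝ) - 1) - δ ≤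
      (((T + 1) * m : ℕ) : ℝ)⁻¹ * y := by
    have h1 : (0 : ℝ) < (((T + 1) * m : ℕ) : ℝ) := by exact_mod_cast (by omega : 0 < (T + 1) * m)
    have h2 : (j : ℝ) * m + (T + 1) * m = y + c + 1 := by exact_mod_cast hy
    have h3 : (0 : ℝ) ≤ T * (m * δ) := by positivity
    have h4 : ((T + 2 : ℕ) : ℝ) - 1 = T + 1 := by push_cast; ring
    rw [le_inv_mul_iff₀ h1, h4]
    push_cast
    have h5 : ((T : ℝ) + 1) * m * (1 + (j + 1 - 1) / (T + 1) - δ) =
        (T + 1) * m + j * m - (T * (m * δ) + m * δ) := by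
      field_simp
      ring
    rw [h5]
    linarith
  generalize (T + 1) * m = M at *
  have hM : 0 < M := by omega
  refine ⟨C, (Filter.eventually_ge_atTop (max u0 (2 ^ y) ^ M)).mono
    fun n hn U S w h1 h2 h3 h4 => ?_⟩
  obtain ⟨u, hu, hu1, hu2⟩ := root_Final hM hn
  have hy2 : 2 ^ y ≤ u := (le_max_right _ _).trans hu
  have hu0 : 0 < u := lt_of_lt_of_le (by positivity) hy2
  have hn1 : 1 ≤ n := le_trans (Nat.pow_pos hu0) hu1
  have hn2 : n ≤ (2 * u) ^ M := hu2.le.trans (Nat.pow_le_pow_left (by omega) _)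
  by_contra hS
  refine habs _ _ U S w T hk (h u ((le_max_left _ _).trans hu) U S w
    ((Nat.pow_le_pow_left hu1 _).trans h1) h2 ?_ ?_) (mono_Final h4 (Nat.pow_pos hu0) hu1)
  · rcases Nat.eq_zero_or_pos T with h0 | h0
    · exact Or.inl h0
    rcases Nat.eq_zero_or_pos w with h5 | h5
    · exact Or.inr (by omega)
    rw [Nat.add_sub_cancel] at h3
    exact Or.inr (le_of_pow_le_pow_left₀ hM.ne' (Nat.zero_le _) ((Nat.pow_le_pow_right h5 hC).trans
      ((Nat.le_mul_of_pos_left _ h0).trans (h3.trans hn2))))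
  · have h5 : (S : ℝ) ≤ (((2 * u) ^ y : ℕ) : ℝ) := by
      refine (not_le.1 hS).le.trans ((Real.rpow_le_rpow_of_exponent_le (by exact_mod_cast hn1)
        hx).trans ?_)
      have h6 : (n : ℝ) ≤ ((2 * u : ℕ) : ℝ) ^ M := by exact_mod_cast hn2
      refine (Real.rpow_le_rpow (Nat.cast_nonneg _) h6 (by positivity)).trans (le_of_eq ?_)
      rw [Real.rpow_mul (by positivity), Real.pow_rpow_inv_natCast (Nat.cast_nonneg _) hM.ne',
        Real.rpow_natCast, Nat.cast_pow]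
    have h6 : S ≤ u * u ^ y :=
      (Nat.cast_le.1 h5).trans (by rw [mul_pow]; exact Nat.mul_le_mul_right _ hy2)
    rw [hy]
    calc S * u ^ c ≤ u * u ^ y * u ^ c := Nat.mul_le_mul_right _ h6
      _ = u ^ (y + c + 1) := by ring

end Pool.Agent.MP_5e38ef_lc.SP

end
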