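import Pool.Agent.Mg.F5e38efa.G478d36

section

/-! Counting databases by resampling one fresh entry. -/

namespace Pool.Agent.MP_5e38ef_lc.TP

open Finset

lemma resample_Count {I : Type} [Fintype I] [DecidableEq I] {m : ℕ} (p : I)
    (G : (I → Fin m) → Prop) [DecidablePred G] :
    m * (univ.filter G).card =
      ∑ A : I → Fin m, (univ.filter (fun v : Fin m => G (Function.update A p v))).card := by
  have hi : Function.Involutive
      (fun x : (I → Fin m) × Fin m => (Function.update x.1 p x.2, x.1 p)) := by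
    intro x
    simp
  have h : ∑ x : (I → Fin m) × Fin m, (if G (Function.update x.1 p x.2) then (1 : ℕ) else 0) =
      ∑ x : (I → Fin m) × Fin m, (if G x.1 then (1 : ℕ) else 0) :=
    Equiv.sum_comp hi.toPerm (fun x => if G x.1 then (1 : ℕ) else 0)
  rw [Fintype.sum_prod_type, Fintype.sum_prod_type] at h
  simp only [card_filter]
  rw [h, mul_sum]
  exact sum_congr rfl fun A _ => by by_cases hA : G A <;> simp [hA]

lemma fresh_Count {I : Type} [Fintype I] [DecidableEq I] {m q : ℕ} (p : I)
    (E : (I → Fin m) → Prop) [DecidablePred E] (Z : (I → Fin m) → Finset ℤ)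
    (y : (I → Fin m) → ℤ) (hE : ∀ A v, E (Function.update A p v) → E A)
    (hZ : ∀ A v, Z (Function.update A p v) = Z A) (hq : ∀ A, (Z A).card ≤ q)
    (hy : ∀ A, Function.Injective (fun v => y (Function.update A p v))) :
    m * (univ.filter (fun A => E A ∧ y A ∈ Z A)).card ≤ q * (univ.filter E).card := by
  rw [resample_Count p, card_filter E, mul_sum]
  refine sum_le_sum fun A _ => ?_
  by_cases h : E A
  · rw [if_pos h, mul_one]
    refine le_trans ?_ (hq A)
    refine card_le_card_of_injOn (fun v => y (Function.update A p v)) ?_ (hy A).injOn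
    intro v hv
    have := (mem_filter.1 (mem_coe.1 hv)).2.2
    rwa [hZ] at this
  · rw [if_neg h, mul_zero, Nat.le_zero, card_eq_zero, filter_eq_empty_iff]
    exact fun v _ hv => h (hE A v hv.1)

lemma zs_upd_ne_Count {k n U : ℕ} (A : Fin k × Fin n → Fin (U + 1)) (l : Fin k → Fin n)
    (i : Fin k) (c : Fin n) (v : Fin (U + 1)) (h : l i ≠ c) :
    zs (Function.update A (i, c) v) l = zs A l := by
  refine sum_congr rfl fun j _ => ?_
  rw [Function.update_of_ne]
  intro e
  obtain ⟨rfl, e2⟩ := Prod.mk.inj e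
  exact h e2

lemma zs_inj_Count {k n U : ℕ} (A : Fin k × Fin n → Fin (U + 1)) (l : Fin k → Fin n)
    (i : Fin k) : Function.Injective (fun v => zs (Function.update A (i, l i) v) l) := by
  have e : ∀ v, zs (Function.update A (i, l i) v) l =
      ((v : ℕ) : ℤ) + ∑ j ∈ univ.erase i, ((A (j, l j) : ℕ) : ℤ) := by
    intro v
    rw [zs, ← add_sum_erase _ _ (mem_univ i), Function.update_self]
    congr 1
    refine sum_congr rfl fun j hj => ?_
    rw [Function.update_of_ne]
    intro e
    exact (mem_erase.1 hj).1 (Prod.mk.inj e).1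
  intro v w h
  simp only [e, add_left_inj, Nat.cast_inj] at h
  exact Fin.ext h

lemma share_Count {k n : ℕ} (l : Fin k → Fin n) :
    (univ.filter (fun l' : Fin k → Fin n => l' ≠ l ∧ ∃ i, l i = l' i)).card
      ≤ k * n ^ (k - 1) := by
  have h1 : univ.filter (fun l' : Fin k → Fin n => l' ≠ l ∧ ∃ i, l i = l' i) ⊆
      univ.biUnion (fun i : Fin k =>
        (Fintype.piFinset fun _ : Fin k => (univ : Finset (Fin n))).filter
          (fun l' => l' i = l i)) := by
    intro l' hl
    obtain ⟨-, i, hi⟩ := (mem_filter.1 hl).2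
    simp only [mem_biUnion, mem_univ, true_and, mem_filter, Fintype.mem_piFinset, implies_true]
    exact ⟨i, hi.symm⟩
  refine (card_le_card h1).trans (card_biUnion_le.trans (le_of_eq ?_))
  rw [sum_congr rfl fun i _ =>
    Fintype.card_filter_piFinset_const_eq_of_mem (univ : Finset (Fin n)) i (mem_univ (l i))]
  simp

lemma pair_Count {k n U : ℕ} {T : Type} [DecidableEq T] (cls : ℤ → T) (q : ℕ)
    (hq : ∀ c, ((Icc (0 : ℤ) (k * U)).filter (fun z => cls z = c)).card ≤ q)
    {l l' : Fin k → Fin n} (h : l' ≠ l) :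
    (U + 1) * (univ.filter (fun A : Fin k × Fin n → Fin (U + 1) =>
      cls (zs A l) = cls (zs A l'))).card ≤
      q * Fintype.card (Fin k × Fin n → Fin (U + 1)) := by
  obtain ⟨i, hi⟩ := Function.ne_iff.1 h
  have := fresh_Count (m := U + 1) (q := q) (i, l' i) (fun _ => True)
    (fun A => (Icc (0 : ℤ) (k * U)).filter (fun z => cls z = cls (zs A l))) (fun A => zs A l')
    (fun _ _ _ => trivial) (fun A v => by rw [zs_upd_ne_Count A l i _ v hi.symm])
    (fun A => hq _) (fun A => zs_inj_Count A l' i)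
  rw [filter_true, card_univ] at this
  refine le_trans (Nat.mul_le_mul_left _ (card_le_card fun A hA => ?_)) this
  exact mem_filter.2 ⟨mem_univ _, trivial,
    mem_filter.2 ⟨zs_mem A l', (mem_filter.1 hA).2.symm⟩⟩

theorem pairs {k n U : ℕ} {T : Type} [DecidableEq T] (cls : ℤ → T) (q : ℕ)
    (hq : ∀ c, ((Icc (0 : ℤ) (k * U)).filter (fun z => cls z = c)).card ≤ q) :
    (U + 1) * ∑ A : Fin k × Fin n → Fin (U + 1), (univ.filter (fun l : Fin k → Fin n =>
        ∃ l', l' ≠ l ∧ (∃ i, l i = l' i) ∧ cls (zs A l) = cls (zs A l'))).card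
      ≤ n ^ k * (k * n ^ (k - 1)) * q * Fintype.card (Fin k × Fin n → Fin (U + 1)) := by
  set N := Fintype.card (Fin k × Fin n → Fin (U + 1)) with hN
  have h1 : ∀ A : Fin k × Fin n → Fin (U + 1), (univ.filter (fun l : Fin k → Fin n =>
        ∃ l', l' ≠ l ∧ (∃ i, l i = l' i) ∧ cls (zs A l) = cls (zs A l'))).card ≤
      ∑ l : Fin k → Fin n,
        ∑ l' ∈ univ.filter (fun l' : Fin k → Fin n => l' ≠ l ∧ ∃ i, l i = l' i),
        if cls (zs A l) = cls (zs A l') then 1 else 0 := by
    intro A
    rw [card_filter]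
    refine sum_le_sum fun l _ => ?_
    split_ifs with h
    · obtain ⟨l', h1, h2, h3⟩ := h
      have := single_le_sum (f := fun l' => if cls (zs A l) = cls (zs A l') then 1 else 0)
        (s := univ.filter (fun l' : Fin k → Fin n => l' ≠ l ∧ ∃ i, l i = l' i))
        (fun _ _ => Nat.zero_le _) (mem_filter.2 ⟨mem_univ l', h1, h2⟩)
      simpa only [if_pos h3] using this
    · exact Nat.zero_le _
  refine (Nat.mul_le_mul_left _ (sum_le_sum fun A _ => h1 A)).trans ?_
  rw [sum_comm, mul_sum]
  calc _ ≤ ∑ _l : Fin k → Fin n, k * n ^ (k - 1) * (q * N) := by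
        refine sum_le_sum fun l _ => ?_
        rw [sum_comm, mul_sum]
        refine le_trans (sum_le_card_nsmul _ _ (q * N) fun l' hl' => ?_) ?_
        · rw [← card_filter]
          exact pair_Count cls q hq (mem_filter.1 hl').2.1
        · exact Nat.mul_le_mul_right _ (share_Count l)
    _ = _ := by
        simp only [sum_const, card_univ, Fintype.card_fun, Fintype.card_fin, smul_eq_mul]
        ring

theorem indep {k n U : ℕ} (i0 : Fin k) (Z : Finset ℤ) (F : Finset (Fin k → Fin n))
    (hF : ∀ l ∈ F, ∀ l' ∈ F, l i0 = l' i0 → l = l') :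
    (U + 1) ^ F.card *
        (univ.filter (fun A : Fin k × Fin n → Fin (U + 1) => ∀ l ∈ F, zs A l ∈ Z)).card
      ≤ Z.card ^ F.card * Fintype.card (Fin k × Fin n → Fin (U + 1)) := by
  induction F using Finset.induction_on with
  | empty => simp
  | insert l F hl ih =>
    have ih' := ih fun a ha b hb => hF a (mem_insert_of_mem ha) b (mem_insert_of_mem hb)
    have hne : ∀ a ∈ F, a i0 ≠ l i0 := fun a ha e =>
      hl (hF a (mem_insert_of_mem ha) l (mem_insert_self _ _) e ▸ ha)
    have := fresh_Count (m := U + 1) (q := Z.card) (i0, l i0)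
      (fun A => ∀ a ∈ F, zs A a ∈ Z) (fun _ => Z) (fun A => zs A l)
      (fun A v h a ha => by rw [← zs_upd_ne_Count A a i0 _ v (hne a ha)]; exact h a ha)
      (fun _ _ => rfl) (fun _ => le_rfl) (fun A => zs_inj_Count A l i0)
    have e : univ.filter (fun A : Fin k × Fin n → Fin (U + 1) => ∀ a ∈ insert l F, zs A a ∈ Z) =
        univ.filter (fun A => (∀ a ∈ F, zs A a ∈ Z) ∧ zs A l ∈ Z) :=
      filter_congr fun A _ => by rw [forall_mem_insert, and_comm]
    rw [card_insert_of_notMem hl, e, pow_succ, mul_assoc, pow_succ', mul_assoc]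
    refine (Nat.mul_le_mul_left _ this).trans ?_
    rw [mul_left_comm]
    exact Nat.mul_le_mul_left _ ih'

end Pool.Agent.MP_5e38ef_lc.TP

end

section

/-! The row lemma and the non-steering lemma. -/

namespace Pool.Agent.MP_5e38ef_lc.SP
open Finset TP

theorem row {k n U : ℕ} (A : Fin k × Fin n → Fin (U + 1)) (Z : Finset ℤ) (D : ℕ) (j : Fin k)
    (c : Fin n) : ((good A Z D).filter (fun l => l j = c)).card ≤ 1 + k * D := by
  set S := (good A Z D).filter (fun l => l j = c) with hS
  rcases S.eq_empty_or_nonempty with h0 | hne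
  · rw [h0]; simp
  obtain ⟨m, hm, hmax⟩ := exists_max_image S (fun l => ∑ i, (l i : ℕ)) hne
  have hm' := mem_filter.1 hm
  have hg := (mem_filter.1 hm'.1).2
  have hsub : S ⊆ insert m (univ.biUnion fun i : Fin k =>
      univ.filter (fun l' : Fin k → Fin n => zs A l' ∈ Z ∧ l' j = m j ∧ l' i < m i)) := by
    intro l hl
    have hl' := mem_filter.1 hl
    have hz := (mem_filter.1 hl'.1).2.1
    by_cases h : ∃ i, l i < m i
    · obtain ⟨i, hi⟩ := h
      refine mem_insert_of_mem (mem_biUnion.2 ⟨i, mem_univ _, ?_⟩)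
      exact mem_filter.2 ⟨mem_univ _, hz, hl'.2.trans hm'.2.symm, hi⟩
    · have hle : ∀ i ∈ (univ : Finset (Fin k)), (m i : ℕ) ≤ l i := fun i _ =>
        Fin.le_def.1 (not_lt.1 fun hi => h ⟨i, hi⟩)
      have he : ∑ i, (m i : ℕ) = ∑ i, (l i : ℕ) :=
        le_antisymm (sum_le_sum hle) (hmax l hl)
      have := (sum_eq_sum_iff_of_le hle).1 he
      have e : l = m := funext fun i => Fin.ext (this i (mem_univ _)).symm
      rw [e]
      exact mem_insert_self _ _
  refine (card_le_card hsub).trans ((card_insert_le _ _).trans ?_)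
  rw [add_comm]
  refine Nat.add_le_add_left ?_ 1
  refine (card_biUnion_le_card_mul _ _ D fun i _ => hg.2 i j).trans (le_of_eq ?_)
  simp

lemma mates_upd_NS {k n U : ℕ} (A : Fin k × Fin n → Fin (U + 1)) (Z : Finset ℤ) (i j : Fin k)
    (l : Fin k → Fin n) (b : Fin n) (v : Fin (U + 1)) (h : l i ≤ b) :
    mates (Function.update A (i, b) v) Z i j l = mates A Z i j l := by
  unfold mates
  congr 1
  refine filter_congr fun l' _ => ?_
  by_cases h' : l' i < l i
  · rw [zs_upd_ne_Count A l' i b v (lt_of_lt_of_le h' h).ne]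
  · simp [h']

/-- The labels of one `i`-row with few mates in `Z` and many in their own piece. -/
def XS_NS {k n U : ℕ} {T : Type} [DecidableEq T] (Z : Finset ℤ) (cls : ℤ → T) (D D' : ℕ)
    (i j : Fin k) (b : Fin n) (A : Fin k × Fin n → Fin (U + 1)) : Finset (Fin k → Fin n) :=
  univ.filter (fun l => l i = b ∧ mates A Z i j l ≤ D ∧ zs A l ∈ Z ∧
    D' < mates A (piece Z cls (cls (zs A l))) i j l)

lemma XS_upd_NS {k n U : ℕ} {T : Type} [DecidableEq T] (Z : Finset ℤ) (cls : ℤ → T) (D D' : ℕ)
    (i j : Fin k) (b b' : Fin n) (A : Fin k × Fin n → Fin (U + 1)) (v : Fin (U + 1))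
    (h : b < b') :
    XS_NS Z cls D D' i j b (Function.update A (i, b') v) = XS_NS Z cls D D' i j b A := by
  unfold XS_NS
  refine filter_congr fun l _ => ?_
  by_cases hl : l i = b
  · have h1 : l i < b' := hl ▸ h
    rw [zs_upd_ne_Count A l i b' v h1.ne, mates_upd_NS A _ i j l b' v h1.le,
      mates_upd_NS A _ i j l b' v h1.le]
  · simp [hl]

lemma sum_mates_NS {k n U : ℕ} {T : Type} [DecidableEq T] (A : Fin k × Fin n → Fin (U + 1))
    (Z : Finset ℤ) (cls : ℤ → T) (i j : Fin k) (l : Fin k → Fin n) :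
    ∑ c ∈ Z.image cls, mates A (piece Z cls c) i j l = mates A Z i j l := by
  unfold mates
  rw [card_eq_sum_card_fiberwise (f := fun l' => cls (zs A l')) (t := Z.image cls)
    (s := univ.filter (fun l' : Fin k → Fin n => zs A l' ∈ Z ∧ l' j = l j ∧ l' i < l i))]
  · refine sum_congr rfl fun c _ => ?_
    rw [filter_filter]
    congr 1
    refine filter_congr fun l' _ => ?_
    simp only [piece, mem_filter]
    tauto
  · intro l' hl'
    exact mem_coe.2 (mem_image_of_mem _ (mem_filter.1 (mem_coe.1 hl')).2.1)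

lemma one_NS {k n U : ℕ} {T : Type} [DecidableEq T] (Z : Finset ℤ) (cls : ℤ → T) (B D D' : ℕ)
    (hB : ∀ c, (piece Z cls c).card ≤ B) (i j : Fin k) (l : Fin k → Fin n)
    (A : Fin k × Fin n → Fin (U + 1)) :
    (D' + 1) * (univ.filter (fun v : Fin (U + 1) =>
      l ∈ XS_NS Z cls D D' i j (l i) (Function.update A (i, l i) v))).card ≤ D * B := by
  by_cases h : mates A Z i j l ≤ D
  · set H := (Z.image cls).filter (fun c => D' < mates A (piece Z cls c) i j l) with hH
    have h1 : (D' + 1) * H.card ≤ D := by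
      calc (D' + 1) * H.card = ∑ _c ∈ H, (D' + 1) := by rw [sum_const, smul_eq_mul, mul_comm]
        _ ≤ ∑ c ∈ H, mates A (piece Z cls c) i j l :=
          sum_le_sum fun c hc => (mem_filter.1 hc).2
        _ ≤ ∑ c ∈ Z.image cls, mates A (piece Z cls c) i j l :=
          sum_le_sum_of_subset (filter_subset _ _)
        _ ≤ D := by rw [sum_mates_NS]; exact h
    have h2 : (univ.filter (fun v : Fin (U + 1) =>
        l ∈ XS_NS Z cls D D' i j (l i) (Function.update A (i, l i) v))).card ≤ H.card * B := by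
      refine le_trans ?_ (card_biUnion_le_card_mul H (piece Z cls) B fun c _ => hB c)
      refine card_le_card_of_injOn (fun v => zs (Function.update A (i, l i) v) l) ?_
        (zs_inj_Count A l i).injOn
      intro v hv
      obtain ⟨-, -, hz, hd⟩ := (mem_filter.1 (mem_filter.1 (mem_coe.1 hv)).2).2
      rw [mates_upd_NS A _ i j l _ v le_rfl] at hd
      exact mem_coe.2 (mem_biUnion.2 ⟨_, mem_filter.2 ⟨mem_image_of_mem _ hz, hd⟩,
        mem_filter.2 ⟨hz, rfl⟩⟩)
    calc _ ≤ (D' + 1) * (H.card * B) := Nat.mul_le_mul_left _ h2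
      _ = (D' + 1) * H.card * B := by ring
      _ ≤ D * B := Nat.mul_le_mul_right _ h1
  · have : univ.filter (fun v : Fin (U + 1) =>
        l ∈ XS_NS Z cls D D' i j (l i) (Function.update A (i, l i) v)) = ∅ := by
      rw [filter_eq_empty_iff]
      intro v _ hv
      have hd := (mem_filter.1 hv).2.2.1
      rw [mates_upd_NS A _ i j l _ v le_rfl] at hd
      exact h hd
    rw [this]
    simp

lemma markov_NS {k n U : ℕ} {T : Type} [DecidableEq T] (Z : Finset ℤ) (cls : ℤ → T)
    (B D D' E : ℕ) (hB : ∀ c, (piece Z cls c).card ≤ B) (i j : Fin k) (b : Fin n)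
    (A : Fin k × Fin n → Fin (U + 1)) :
    (D' + 1) * (E + 1) * (univ.filter (fun v : Fin (U + 1) =>
      E < (XS_NS Z cls D D' i j b (Function.update A (i, b) v)).card)).card
      ≤ n ^ (k - 1) * D * B := by
  set L := (Fintype.piFinset fun _ : Fin k => (univ : Finset (Fin n))).filter
    (fun l => l i = b) with hL
  have hLc : L.card = n ^ (k - 1) := by
    rw [hL, Fintype.card_filter_piFinset_const_eq_of_mem (univ : Finset (Fin n)) i (mem_univ b)]
    simp
  have h1 : (E + 1) * (univ.filter (fun v : Fin (U + 1) =>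
      E < (XS_NS Z cls D D' i j b (Function.update A (i, b) v)).card)).card ≤
      ∑ v : Fin (U + 1), (XS_NS Z cls D D' i j b (Function.update A (i, b) v)).card := by
    rw [mul_comm, ← smul_eq_mul, ← sum_const]
    exact (sum_le_sum fun v hv => (mem_filter.1 hv).2).trans
      (sum_le_sum_of_subset (filter_subset _ _))
  have h2 : ∀ v : Fin (U + 1), (XS_NS Z cls D D' i j b (Function.update A (i, b) v)).card =
      ∑ l ∈ L, if l ∈ XS_NS Z cls D D' i j b (Function.update A (i, b) v) then 1 else 0 := by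
    intro v
    rw [← card_filter, filter_mem_eq_inter, inter_eq_right.2]
    intro l hl
    exact mem_filter.2 ⟨by simp, (mem_filter.1 hl).2.1⟩
  rw [sum_congr rfl fun v _ => h2 v, sum_comm] at h1
  rw [mul_assoc]
  refine (Nat.mul_le_mul_left _ h1).trans ?_
  rw [mul_sum, mul_assoc, ← hLc, ← smul_eq_mul]
  refine sum_le_card_nsmul _ _ _ fun l hl => ?_
  have e : l i = b := (mem_filter.1 hl).2
  rw [← card_filter, ← e]
  exact one_NS Z cls B D D' hB i j l A

lemma seq_NS {k n m : ℕ} (i : Fin k) (P : Fin n → (Fin k × Fin n → Fin m) → Prop)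
    [∀ b, DecidablePred (P b)] (a c : ℕ)
    (hinv : ∀ b b' A v, b < b' → P b (Function.update A (i, b') v) → P b A)
    (hm : ∀ b A, a * (univ.filter (fun v => P b (Function.update A (i, b) v))).card ≤ c)
    (I : Finset (Fin n)) :
    (a * m) ^ I.card * (univ.filter (fun A => ∀ b ∈ I, P b A)).card
      ≤ c ^ I.card * Fintype.card (Fin k × Fin n → Fin m) := by
  induction I using Finset.induction_on_max with
  | empty => simp
  | insert b s hs ih =>
    have hb : b ∉ s := fun h => lt_irrefl _ (hs b h)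
    have key : a * (m * (univ.filter (fun A => ∀ x ∈ insert b s, P x A)).card) ≤
        c * (univ.filter (fun A => ∀ x ∈ s, P x A)).card := by
      rw [resample_Count (i, b), card_filter (fun A => ∀ x ∈ s, P x A), mul_sum, mul_sum]
      refine sum_le_sum fun A _ => ?_
      by_cases h : ∀ x ∈ s, P x A
      · rw [if_pos h, mul_one]
        refine le_trans (Nat.mul_le_mul_left _ (card_le_card fun v hv => ?_)) (hm b A)
        exact mem_filter.2 ⟨mem_univ _, (mem_filter.1 hv).2 b (mem_insert_self _ _)⟩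
      · rw [if_neg h, mul_zero, Nat.le_zero, mul_eq_zero, card_eq_zero, filter_eq_empty_iff]
        exact Or.inr fun v _ hv => h fun x hx =>
          hinv x b A v (hs x hx) (hv x (mem_insert_of_mem hx))
    rw [card_insert_of_notMem hb, pow_succ, mul_assoc, mul_assoc a, pow_succ', mul_assoc]
    refine (Nat.mul_le_mul_left _ key).trans ?_
    rw [mul_left_comm]
    exact Nat.mul_le_mul_left _ ih

lemma cover_NS {k n U : ℕ} {T : Type} [DecidableEq T] (Z : Finset ℤ) (cls : ℤ → T)
    (D D' E r : ℕ) (A : Fin k × Fin n → Fin (U + 1))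
    (h : ∀ i j : Fin k,
      (univ.filter (fun b => E < (XS_NS Z cls D D' i j b A).card)).card ≤ r) :
    (bad A Z cls D D').card ≤ k ^ 2 * (r * (1 + k * D) + n * E) := by
  have hsub : bad A Z cls D D' ⊆ (univ : Finset (Fin k × Fin k)).biUnion (fun p =>
      univ.biUnion fun b : Fin n => XS_NS Z cls D D' p.1 p.2 b A ∩
        (good A Z D).filter (fun l => l p.1 = b)) := by
    intro l hl
    obtain ⟨hg, hn⟩ := mem_filter.1 hl
    have hg' := (mem_filter.1 hg).2
    have : ∃ i j, D' < mates A (piece Z cls (cls (zs A l))) i j l := by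
      by_contra hc
      refine hn (mem_filter.2 ⟨mem_univ _, mem_filter.2 ⟨hg'.1, rfl⟩, fun i j => ?_⟩)
      exact not_lt.1 fun hlt => hc ⟨i, j, hlt⟩
    obtain ⟨i, j, hij⟩ := this
    refine mem_biUnion.2 ⟨(i, j), mem_univ _, mem_biUnion.2 ⟨l i, mem_univ _, ?_⟩⟩
    exact mem_inter.2 ⟨mem_filter.2 ⟨mem_univ _, rfl, hg'.2 i j, hg'.1, hij⟩,
      mem_filter.2 ⟨hg, rfl⟩⟩
  refine (card_le_card hsub).trans ?_
  refine (card_biUnion_le_card_mul _ _ (r * (1 + k * D) + n * E) fun p _ => ?_).trans
    (le_of_eq (by simp [sq]))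
  refine card_biUnion_le.trans ?_
  calc _ ≤ ∑ b : Fin n, ((if E < (XS_NS Z cls D D' p.1 p.2 b A).card then 1 else 0) *
        (1 + k * D) + E) := by
        refine sum_le_sum fun b _ => ?_
        split_ifs with hb
        · rw [one_mul]
          exact ((card_le_card inter_subset_right).trans (row A Z D p.1 b)).trans
            (Nat.le_add_right _ _)
        · rw [zero_mul, zero_add]
          exact (card_le_card inter_subset_left).trans (not_lt.1 hb)
    _ = (univ.filter (fun b => E < (XS_NS Z cls D D' p.1 p.2 b A).card)).card * (1 + k * D)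
        + n * E := by
        rw [sum_add_distrib, ← sum_mul, ← card_filter]
        simp
    _ ≤ _ := Nat.add_le_add_right (Nat.mul_le_mul_right _ (h p.1 p.2)) _

theorem ns {k n U : ℕ} {T : Type} [DecidableEq T] (Z : Finset ℤ) (cls : ℤ → T)
    (B D D' E r : ℕ) (hB : ∀ c, (piece Z cls c).card ≤ B) :
    ((D' + 1) * (E + 1) * (U + 1)) ^ r * (univ.filter (fun A : Fin k × Fin n → Fin (U + 1) =>
        k ^ 2 * (r * (1 + k * D) + n * E) < (bad A Z cls D D').card)).card
      ≤ k ^ 2 * n.choose r * (n ^ (k - 1) * D * B) ^ r *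
          Fintype.card (Fin k × Fin n → Fin (U + 1)) := by
  have hsub : univ.filter (fun A : Fin k × Fin n → Fin (U + 1) =>
        k ^ 2 * (r * (1 + k * D) + n * E) < (bad A Z cls D D').card) ⊆
      ((univ : Finset (Fin k × Fin k)) ×ˢ powersetCard r (univ : Finset (Fin n))).biUnion
        (fun q => univ.filter (fun A => ∀ b ∈ q.2,
          E < (XS_NS Z cls D D' q.1.1 q.1.2 b A).card)) := by
    intro A hA
    have hA' := (mem_filter.1 hA).2
    have : ∃ i j : Fin k,
        r ≤ (univ.filter (fun b => E < (XS_NS Z cls D D' i j b A).card)).card := by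
      by_contra hc
      refine absurd (cover_NS Z cls D D' E r A fun i j => ?_) (not_le.2 hA')
      exact (not_le.1 fun hle => hc ⟨i, j, hle⟩).le
    obtain ⟨i, j, hij⟩ := this
    obtain ⟨I, hI, hIc⟩ := exists_subset_card_eq hij
    refine mem_biUnion.2 ⟨((i, j), I), ?_, mem_filter.2 ⟨mem_univ _, fun b hb => ?_⟩⟩
    · exact mem_product.2 ⟨mem_univ _, mem_powersetCard.2 ⟨subset_univ _, hIc⟩⟩
    · exact (mem_filter.1 (hI hb)).2
  refine (Nat.mul_le_mul_left _ ((card_le_card hsub).trans card_biUnion_le)).trans ?_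
  rw [mul_sum]
  refine (sum_le_card_nsmul _ _ ((n ^ (k - 1) * D * B) ^ r *
    Fintype.card (Fin k × Fin n → Fin (U + 1))) fun q hq => ?_).trans (le_of_eq ?_)
  · have hc : q.2.card = r := (mem_powersetCard.1 (mem_product.1 hq).2).2
    have := seq_NS (m := U + 1) q.1.1
      (fun b A => E < (XS_NS Z cls D D' q.1.1 q.1.2 b A).card) ((D' + 1) * (E + 1))
      (n ^ (k - 1) * D * B)
      (fun b b' A v hb hP => by rwa [XS_upd_NS Z cls D D' _ _ b b' A v hb] at hP)
      (fun b A => markov_NS Z cls B D D' E hB _ _ b A) q.2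
    rwa [hc] at this
  · rw [card_product, card_powersetCard, smul_eq_mul]
    simp only [card_univ, Fintype.card_prod, Fintype.card_fin]
    ring

end Pool.Agent.MP_5e38ef_lc.SP

end

section

namespace Pool.Agent.MP_5e38ef_lc.SP

open Finset TP

lemma agree_UnionT {S W t : ℕ} {addr : List (Fin W) → Fin S} {M M' : Fin S → Fin W}
    {R : Finset (Fin S)} (h : ∀ c ∈ R, M c = M' c) (hi : inside addr M t R) :
    ∀ u ≤ t, reads addr M' u = reads addr M u := by
  intro u hu
  induction u with
  | zero => simp [reads]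
  | succ u ih =>
    have e := ih (by omega)
    simp only [reads, e, h _ (hi u (by omega))]

open Classical in
theorem union_t {k n U S W t : ℕ} (pre : (Fin k × Fin n → Fin (U + 1)) → Fin S → Fin W)
    (addr : ℤ → List (Fin W) → Fin S) (out : ℤ → List (Fin W) → Bool)
    (hyes : ∀ A, ∀ z ∈ Icc (0 : ℤ) (k * U),
      (out z (reads (addr z) (pre A) t) = true ↔ ∃ l, z = zs A l)) (v e : ℕ) :
    (U + 1) ^ e * (univ.filter (fun A : Fin k × Fin n → Fin (U + 1) =>
        ∃ i0 : Fin k, ∃ F : Finset (Fin k → Fin n), F.card = e ∧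
          (∀ l ∈ F, ∀ l' ∈ F, l i0 = l' i0 → l = l') ∧ ∃ R : Finset (Fin S), R.card = v ∧
          ∀ l ∈ F, inside (addr (zs A l)) (pre A) t R)).card
      ≤ k * (n ^ k) ^ e * (S * W) ^ v * (n ^ k) ^ e *
          Fintype.card (Fin k × Fin n → Fin (U + 1)) := by
  let Z : Finset (Fin S × Fin W) → Finset ℤ := fun mu => (Icc (0 : ℤ) (k * U)).filter fun z =>
    ∃ M : Fin S → Fin W, (∀ p ∈ mu, M p.1 = p.2) ∧ inside (addr z) M t (mu.image Prod.fst) ∧
      out z (reads (addr z) M t) = true
  have hZ : ∀ mu : Finset (Fin S × Fin W), (∃ A', ∀ p ∈ mu, pre A' p.1 = p.2) →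
      (Z mu).card ≤ n ^ k := by
    rintro mu ⟨A', hA'⟩
    have hs : Z mu ⊆ univ.image (zs A') := by
      intro z hz
      obtain ⟨hz1, M, hM, e2, e3⟩ := mem_filter.1 hz
      have a1 : ∀ c ∈ mu.image Prod.fst, M c = pre A' c := by
        intro c hc
        obtain ⟨p, hp, rfl⟩ := mem_image.1 hc
        rw [hM p hp, hA' p hp]
      obtain ⟨l, hl⟩ := (hyes A' z hz1).1 (by rw [agree_UnionT a1 e2 t le_rfl]; exact e3)
      exact mem_image.2 ⟨l, mem_univ _, hl.symm⟩
    refine (card_le_card hs).trans (card_image_le.trans ?_)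
    simp
  let J : Finset (Fin k × Finset (Fin k → Fin n) × Finset (Fin S × Fin W)) :=
    (univ ×ˢ powersetCard e univ ×ˢ powersetCard v univ).filter fun t =>
      (∀ l ∈ t.2.1, ∀ l' ∈ t.2.1, l t.1 = l' t.1 → l = l') ∧ ∃ A', ∀ p ∈ t.2.2, pre A' p.1 = p.2
  have hJ : J.card ≤ k * (n ^ k) ^ e * (S * W) ^ v := by
    refine (card_filter_le _ _).trans ?_
    rw [card_product, card_product, card_powersetCard, card_powersetCard, mul_assoc]
    simp only [card_univ, Fintype.card_fin, Fintype.card_fun, Fintype.card_prod]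
    exact Nat.mul_le_mul_left _ (Nat.mul_le_mul (Nat.choose_le_pow _ _) (Nat.choose_le_pow _ _))
  have hsub : (univ.filter (fun A : Fin k × Fin n → Fin (U + 1) =>
        ∃ i0 : Fin k, ∃ F : Finset (Fin k → Fin n), F.card = e ∧
          (∀ l ∈ F, ∀ l' ∈ F, l i0 = l' i0 → l = l') ∧ ∃ R : Finset (Fin S), R.card = v ∧
          ∀ l ∈ F, inside (addr (zs A l)) (pre A) t R)) ⊆
      J.biUnion fun t => univ.filter fun A : Fin k × Fin n → Fin (U + 1) =>
        ∀ l ∈ t.2.1, zs A l ∈ Z t.2.2 := by
    intro A hA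
    obtain ⟨-, i0, F, hF, hr, T, hT, hl⟩ := mem_filter.1 hA
    have hp : ∀ p ∈ T.image fun c => (c, pre A c), pre A p.1 = p.2 := by
      intro p hp
      obtain ⟨c, -, rfl⟩ := mem_image.1 hp
      rfl
    refine mem_biUnion.2 ⟨(i0, F, T.image fun c => (c, pre A c)), mem_filter.2 ⟨?_, hr, A, hp⟩,
      mem_filter.2 ⟨mem_univ _, fun l hlF => mem_filter.2 ⟨zs_mem A l, pre A, hp, ?_,
        (hyes A _ (zs_mem A l)).2 ⟨l, rfl⟩⟩⟩⟩
    · refine mem_product.2 ⟨mem_univ _, mem_product.2 ⟨mem_powersetCard.2 ⟨subset_univ _, hF⟩,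
        mem_powersetCard.2 ⟨subset_univ _, ?_⟩⟩⟩
      rw [card_image_of_injective _ fun a b e => (Prod.ext_iff.1 e).1, hT]
    · intro u hu
      exact mem_image.2 ⟨_, mem_image_of_mem _ (hl l hlF u hu), rfl⟩
  refine (Nat.mul_le_mul_left _ ((card_le_card hsub).trans card_biUnion_le)).trans ?_
  rw [mul_sum, mul_assoc (k * _ * _)]
  refine (sum_le_card_nsmul _ _ ((n ^ k) ^ e *
    Fintype.card (Fin k × Fin n → Fin (U + 1))) ?_).trans ?_
  · intro t ht
    obtain ⟨h1, h2, h3⟩ := mem_filter.1 ht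
    have hc : t.2.1.card = e := (mem_powersetCard.1 (mem_product.1 (mem_product.1 h1).2).1).2
    have := indep (U := U) t.1 (Z t.2.2) t.2.1 h2
    rw [hc] at this
    exact this.trans (Nat.mul_le_mul_right _ (Nat.pow_le_pow_left (hZ _ h3) _))
  · rw [smul_eq_mul]
    exact Nat.mul_le_mul_right _ hJ

end Pool.Agent.MP_5e38ef_lc.SP

end
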