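import Mathlib
import Pool.Agent.Mg.F5e38efa.G70d951
import Pool.Agent.Mg.F5e38efa.G478d36

section

namespace Pool.Agent.MP_5e38ef_lc.TP
open Finset Matrix

set_option linter.unusedSectionVars false

variable {V C : Type} [Fintype V] [DecidableEq V] [Fintype C] [DecidableEq C]

/-- All colour words of length `j`. -/
noncomputable def words (C : Type) [Fintype C] (j : ℕ) : Finset (List C) :=
  (List.finite_length_eq C j).toFinset

lemma mem_words {j : ℕ} {u : List C} : u ∈ words C j ↔ u.length = j := by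
  simp [words]

lemma words_zero : words C 0 = {[]} := by
  ext u; simp [mem_words]

lemma sum_words_add {α : Type} [AddCommMonoid α] (i j : ℕ) (f : List C → α) :
    ∑ v ∈ words C (i + j), f v = ∑ u ∈ words C i, ∑ u' ∈ words C j, f (u ++ u') := by
  rw [← sum_product']
  refine sum_nbij' (fun v => (v.take i, v.drop i)) (fun p => p.1 ++ p.2) ?_ ?_ ?_ ?_ ?_
  · intro v hv
    have := mem_words.mp hv
    simp [mem_words, this]
  · intro p hp
    obtain ⟨h1, h2⟩ := mem_product.mp hp
    simp [mem_words, mem_words.mp h1, mem_words.mp h2]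
  · intro v _; simp
  · intro p hp
    obtain ⟨h1, _⟩ := mem_product.mp hp
    have := mem_words.mp h1
    ext1 <;> simp [← this]
  · intro v _; simp

lemma sum_words_succ {α : Type} [AddCommMonoid α] (j : ℕ) (f : List C → α) :
    ∑ v ∈ words C (j + 1), f v = ∑ c, ∑ u ∈ words C j, f (c :: u) := by
  rw [add_comm, sum_words_add]
  symm
  refine sum_nbij (fun c => [c]) ?_ ?_ ?_ ?_
  · intro c _; simp [mem_words]
  · intro c _ c' _ h; simpa using h
  · intro u hu
    obtain ⟨c, rfl⟩ := List.length_eq_one_iff.mp (mem_words.mp hu)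
    exact ⟨c, by simp, rfl⟩
  · intro c _; simp

lemma sum_words_rev {α : Type} [AddCommMonoid α] (j : ℕ) (f : List C → α) :
    ∑ u ∈ words C j, f u.reverse = ∑ u ∈ words C j, f u := by
  refine sum_nbij' List.reverse List.reverse ?_ ?_ ?_ ?_ ?_ <;> simp [mem_words]

/-- The matrix of a colour word. -/
def P (B : C → Matrix V V ℝ) (u : List C) : Matrix V V ℝ := (u.map B).prod

lemma P_cons (B : C → Matrix V V ℝ) (c : C) (u : List C) : P B (c :: u) = B c * P B u := by
  simp [P]

lemma P_append (B : C → Matrix V V ℝ) (u v : List C) : P B (u ++ v) = P B u * P B v := by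
  simp [P]

lemma mul_nonneg' {X Y : Matrix V V ℝ} (hX : ∀ x y, 0 ≤ X x y) (hY : ∀ x y, 0 ≤ Y x y) (x y : V) :
    0 ≤ (X * Y) x y := by
  rw [mul_apply]; exact sum_nonneg fun z _ => mul_nonneg (hX _ _) (hY _ _)

lemma one_nonneg' (x y : V) : 0 ≤ (1 : Matrix V V ℝ) x y := by
  rw [one_apply]; split_ifs <;> norm_num

lemma P_nonneg {B : C → Matrix V V ℝ} (h : ∀ c x y, 0 ≤ B c x y) (u : List C) :
    ∀ x y, 0 ≤ P B u x y := by
  induction u with
  | nil => exact one_nonneg'
  | cons c u ih => rw [P_cons]; exact mul_nonneg' (h c) ih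

lemma P_rev {B : C → Matrix V V ℝ} (h : ∀ c, (B c)ᵀ = B c) (u : List C) :
    P B u.reverse = (P B u)ᵀ := by
  induction u with
  | nil => simp [P]
  | cons c u ih =>
    rw [List.reverse_cons, P_append, ih, P_cons, P_cons, transpose_mul, h]; simp [P]

/-- Weighted sum of word matrices. -/
noncomputable def SW (B : C → Matrix V V ℝ) (m : ℕ) (f : List C → ℝ) : Matrix V V ℝ :=
  ∑ v ∈ words C m, f v • P B v

lemma SW_succ (B : C → Matrix V V ℝ) (m : ℕ) (f : List C → ℝ) :
    SW B (m + 1) f = ∑ c, B c * SW B m (fun v => f (c :: v)) := by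
  unfold SW
  rw [sum_words_succ]
  refine sum_congr rfl fun c _ => ?_
  rw [Finset.mul_sum]
  exact sum_congr rfl fun v _ => by rw [P_cons, mul_smul_comm]

lemma SW_add (B : C → Matrix V V ℝ) (m : ℕ) (f g : List C → ℝ) :
    SW B m (fun v => f v + g v) = SW B m f + SW B m g := by
  unfold SW; simp [add_smul, sum_add_distrib]

lemma SW_const (B : C → Matrix V V ℝ) (m : ℕ) (r : ℝ) :
    SW B m (fun _ => r) = r • (∑ c, B c) ^ m := by
  induction m with
  | zero => simp [SW, words_zero, P]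
  | succ m ih => rw [SW_succ]; simp only [ih, mul_smul_comm, ← smul_sum, ← sum_mul, pow_succ']

/-- Number of pairs of positions carrying the same colour. -/
def rep : List C → ℝ
  | [] => 0
  | c :: v => (v.count c : ℝ) + rep v

lemma rep_nonneg (v : List C) : 0 ≤ rep v := by
  induction v with
  | nil => simp [rep]
  | cons c v ih => simp only [rep]; positivity

lemma one_le_rep {v : List C} (h : ¬ v.Nodup) : 1 ≤ rep v := by
  induction v with
  | nil => simp at h
  | cons c v ih =>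
    rw [List.nodup_cons, not_and_or, not_not] at h
    simp only [rep]
    rcases h with h | h
    · have : (1 : ℝ) ≤ v.count c := by exact_mod_cast List.count_pos_iff.mpr h
      linarith [rep_nonneg v]
    · have := ih h
      have : (0 : ℝ) ≤ v.count c := by positivity
      linarith

lemma SW_count (B : C → Matrix V V ℝ) (m : ℕ) (c : C) :
    SW B (m + 1) (fun v => (v.count c : ℝ)) =
      B c * (∑ c, B c) ^ m + (∑ c, B c) * SW B m (fun v => (v.count c : ℝ)) := by
  rw [SW_succ]
  have : ∀ c', SW B m (fun v => ((c' :: v).count c : ℝ)) =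
      (if c' = c then (1 : ℝ) else 0) • (∑ c, B c) ^ m + SW B m (fun v => (v.count c : ℝ)) := by
    intro c'
    rw [← SW_const, ← SW_add]
    congr 1; funext v
    rw [List.count_cons]; by_cases h : c' = c <;> simp [h, add_comm]
  simp only [this, mul_add, sum_add_distrib, ← sum_mul]
  congr 1
  simp [ite_smul]

lemma SW_rep (B : C → Matrix V V ℝ) (m : ℕ) :
    SW B (m + 1) rep = ∑ c, B c * SW B m (fun v => (v.count c : ℝ)) + (∑ c, B c) * SW B m rep := by
  rw [SW_succ]
  simp only [rep, SW_add, mul_add, sum_add_distrib, ← sum_mul]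

lemma count_bound (B : C → Matrix V V ℝ) (R : ℕ) (A : ℝ)
    (hA : ∀ p q, p + q = R → ∑ c, trace (B c * (∑ c, B c) ^ p * B c * (∑ c, B c) ^ q) ≤ A)
    (i m : ℕ) : ∀ p, i + p + m = R + 1 →
      ∑ c, trace ((∑ c, B c) ^ i * B c * (∑ c, B c) ^ p * SW B m (fun v => (v.count c : ℝ)))
        ≤ m * A := by
  induction m with
  | zero => intro p _; simp [SW, words_zero]
  | succ m ih =>
    intro p hp
    have h1 := ih (p + 1) (by omega)
    have h2 := hA p (m + i) (by omega)
    simp only [SW_count, mul_add, trace_add, sum_add_distrib]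
    have e1 : ∀ c, trace ((∑ c, B c) ^ i * B c * (∑ c, B c) ^ p * (B c * (∑ c, B c) ^ m)) =
        trace (B c * (∑ c, B c) ^ p * B c * (∑ c, B c) ^ (m + i)) := by
      intro c
      rw [mul_assoc, mul_assoc, trace_mul_comm, pow_add]; simp only [mul_assoc]
    have e2 : ∀ c, (∑ c, B c) ^ i * B c * (∑ c, B c) ^ p *
        ((∑ c, B c) * SW B m (fun v => (v.count c : ℝ))) =
        (∑ c, B c) ^ i * B c * (∑ c, B c) ^ (p + 1) * SW B m (fun v => (v.count c : ℝ)) := by
      intro c; rw [pow_succ]; simp only [mul_assoc]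
    simp only [e1, e2]
    push_cast; linarith

lemma rep_bound (B : C → Matrix V V ℝ) (R : ℕ) (A : ℝ) (hA0 : 0 ≤ A)
    (hA : ∀ p q, p + q = R → ∑ c, trace (B c * (∑ c, B c) ^ p * B c * (∑ c, B c) ^ q) ≤ A)
    (m : ℕ) : ∀ i, i + m = R + 2 → trace ((∑ c, B c) ^ i * SW B m rep) ≤ m ^ 2 * A := by
  induction m with
  | zero => intro i _; simp [SW, words_zero, rep]
  | succ m ih =>
    intro i hi
    have h1 := ih (i + 1) (by omega)
    have h2 := count_bound B R A hA i m 0 (by omega)
    rw [SW_rep, mul_add, trace_add, Finset.mul_sum, trace_sum, ← mul_assoc, ← pow_succ]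
    simp only [pow_zero, mul_one, mul_assoc] at h2
    have : (0 : ℝ) ≤ m * A := by positivity
    push_cast; nlinarith

end Pool.Agent.MP_5e38ef_lc.TP

end

section

namespace Pool.Agent.MP_5e38ef_lc.TP
open Finset Matrix

set_option linter.unusedSectionVars false

variable {V C : Type} [Fintype V] [DecidableEq V] [Fintype C] [DecidableEq C]

lemma trace_mul_tr (X Y : Matrix V V ℝ) : trace (X * Yᵀ) = ∑ x, ∑ y, X x y * Y x y := by
  simp [trace, mul_apply]

lemma sum_trace_cs (X Y : C → Matrix V V ℝ) :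
    (∑ c, trace (X c * (Y c)ᵀ)) ^ 2 ≤
      (∑ c, trace (X c * (X c)ᵀ)) * ∑ c, trace (Y c * (Y c)ᵀ) := by
  have := sum_mul_sq_le_sq_mul_sq (univ : Finset (C × V × V)) (fun t => X t.1 t.2.1 t.2.2)
    (fun t => Y t.1 t.2.1 t.2.2)
  simp only [Fintype.sum_prod_type] at this
  simp only [trace_mul_tr, ← sq]
  exact this

lemma pow_nonneg' {M : Matrix V V ℝ} (h : ∀ x y, 0 ≤ M x y) (m : ℕ) : ∀ x y, 0 ≤ (M ^ m) x y := by
  induction m with
  | zero => exact one_nonneg'
  | succ m ih => rw [pow_succ]; exact mul_nonneg' ih h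

lemma trace_nonneg' {M : Matrix V V ℝ} (h : ∀ x y, 0 ≤ M x y) : 0 ≤ trace M :=
  sum_nonneg fun x _ => h x x

lemma a_le (B : C → Matrix V V ℝ) (hs : ∀ c, (B c)ᵀ = B c) (M : Matrix V V ℝ) (hM : Mᵀ = M)
    (r p q : ℕ) (hpq : p + q = 2 * r) :
    ∑ c, trace (B c * M ^ p * B c * M ^ q) ≤ ∑ c, trace (B c * B c * M ^ (2 * r)) := by
  set a : ℕ → ℝ := fun p => ∑ c, trace (B c * M ^ p * B c * M ^ (2 * r - p)) with ha
  have hsym : ∀ p ≤ 2 * r, a (2 * r - p) = a p := by
    intro p hp
    refine sum_congr rfl fun c _ => ?_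
    rw [Nat.sub_sub_self hp, mul_assoc (B c * M ^ (2 * r - p)), trace_mul_comm, ← mul_assoc]
  have e0 : ∀ c, trace ((M ^ r * B c) * (M ^ r * B c)ᵀ) = trace (B c * B c * M ^ (2 * r)) := by
    intro c
    rw [transpose_mul, hs, transpose_pow, hM, mul_assoc, trace_mul_comm, two_mul, pow_add]
    simp only [mul_assoc]
  have h0 : 0 ≤ ∑ c, trace (B c * B c * M ^ (2 * r)) := by
    refine sum_nonneg fun c _ => ?_
    rw [← e0, trace_mul_tr]
    exact sum_nonneg fun x _ => sum_nonneg fun y _ => mul_self_nonneg _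
  have hcs : ∀ p ≤ r, a p ^ 2 ≤ (∑ c, trace (B c * B c * M ^ (2 * r))) * a (2 * p) := by
    intro p hp
    obtain ⟨s, rfl⟩ := Nat.exists_eq_add_of_le hp
    have := sum_trace_cs (fun c => M ^ (p + s) * B c) (fun c => M ^ s * B c * M ^ p)
    simp only [e0] at this
    have e1 : ∀ c, trace (M ^ (p + s) * B c * (M ^ s * B c * M ^ p)ᵀ) =
        trace (B c * M ^ p * B c * M ^ (2 * (p + s) - p)) := by
      intro c
      rw [show 2 * (p + s) - p = s + (p + s) by omega, pow_add M s]
      simp only [transpose_mul, hs, transpose_pow, hM]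
      rw [mul_assoc, trace_mul_comm]; simp only [mul_assoc]
    have e2 : ∀ c, trace (M ^ s * B c * M ^ p * (M ^ s * B c * M ^ p)ᵀ) =
        trace (B c * M ^ (2 * p) * B c * M ^ (2 * (p + s) - 2 * p)) := by
      intro c
      rw [show 2 * (p + s) - 2 * p = s + s by omega, pow_add M s, two_mul, pow_add M p]
      simp only [transpose_mul, hs, transpose_pow, hM]
      rw [mul_assoc, mul_assoc, trace_mul_comm]; simp only [mul_assoc]
    simp only [e1, e2] at this
    exact this
  obtain ⟨p0, hp0, hmax⟩ := exists_max_image (range (2 * r + 1)) a ⟨0, by simp⟩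
  have hp0' : p0 ≤ 2 * r := by simpa [Nat.lt_succ_iff] using hp0
  obtain ⟨p1, hp1, e⟩ : ∃ p1 ≤ r, a p1 = a p0 := by
    by_cases h : p0 ≤ r
    · exact ⟨p0, h, rfl⟩
    · exact ⟨2 * r - p0, by omega, hsym p0 hp0'⟩
  have h1 := hcs p1 hp1
  have h2 := hmax (2 * p1) (by simp; omega)
  have h3 := hmax p (by simp; omega)
  have h4 : a p0 ≤ ∑ c, trace (B c * B c * M ^ (2 * r)) := by
    by_contra hlt
    rw [not_le] at hlt
    rw [e] at h1
    nlinarith [mul_le_mul_of_nonneg_left h2 h0]
  have : q = 2 * r - p := by omega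
  subst this
  exact h3.trans h4

lemma triple {α : Type} (W : Finset α) (p : α → ℝ) (hp : ∀ u, 0 ≤ p u) (n : α → α → ℝ)
    (hn : ∀ u v, 0 ≤ n u v) (h : ∀ u ∈ W, ∀ v ∈ W, ∀ w ∈ W, p u ≠ 0 → p v ≠ 0 → p w ≠ 0 →
      1 ≤ n u v + n u w + n v w) :
    (∑ u ∈ W, p u) ^ 2 ≤ 3 * ∑ u ∈ W, ∑ v ∈ W, n u v * (p u * p v) := by
  set Q := ∑ u ∈ W, p u with hQ
  set b := ∑ u ∈ W, ∑ v ∈ W, n u v * (p u * p v) with hb
  have hb0 : 0 ≤ b := sum_nonneg fun u _ => sum_nonneg fun v _ =>
    mul_nonneg (hn _ _) (mul_nonneg (hp _) (hp _))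
  have hQ0 : 0 ≤ Q := sum_nonneg fun u _ => hp u
  have e0 : Q ^ 3 = ∑ u ∈ W, ∑ v ∈ W, ∑ w ∈ W, p u * p v * p w := by
    simp only [← mul_sum, ← sum_mul]; ring
  have e1 : ∑ u ∈ W, ∑ v ∈ W, ∑ w ∈ W, n u v * (p u * p v) * p w = b * Q := by
    simp only [← mul_sum, ← sum_mul, hb, hQ]
  have e2 : ∑ u ∈ W, ∑ v ∈ W, ∑ w ∈ W, n u w * (p u * p w) * p v = b * Q := by
    rw [← e1]; exact sum_congr rfl fun u _ => sum_comm
  have e3 : ∑ u ∈ W, ∑ v ∈ W, ∑ w ∈ W, n v w * (p v * p w) * p u = b * Q := by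
    rw [← e2]; exact sum_comm
  have key : Q ^ 3 ≤ 3 * b * Q := by
    have : 3 * b * Q = b * Q + b * Q + b * Q := by ring
    rw [e0, this]
    nth_rewrite 1 [← e1]; nth_rewrite 1 [← e2]; rw [← e3]
    simp only [← sum_add_distrib]
    refine sum_le_sum fun u hu => sum_le_sum fun v hv => sum_le_sum fun w hw => ?_
    by_cases h1 : p u = 0
    · simp [h1]
    by_cases h2 : p v = 0
    · simp [h2]
    by_cases h3 : p w = 0
    · simp [h3]
    have := h u hu v hv w hw h1 h2 h3
    have h4 : 0 ≤ p u * p v * p w := mul_nonneg (mul_nonneg (hp _) (hp _)) (hp _)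
    nlinarith [mul_le_mul_of_nonneg_left this h4]
  rcases hQ0.eq_or_lt with h0 | h0
  · rw [← h0]; nlinarith
  · exact le_of_mul_le_mul_right (by nlinarith) h0

lemma nodup3 {u v w : List C} (h1 : (u ++ v.reverse).Nodup) (h2 : (u ++ w.reverse).Nodup)
    (h3 : (v ++ w.reverse).Nodup) : (u ++ v ++ w).Nodup := by
  simp only [List.nodup_append, List.nodup_reverse, List.mem_reverse, List.mem_append] at *
  refine ⟨⟨h1.1, h1.2.1, h1.2.2⟩, h2.2.1, ?_⟩
  rintro a (ha | ha) b hb
  · exact h2.2.2 a ha b hb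
  · exact h3.2.2 a ha b hb

lemma step (B : C → Matrix V V ℝ) (hs : ∀ c, (B c)ᵀ = B c) (h0 : ∀ c x y, 0 ≤ B c x y) (η : ℝ)
    (hη : 0 ≤ η) (h2 : ∀ x y, (∑ c, B c * B c) x y ≤ if x = y then η else 0) (r : ℕ)
    (hno : ∀ x x', ∀ u ∈ words C (r + 1), ∀ v ∈ words C (r + 1), ∀ w ∈ words C (r + 1),
      P B u x x' ≠ 0 → P B v x x' ≠ 0 → P B w x x' ≠ 0 → ¬ (u ++ v ++ w).Nodup) :
    trace ((∑ c, B c) ^ (2 * (r + 1))) ≤
      12 * (r + 1) ^ 2 * η * trace ((∑ c, B c) ^ (2 * r)) := by
  set M := ∑ c, B c with hMdef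
  have hM : Mᵀ = M := by simp [hMdef, transpose_sum, hs]
  have hM0 : ∀ x y, 0 ≤ M x y := fun x y => by
    rw [hMdef, Matrix.sum_apply]; exact sum_nonneg fun c _ => h0 c x y
  have hT0 : 0 ≤ trace (M ^ (2 * r)) := trace_nonneg' (pow_nonneg' hM0 _)
  have hA : ∑ c, trace (B c * B c * M ^ (2 * r)) ≤ η * trace (M ^ (2 * r)) := by
    rw [← trace_sum, ← sum_mul, trace, trace, Finset.mul_sum]
    refine sum_le_sum fun x _ => ?_
    simp only [diag_apply, mul_apply (M := ∑ c, B c * B c)]
    calc _ ≤ ∑ y, (if x = y then η else 0) * (M ^ (2 * r)) y x :=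
          sum_le_sum fun y _ => mul_le_mul_of_nonneg_right (h2 x y) (pow_nonneg' hM0 _ _ _)
      _ = _ := by simp
  have hR := rep_bound B (2 * r) (η * trace (M ^ (2 * r))) (by positivity)
    (fun p q hpq => (a_le B hs M hM r p q hpq).trans hA) (2 * (r + 1)) 0 (by omega)
  rw [pow_zero, one_mul] at hR
  have hP : M ^ (r + 1) = ∑ u ∈ words C (r + 1), P B u := by
    have := SW_const B (r + 1) 1
    simpa [SW] using this.symm
  have e1 : trace (M ^ (2 * (r + 1))) = ∑ x, ∑ y, (∑ u ∈ words C (r + 1), P B u x y) ^ 2 := by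
    have : M ^ (2 * (r + 1)) = M ^ (r + 1) * (M ^ (r + 1))ᵀ := by
      rw [transpose_pow, hM, two_mul, pow_add]
    rw [this, trace_mul_tr, hP]
    simp only [Matrix.sum_apply, sq]
  have e2 : trace (SW B (2 * (r + 1)) rep) = ∑ x, ∑ y, ∑ u ∈ words C (r + 1),
      ∑ v ∈ words C (r + 1), rep (u ++ v.reverse) * (P B u x y * P B v x y) := by
    rw [SW, two_mul, sum_words_add, trace_sum]
    have : ∀ u, trace (∑ u' ∈ words C (r + 1), rep (u ++ u') • P B (u ++ u')) =
        ∑ x, ∑ y, ∑ v ∈ words C (r + 1), rep (u ++ v.reverse) * (P B u x y * P B v x y) := by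
      intro u
      rw [← sum_words_rev, trace_sum]
      simp only [trace_smul, P_append, P_rev hs, trace_mul_tr, smul_eq_mul, Finset.mul_sum]
      rw [sum_comm]; exact sum_congr rfl fun x _ => sum_comm
    simp only [this]
    rw [sum_comm]; exact sum_congr rfl fun x _ => sum_comm
  have e3 : trace (M ^ (2 * (r + 1))) ≤ 3 * trace (SW B (2 * (r + 1)) rep) := by
    rw [e1, e2]
    simp only [Finset.mul_sum (s := univ)]
    refine sum_le_sum fun x _ => sum_le_sum fun y _ => ?_
    refine triple _ (fun u => P B u x y) (fun u => P_nonneg h0 u x y)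
      (fun u v => rep (u ++ v.reverse)) (fun u v => rep_nonneg _) ?_
    intro u hu v hv w hw a b c
    have := hno x y u hu v hv w hw a b c
    have n1 := rep_nonneg (u ++ v.reverse)
    have n2 := rep_nonneg (u ++ w.reverse)
    have n3 := rep_nonneg (v ++ w.reverse)
    by_cases c1 : (u ++ v.reverse).Nodup
    · by_cases c2 : (u ++ w.reverse).Nodup
      · have := one_le_rep fun c3 => this (nodup3 c1 c2 c3)
        linarith
      · linarith [one_le_rep c2]
    · linarith [one_le_rep c1]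
  push_cast at hR
  nlinarith

theorem matrix_theta (B : C → Matrix V V ℝ) (hs : ∀ c, (B c)ᵀ = B c) (h0 : ∀ c x y, 0 ≤ B c x y)
    (η : ℝ) (hη : 0 ≤ η) (h2 : ∀ x y, (∑ c, B c * B c) x y ≤ if x = y then η else 0)
    (s : V → ℝ) (hs0 : s ≠ 0) (hev : (∑ c, B c) *ᵥ s = s) (K : ℕ)
    (hK : Fintype.card V * (12 * K ^ 2 * η) ^ K < 1) :
    ∃ r < K, ∃ x x', ∃ u ∈ words C (r + 1), ∃ v ∈ words C (r + 1), ∃ w ∈ words C (r + 1),
      P B u x x' ≠ 0 ∧ P B v x x' ≠ 0 ∧ P B w x x' ≠ 0 ∧ (u ++ v ++ w).Nodup := by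
  by_contra hno
  push Not at hno
  set M := ∑ c, B c with hMdef
  have hM : Mᵀ = M := by simp [hMdef, transpose_sum, hs]
  have up : ∀ j ≤ K, trace (M ^ (2 * j)) ≤ Fintype.card V * (12 * K ^ 2 * η) ^ j := by
    intro j
    induction j with
    | zero => intro _; simp
    | succ j ih =>
      intro hj
      have h1 := step B hs h0 η hη h2 j (hno j hj)
      have h3 := ih (by omega)
      have h4 : ((j : ℝ) + 1) ≤ K := by exact_mod_cast hj
      calc _ ≤ 12 * ((j : ℝ) + 1) ^ 2 * η * (Fintype.card V * (12 * K ^ 2 * η) ^ j) :=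
            h1.trans (mul_le_mul_of_nonneg_left h3 (by positivity))
        _ ≤ 12 * (K : ℝ) ^ 2 * η * (Fintype.card V * (12 * K ^ 2 * η) ^ j) := by gcongr
        _ = _ := by ring
  have hev' : ∀ j, M ^ j *ᵥ s = s := by
    intro j
    induction j with
    | zero => simp
    | succ j ih => rw [pow_succ, ← mulVec_mulVec, hev, ih]
  have hpos : 0 < ∑ x, s x ^ 2 := by
    obtain ⟨x, hx⟩ := Function.ne_iff.mp hs0
    exact sum_pos' (fun x _ => sq_nonneg _) ⟨x, mem_univ _, by have : s x ≠ 0 := hx; positivity⟩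
  have low : ∑ x, s x ^ 2 ≤ trace (M ^ (2 * K)) * ∑ x, s x ^ 2 := by
    have : M ^ (2 * K) = M ^ K * (M ^ K)ᵀ := by rw [transpose_pow, hM, two_mul, pow_add]
    rw [this, trace_mul_tr, sum_mul]
    refine sum_le_sum fun x _ => ?_
    have h5 := congrFun (hev' K) x
    rw [← h5]
    simp only [← sq]
    exact sum_mul_sq_le_sq_mul_sq univ (fun y => (M ^ K) x y) s
  have := up K le_rfl
  nlinarith

end Pool.Agent.MP_5e38ef_lc.TP

end

section

namespace Pool.Agent.MP_5e38ef_lc.TP
open Finset Matrix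

set_option linter.unusedSectionVars false

variable {E V C : Type} [DecidableEq E] [Fintype V] [DecidableEq V] [Fintype C] [DecidableEq C]

/-- Normalised adjacency matrix of the darts of colour `c`. -/
noncomputable def BB (D : Finset E) (src : E → V) (rev : E → E) (col : E → C) (w : V → ℝ)
    (c : C) : Matrix V V ℝ :=
  fun x y => ∑ e ∈ D, if col e = c ∧ src e = x ∧ src (rev e) = y then w x * w y else 0

lemma BB_key (D : Finset E) (src : E → V) (rev : E → E) (col : E → C) (w : V → ℝ)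
    (g : C → V → ℝ) (x : V) :
    ∑ c, ∑ z, BB D src rev col w c x z * g c z =
      ∑ e ∈ D.filter (fun e => src e = x), w x * w (src (rev e)) * g (col e) (src (rev e)) := by
  simp only [BB, sum_mul]
  rw [sum_filter, sum_congr rfl fun c _ => sum_comm, sum_comm]
  refine sum_congr rfl fun e _ => ?_
  rw [sum_eq_single (col e) (by intro c _ hc; simp [hc.symm]) (by simp),
    sum_eq_single (src (rev e)) (by intro z _ hz; simp [hz.symm]) (by simp)]
  by_cases h : src e = x <;> simp [h]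

lemma BB_ne {D : Finset E} {src : E → V} {rev : E → E} {col : E → C} {w : V → ℝ} {c : C}
    {x y : V} (h : BB D src rev col w c x y ≠ 0) :
    ∃ e ∈ D, col e = c ∧ src e = x ∧ src (rev e) = y := by
  obtain ⟨e, he, h⟩ := exists_ne_zero_of_sum_ne_zero h
  exact ⟨e, he, by by_contra h'; exact h (if_neg h')⟩

lemma walk {D : Finset E} {src : E → V} {rev : E → E} {col : E → C} {w : V → ℝ} (x' : V)
    (u : List C) : ∀ x, P (BB D src rev col w) u x x' ≠ 0 →
      ∃ l : List E, (∀ e ∈ l, e ∈ D) ∧ l.map col = u ∧ ∃ I : Finset V, I.card ≤ u.length ∧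
        x ∈ insert x' I ∧ ∀ e ∈ l, src e ∈ insert x' I ∧ src (rev e) ∈ insert x' I := by
  induction u with
  | nil =>
    intro x h
    have : x = x' := by
      by_contra h'; exact h (by simp [P, one_apply_ne h'])
    exact ⟨[], by simp, rfl, ∅, by simp, by simp [this], by simp⟩
  | cons c u ih =>
    intro x h
    rw [P_cons, mul_apply] at h
    obtain ⟨y, _, h⟩ := exists_ne_zero_of_sum_ne_zero h
    obtain ⟨e, he, h1, h2, h3⟩ := BB_ne (left_ne_zero_of_mul h)
    obtain ⟨l, hl, hc, I, hI, hy, hI'⟩ := ih y (right_ne_zero_of_mul h)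
    have hsub : insert x' I ⊆ insert x' (insert x I) := insert_subset_insert _ (subset_insert _ _)
    refine ⟨e :: l, by simpa [he] using hl, by simp [h1, hc], insert x I,
      (card_insert_le _ _).trans (by simpa using hI), by simp, ?_⟩
    intro f hf
    rcases List.mem_cons.mp hf with rfl | hf
    · exact ⟨by simp [h2], h3 ▸ hsub hy⟩
    · exact ⟨hsub (hI' f hf).1, hsub (hI' f hf).2⟩

lemma walk' {D : Finset E} {src : E → V} {rev : E → E} {col : E → C} {w : V → ℝ} {x x' : V}
    {r : ℕ} {u : List C} (hu : u ∈ words C (r + 1)) (h : P (BB D src rev col w) u x x' ≠ 0) :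
    ∃ l : List E, (∀ e ∈ l, e ∈ D) ∧ l.map col = u ∧ ∃ I : Finset V, I.card ≤ r ∧
      ∀ e ∈ l, src e ∈ insert x (insert x' I) ∧ src (rev e) ∈ insert x (insert x' I) := by
  obtain ⟨c, u, rfl⟩ := List.exists_cons_of_length_eq_add_one (mem_words.mp hu)
  have hr : u.length = r := by simpa using mem_words.mp hu
  rw [P_cons, mul_apply] at h
  obtain ⟨y, _, h⟩ := exists_ne_zero_of_sum_ne_zero h
  obtain ⟨e, he, h1, h2, h3⟩ := BB_ne (left_ne_zero_of_mul h)
  obtain ⟨l, hl, hc, I, hI, hy, hI'⟩ := walk x' u y (right_ne_zero_of_mul h)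
  refine ⟨e :: l, by simpa [he] using hl, by simp [h1, hc], I, hr ▸ hI, ?_⟩
  intro f hf
  rcases List.mem_cons.mp hf with rfl | hf
  · exact ⟨by simp [h2], h3 ▸ mem_insert_of_mem hy⟩
  · exact ⟨mem_insert_of_mem (hI' f hf).1, mem_insert_of_mem (hI' f hf).2⟩

theorem dart_theta (D : Finset E) (hD : D.Nonempty) (src : E → V) (rev : E → E) (col : E → C)
    (hrev : ∀ e, rev (rev e) = e) (hrD : ∀ e ∈ D, rev e ∈ D) (hcol : ∀ e, col (rev e) = col e)
    (hprop : ∀ e ∈ D, ∀ e' ∈ D, src e = src e' → col e = col e' → e = e') (d K : ℕ) (hd : 0 < d)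
    (hdeg : ∀ e ∈ D, d ≤ (D.filter (fun f => src f = src e)).card)
    (hK : Fintype.card V * (12 * K ^ 2) ^ K < d ^ K) :
    ∃ l : List E, (∀ e ∈ l, e ∈ D) ∧ (l.map col).Nodup ∧ l.length ≤ 3 * K ∧
      ∃ T : Finset V, T.card < l.length ∧ ∀ e ∈ l, src e ∈ T ∧ src (rev e) ∈ T := by
  set deg : V → ℝ := fun x => ((D.filter (fun f => src f = x)).card : ℝ) with hdegdef
  set w : V → ℝ := fun x => (√(deg x))⁻¹ with hw
  have hd' : (0 : ℝ) < d := by exact_mod_cast hd
  have hdeg0 : ∀ x, 0 ≤ deg x := fun x => Nat.cast_nonneg _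
  have hdeg' : ∀ e ∈ D, (d : ℝ) ≤ deg (src e) := fun e he => Nat.cast_le.mpr (hdeg e he)
  have hw0 : ∀ x, 0 ≤ w x := fun x => inv_nonneg.mpr (Real.sqrt_nonneg _)
  have hww : ∀ x, w x * w x = (deg x)⁻¹ := fun x => by
    rw [hw]; simp only; rw [← mul_inv, Real.mul_self_sqrt (hdeg0 x)]
  have hs : ∀ c, (BB D src rev col w c)ᵀ = BB D src rev col w c := by
    intro c; ext x y
    simp only [transpose_apply, BB]
    refine sum_nbij' rev rev hrD hrD (fun e _ => hrev e) (fun e _ => hrev e) fun e _ => ?_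
    simp only [hrev, hcol, mul_comm (w y), and_comm (a := src e = y)]
  have h0 : ∀ c x y, 0 ≤ BB D src rev col w c x y := fun c x y =>
    sum_nonneg fun e _ => by split_ifs; exacts [mul_nonneg (hw0 _) (hw0 _), le_rfl]
  have hval : ∀ e ∈ D, ∀ y, BB D src rev col w (col e) (src (rev e)) y =
      if src e = y then w (src (rev e)) * w y else 0 := by
    intro e he y
    rw [BB, sum_eq_single (rev e) _ (fun h => absurd (hrD e he) h)]
    · simp [hrev, hcol]
    · intro f hf hne
      exact if_neg fun h => hne (hprop f hf _ (hrD e he) h.2.1 (h.1.trans (hcol e).symm))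
  have h2 : ∀ x y, (∑ c, BB D src rev col w c * BB D src rev col w c) x y ≤
      if x = y then (d : ℝ)⁻¹ else 0 := by
    intro x y
    simp only [Matrix.sum_apply, mul_apply]
    rw [BB_key D src rev col w (fun c z => BB D src rev col w c z y)]
    split_ifs with hxy
    · subst hxy
      calc _ ≤ ∑ e ∈ D.filter (fun e => src e = x), (deg x)⁻¹ * (d : ℝ)⁻¹ := by
            refine sum_le_sum fun e he => ?_
            obtain ⟨he, hx⟩ := mem_filter.mp he
            rw [hval e he, if_pos hx]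
            have : w x * w (src (rev e)) * (w (src (rev e)) * w x) =
              (deg x)⁻¹ * (deg (src (rev e)))⁻¹ := by rw [← hww, ← hww]; ring
            rw [this]
            exact mul_le_mul_of_nonneg_left (inv_anti₀ hd' (hdeg' _ (hrD e he)))
              (inv_nonneg.mpr (hdeg0 x))
        _ = deg x * (deg x)⁻¹ * (d : ℝ)⁻¹ := by rw [sum_const, nsmul_eq_mul, mul_assoc]
        _ ≤ 1 * (d : ℝ)⁻¹ := mul_le_mul_of_nonneg_right mul_inv_le_one (by positivity)
        _ = _ := one_mul _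
    · refine (sum_eq_zero fun e he => ?_).le
      obtain ⟨he, hx⟩ := mem_filter.mp he
      rw [hval e he, if_neg (hx ▸ hxy), mul_zero]
  have hev : (∑ c, BB D src rev col w c) *ᵥ (fun x => √(deg x)) = fun x => √(deg x) := by
    funext x
    simp only [mulVec, dotProduct, Matrix.sum_apply, sum_mul]
    rw [sum_comm, BB_key D src rev col w (fun _ z => √(deg z))]
    calc _ = ∑ e ∈ D.filter (fun e => src e = x), w x := by
          refine sum_congr rfl fun e he => ?_
          have : 0 < √(deg (src (rev e))) :=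
            Real.sqrt_pos.mpr (hd'.trans_le (hdeg' _ (hrD e (mem_filter.mp he).1)))
          rw [mul_assoc, hw]; simp only; rw [inv_mul_cancel₀ this.ne', mul_one]
      _ = deg x * w x := by rw [sum_const, nsmul_eq_mul]
      _ = _ := by rw [hw]; simp only; rw [← div_eq_mul_inv, Real.div_sqrt]
  have hs0 : (fun x => √(deg x)) ≠ 0 := by
    obtain ⟨e, he⟩ := hD
    intro h
    exact (Real.sqrt_pos.mpr (hd'.trans_le (hdeg' e he))).ne' (congrFun h (src e))
  have hK' : Fintype.card V * (12 * (K : ℝ) ^ 2 * (d : ℝ)⁻¹) ^ K < 1 := by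
    rw [mul_pow, inv_pow, ← mul_assoc, ← div_eq_mul_inv, div_lt_one (by positivity)]
    exact_mod_cast hK
  obtain ⟨r, hr, x, x', u, hu, v, hv, t, ht, a1, a2, a3, hnd⟩ :=
    matrix_theta _ hs h0 _ (by positivity) h2 _ hs0 hev K hK'
  obtain ⟨l1, b1, c1, I1, d1, e1⟩ := walk' hu a1
  obtain ⟨l2, b2, c2, I2, d2, e2⟩ := walk' hv a2
  obtain ⟨l3, b3, c3, I3, d3, e3⟩ := walk' ht a3
  have len : (l1 ++ l2 ++ l3).length = 3 * (r + 1) := by
    have f1 := mem_words.mp hu
    have f2 := mem_words.mp hv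
    have f3 := mem_words.mp ht
    rw [← c1, List.length_map] at f1
    rw [← c2, List.length_map] at f2
    rw [← c3, List.length_map] at f3
    simp only [List.length_append]; omega
  refine ⟨l1 ++ l2 ++ l3, ?_, by simpa [c1, c2, c3] using hnd, by omega,
    insert x (insert x' (I1 ∪ I2 ∪ I3)), ?_, ?_⟩
  · intro e he
    simp only [List.mem_append] at he
    rcases he with (he | he) | he
    exacts [b1 e he, b2 e he, b3 e he]
  · have := card_insert_le x (insert x' (I1 ∪ I2 ∪ I3))
    have := card_insert_le x' (I1 ∪ I2 ∪ I3)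
    have := card_union_le (I1 ∪ I2) I3
    have := card_union_le I1 I2
    omega
  · intro e he
    have sub : ∀ I ⊆ I1 ∪ I2 ∪ I3, insert x (insert x' I) ⊆ insert x (insert x' (I1 ∪ I2 ∪ I3)) :=
      fun I h => insert_subset_insert _ (insert_subset_insert _ h)
    simp only [List.mem_append] at he
    rcases he with (he | he) | he
    · have := sub I1 (subset_union_left.trans subset_union_left)
      exact ⟨this (e1 e he).1, this (e1 e he).2⟩
    · have := sub I2 (subset_union_right.trans subset_union_left)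
      exact ⟨this (e2 e he).1, this (e2 e he).2⟩
    · have := sub I3 subset_union_right
      exact ⟨this (e3 e he).1, this (e3 e he).2⟩

lemma drop_fibre {Λ X : Type} [DecidableEq Λ] [DecidableEq X] (a : Λ → X) (L : Finset Λ) {l : Λ}
    (hl : l ∈ L) : ((L.filter (fun m => ¬ a m = a l)).image a).card + 1 ≤ (L.image a).card := by
  refine card_lt_card ⟨image_subset_image (filter_subset _ _), fun h => ?_⟩
  obtain ⟨m, hm, e⟩ := mem_image.mp (h (mem_image_of_mem a hl))
  exact (mem_filter.mp hm).2 e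

lemma min_degree {Λ X : Type} [DecidableEq Λ] [DecidableEq X] (a b : Λ → X) (d : ℕ) (N : ℕ) :
    ∀ L : Finset Λ, L.card ≤ N → L.Nonempty →
      d * ((L.image a).card + (L.image b).card) ≤ L.card →
      ∃ L' ⊆ L, L'.Nonempty ∧ ∀ l ∈ L', d ≤ (L'.filter (fun m => a m = a l)).card ∧
        d ≤ (L'.filter (fun m => b m = b l)).card := by
  induction N with
  | zero => intro L h hL; exact absurd (card_pos.mpr hL) (by omega)
  | succ N ih =>
    intro L hN hL hden
    by_cases h : ∀ l ∈ L, d ≤ (L.filter (fun m => a m = a l)).card ∧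
        d ≤ (L.filter (fun m => b m = b l)).card
    · exact ⟨L, Subset.rfl, hL, h⟩
    have main : ∀ (f : Λ → X) (l : Λ), l ∈ L → (L.filter (fun m => f m = f l)).card < d →
        ((L.filter (fun m => ¬ f m = f l)).image a).card +
          ((L.filter (fun m => ¬ f m = f l)).image b).card + 1 ≤
          (L.image a).card + (L.image b).card →
        ∃ L' ⊆ L, L'.Nonempty ∧ ∀ l ∈ L', d ≤ (L'.filter (fun m => a m = a l)).card ∧
          d ≤ (L'.filter (fun m => b m = b l)).card := by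
      intro f l hl h1 h2
      have h3 := card_filter_add_card_filter_not (s := L) (fun m => f m = f l)
      have h4 : 0 < (L.filter (fun m => f m = f l)).card := card_pos.mpr ⟨l, by simp [hl]⟩
      have h5 := Nat.mul_le_mul_left d h2
      rw [mul_add d _ 1] at h5
      obtain ⟨L', s1, s2⟩ := ih (L.filter (fun m => ¬ f m = f l)) (by omega)
        (card_pos.mp (by omega)) (by omega)
      exact ⟨L', s1.trans (filter_subset _ _), s2⟩
    push Not at h
    obtain ⟨l, hl, h⟩ := h
    by_cases ha : d ≤ (L.filter (fun m => a m = a l)).card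
    · refine main b l hl (h ha) ?_
      have := drop_fibre b L hl
      have := card_le_card (image_subset_image (f := a) (filter_subset (fun m => ¬ b m = b l) L))
      omega
    · refine main a l hl (not_le.mp ha) ?_
      have := drop_fibre a L hl
      have := card_le_card (image_subset_image (f := b) (filter_subset (fun m => ¬ a m = a l) L))
      omega

theorem theta {Λ C : Type} [Fintype Λ] [DecidableEq Λ] [Fintype C] [DecidableEq C]
    (a b : Λ → Λ) (col : Λ → C) (L : Finset Λ) (hL : L.Nonempty) (d K : ℕ) (hd : 0 < d)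
    (ha : ∀ l ∈ L, ∀ l' ∈ L, a l = a l' → col l = col l' → l = l')
    (hb : ∀ l ∈ L, ∀ l' ∈ L, b l = b l' → col l = col l' → l = l')
    (hden : d * ((L.image a).card + (L.image b).card) ≤ L.card)
    (hK : 2 * Fintype.card Λ * (12 * K ^ 2) ^ K < d ^ K) :
    ∃ F ⊆ L, (∀ l ∈ F, ∀ l' ∈ F, col l = col l' → l = l') ∧ F.card ≤ 3 * K ∧
      (F.image a).card + (F.image b).card < F.card := by
  obtain ⟨L', hsub, ⟨l0, hl0⟩, hdeg⟩ := min_degree a b d _ L le_rfl hL hden
  obtain ⟨l, h1, h2, h3, T, h4, h5⟩ := dart_theta (E := Λ × Bool) (V := Λ × Bool)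
    (L' ×ˢ univ) ⟨(l0, true), by simp [hl0]⟩ (fun e => (if e.2 then b e.1 else a e.1, e.2))
    (fun e => (e.1, !e.2)) (fun e => col e.1) (by simp) (by simp) (by simp) (by
      rintro ⟨m, s⟩ hm ⟨m', s'⟩ hm' h hc
      obtain ⟨h, rfl⟩ : _ ∧ s = s' := Prod.mk.inj h
      have hm := hsub (mem_product.mp hm).1
      have hm' := hsub (mem_product.mp hm').1
      cases s
      · rw [ha m hm m' hm' (by simpa using h) hc]
      · rw [hb m hm m' hm' (by simpa using h) hc]) d K hd (by
      rintro ⟨m, s⟩ hm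
      have hm2 := hdeg m (mem_product.mp hm).1
      cases s
      · refine hm2.1.trans (card_le_card_of_injOn (fun t => (t, false)) ?_ ?_)
        · intro t ht; simpa using ht
        · intro t _ t' _ h; exact (Prod.mk.inj h).1
      · refine hm2.2.trans (card_le_card_of_injOn (fun t => (t, true)) ?_ ?_)
        · intro t ht; simpa using ht
        · intro t _ t' _ h; exact (Prod.mk.inj h).1) (by simpa [mul_comm] using hK)
  have h2' : ((l.map Prod.fst).map col).Nodup := by simpa [Function.comp_def] using h2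
  have hc : (l.map Prod.fst).toFinset.card = l.length := by
    rw [List.toFinset_card_of_nodup h2'.of_map, List.length_map]
  refine ⟨(l.map Prod.fst).toFinset, ?_, ?_, hc ▸ h3, ?_⟩
  · intro m hm
    obtain ⟨e, he, rfl⟩ := List.mem_map.mp (List.mem_toFinset.mp hm)
    exact hsub (mem_product.mp (h1 e he)).1
  · intro m hm m' hm' h
    exact List.inj_on_of_nodup_map h2' (List.mem_toFinset.mp hm) (List.mem_toFinset.mp hm') h
  · rw [hc]
    refine lt_of_le_of_lt ?_ h4
    have hT : ∀ m ∈ (l.map Prod.fst).toFinset, (a m, false) ∈ T ∧ (b m, true) ∈ T := by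
      intro m hm
      obtain ⟨⟨m, s⟩, he, rfl⟩ := List.mem_map.mp (List.mem_toFinset.mp hm)
      have := h5 _ he
      cases s
      · simpa using this
      · simpa using this.symm
    rw [← card_filter_add_card_filter_not (s := T) (fun t => t.2 = false)]
    refine Nat.add_le_add (card_le_card_of_injOn (fun t => (t, false)) ?_ ?_)
      (card_le_card_of_injOn (fun t => (t, true)) ?_ ?_)
    · intro t ht
      obtain ⟨m, hm, rfl⟩ := mem_image.mp (mem_coe.mp ht)
      simpa using (hT m hm).1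
    · intro t _ t' _ h; exact (Prod.mk.inj h).1
    · intro t ht
      obtain ⟨m, hm, rfl⟩ := mem_image.mp (mem_coe.mp ht)
      simpa using (hT m hm).2
    · intro t _ t' _ h; exact (Prod.mk.inj h).1

end Pool.Agent.MP_5e38ef_lc.TP

end

section

namespace Pool.Agent.MP_5e38ef_lc.SP
open Finset

/-- Colour-disjoint gadgets, one after the other. -/
theorem extract {Λ C : Type} [DecidableEq Λ] [DecidableEq C] (L : Finset Λ) (a b : Λ → Λ)
    (col : Λ → C) (K D N : ℕ) (hcol : ∀ c, (L.filter (fun l => col l = c)).card ≤ D)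
    (hθ : ∀ E ⊆ L, N ≤ E.card → ∃ F ⊆ E, (∀ l ∈ F, ∀ l' ∈ F, col l = col l' → l = l') ∧
      F.card ≤ K ∧ (F.image a).card + (F.image b).card < F.card) (r : ℕ)
    (hN : N + K * r * D ≤ L.card) :
    ∃ F ⊆ L, (∀ l ∈ F, ∀ l' ∈ F, col l = col l' → l = l') ∧ F.card ≤ K * r ∧
      (F.image a).card + (F.image b).card + r ≤ F.card := by
  induction r with
  | zero => exact ⟨∅, empty_subset _, by simp, by simp, by simp⟩
  | succ r ih =>
    have h0 : K * r * D ≤ K * (r + 1) * D :=
      Nat.mul_le_mul_right _ (Nat.mul_le_mul_left _ (Nat.le_succ r))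
    obtain ⟨F, hF, f1, f2, f3⟩ := ih (by omega)
    have h1 : (L.filter (fun l => col l ∈ F.image col)).card ≤ K * r * D := by
      have e : L.filter (fun l => col l ∈ F.image col) ⊆
          (F.image col).biUnion (fun c => L.filter (fun l => col l = c)) := by
        intro l hl
        obtain ⟨h1, h2⟩ := mem_filter.1 hl
        exact mem_biUnion.2 ⟨col l, h2, mem_filter.2 ⟨h1, rfl⟩⟩
      refine (card_le_card e).trans (card_biUnion_le.trans ?_)
      refine (sum_le_card_nsmul _ _ D fun c _ => hcol c).trans ?_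
      rw [smul_eq_mul]
      exact Nat.mul_le_mul_right _ (card_image_le.trans f2)
    have h2 := card_filter_add_card_filter_not (s := L) (fun l => col l ∈ F.image col)
    obtain ⟨F', hF', g1, g2, g3⟩ := hθ (L.filter (fun l => ¬ col l ∈ F.image col))
      (filter_subset _ _) (by omega)
    have hne : ∀ l ∈ F, ∀ l' ∈ F', col l ≠ col l' := fun l hl l' hl' e =>
      (mem_filter.1 (hF' hl')).2 (e ▸ mem_image_of_mem _ hl)
    have hd : Disjoint F F' := disjoint_left.2 fun l hl hl' => hne l hl l hl' rfl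
    refine ⟨F ∪ F', union_subset hF (hF'.trans (filter_subset _ _)), ?_, ?_, ?_⟩
    · intro l hl l' hl' e
      rcases mem_union.1 hl with hl | hl <;> rcases mem_union.1 hl' with hl' | hl'
      · exact f1 l hl l' hl' e
      · exact absurd e (hne l hl l' hl')
      · exact absurd e.symm (hne l' hl' l hl)
      · exact g1 l hl l' hl' e
    · rw [card_union_of_disjoint hd, Nat.mul_succ]
      omega
    · rw [card_union_of_disjoint hd, image_union, image_union]
      have := card_union_le (F.image a) (F'.image a)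
      have := card_union_le (F.image b) (F'.image b)
      omega

/-- Many colour-disjoint rainbow thetas in a dense properly coloured bipartite multigraph. -/
theorem thetas {Λ C : Type} [Fintype Λ] [DecidableEq Λ] [Fintype C] [DecidableEq C]
    (a b : Λ → Λ) (col : Λ → C) (L : Finset Λ) (hL : L.Nonempty) (d K D r : ℕ) (hd : 0 < d)
    (ha : ∀ l ∈ L, ∀ l' ∈ L, a l = a l' → col l = col l' → l = l')
    (hb : ∀ l ∈ L, ∀ l' ∈ L, b l = b l' → col l = col l' → l = l')
    (hden : 2 * (d * ((L.image a).card + (L.image b).card)) ≤ L.card)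
    (hK : 2 * Fintype.card Λ * (12 * K ^ 2) ^ K < d ^ K)
    (hcol : ∀ c, (L.filter (fun l => col l = c)).card ≤ D) (hr : 2 * (3 * K * r * D) ≤ L.card) :
    ∃ F ⊆ L, (∀ l ∈ F, ∀ l' ∈ F, col l = col l' → l = l') ∧ F.card ≤ 3 * K * r ∧
      (F.image a).card + (F.image b).card + r ≤ F.card := by
  have hpos := card_pos.2 hL
  refine extract L a b col (3 * K) D (L.card - L.card / 2) hcol ?_ r (by omega)
  intro E hE hc
  refine TP.theta a b col E (card_pos.1 (by omega)) d K hd
    (fun l hl l' hl' => ha l (hE hl) l' (hE hl')) (fun l hl l' hl' => hb l (hE hl) l' (hE hl'))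
    ?_ hK
  have h1 := card_le_card (image_subset_image (f := a) hE)
  have h2 := card_le_card (image_subset_image (f := b) hE)
  have h3 := Nat.mul_le_mul_left d (Nat.add_le_add h1 h2)
  omega

end Pool.Agent.MP_5e38ef_lc.SP

end

section

namespace Pool.Agent.MP_5e38ef_lc.SP
open Finset TP

/-- From the non-steering lemma and a numerical condition to a small exceptional set. -/
lemma ns_small {k n U : ℕ} {T : Type} [DecidableEq T] (Z : Finset ℤ) (cls : ℤ → T)
    (B D D' E r H : ℕ) (hB : ∀ c, (piece Z cls c).card ≤ B)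
    (h : H * (k ^ 2 * n.choose r * (n ^ (k - 1) * D * B) ^ r)
      ≤ ((D' + 1) * (E + 1) * (U + 1)) ^ r) :
    H * (univ.filter (fun A : Fin k × Fin n → Fin (U + 1) =>
        k ^ 2 * (r * (1 + k * D) + n * E) < (bad A Z cls D D').card)).card
      ≤ Fintype.card (Fin k × Fin n → Fin (U + 1)) := by
  have h1 := ns (k := k) (n := n) (U := U) Z cls B D D' E r hB
  refine Nat.le_of_mul_le_mul_left ?_
    (show 0 < ((D' + 1) * (E + 1) * (U + 1)) ^ r by positivity)
  rw [mul_left_comm]
  refine (Nat.mul_le_mul_left H h1).trans ?_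
  rw [← mul_assoc]
  exact Nat.mul_le_mul_right _ h

open Classical in
/-- A database outside all exceptional sets. -/
lemma typical {k n U S W T ρ P Q : ℕ} (B D G E r : ℕ → ℕ)
    (pre : (Fin k × Fin n → Fin (U + 1)) → Fin S → Fin W)
    (addr : ℤ → List (Fin W) → Fin S) (out : ℤ → List (Fin W) → Bool)
    (hyes : ∀ A, ∀ z ∈ Icc (0 : ℤ) (k * U),
      (out z (reads (addr z) (pre A) (T + 2)) = true ↔ ∃ l, z = zs A l))
    (p1 : S ≤ P * ρ) (p2 : k * U + 1 ≤ B 0) (p3 : ∀ s < T, B s ≤ P * B (s + 1))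
    (p4 : ∀ s ≤ T, 0 < B (s + 1)) (p6 : n ^ (k - 1) ≤ D 0) (p8 : G 0 ≤ n ^ k)
    (p9 : ∀ s < T, 0 < G (s + 1))
    (p10 : ∀ s < T, 2 * P * G (s + 1) + k ^ 2 * (r s * (1 + k * D s) + n * E s) ≤ G s)
    (p12 : ∀ s ≤ T, (T + 3) * (2 * P * W ^ ρ) ^ s *
        (k ^ 2 * n.choose (r s) * (n ^ (k - 1) * D s * B (s + 1)) ^ r s)
      ≤ ((D (s + 1) + 1) * (E s + 1) * (U + 1)) ^ r s) (e : ℕ)
    (p19 : ∀ v ≤ Q, (T + 3) * (Q + 1) *
        (k * (n ^ k) ^ (v + e) * (S * W) ^ v * (n ^ k) ^ (v + e)) ≤ (U + 1) ^ (v + e)) :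
    ∃ (A : Fin k × Fin n → Fin (U + 1)) (Z : Finset ℤ) (seen : ℤ → List (Fin W))
      (cls : ℤ → ℤ ⊕ Fin S) (R : Finset (Fin S)), R.card ≤ T * ρ ∧
      (∀ z ∈ Z, reads (addr z) (pre A) T = seen z ∧ inside (addr z) (pre A) T R) ∧
      G T ≤ (good A Z (D T)).card ∧
      (∀ z ∈ Z, ∀ z' ∈ Z, cls z = cls z' → addr z (seen z) = addr z' (seen z')) ∧
      B (T + 1) * (Z.image cls).card ≤ B (T + 1) * S + B T ∧
      (bad A Z cls (D T) (D (T + 1))).card ≤ k ^ 2 * (r T * (1 + k * D T) + n * E T) ∧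
      ∀ v ≤ Q, ¬ ∃ i0 : Fin k, ∃ F : Finset (Fin k → Fin n), F.card = v + e ∧
          (∀ l ∈ F, ∀ l' ∈ F, l i0 = l' i0 → l = l') ∧ ∃ R : Finset (Fin S), R.card = v ∧
          ∀ l ∈ F, inside (addr (zs A l)) (pre A) (T + 2) R := by
  set Ω := Fintype.card (Fin k × Fin n → Fin (U + 1)) with hΩ
  have hΩ0 : 0 < Ω := Fintype.card_pos
  obtain ⟨𝒮, s1, s2, X, x1, x2⟩ := levels pre addr p1 B D G (T + 3) T p2 p3
    (fun s hs => p4 s hs.le) p6 p8 p9 (by
      intro s hs Z cls hc
      refine le_trans (Nat.mul_le_mul_left _ (card_le_card ?_))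
        (ns_small Z cls (B (s + 1)) (D s) (D (s + 1)) (E s) (r s) _ hc (p12 s hs.le))
      intro A hA
      have h1 := (mem_filter.1 hA).2
      have h2 := p10 s hs
      exact mem_filter.2 ⟨mem_univ _, by omega⟩)
  choose cls c1 c2 c3 using fun σ : Finset ℤ × (ℤ → List (Fin W)) =>
    classesZ σ.1 (B (T + 1)) (p4 T le_rfl) (fun z => addr z (σ.2 z))
  have y1 := union_small 𝒮 (fun σ => univ.filter (fun A : Fin k × Fin n → Fin (U + 1) =>
      k ^ 2 * (r T * (1 + k * D T) + n * E T) < (bad A σ.1 (cls σ) (D T) (D (T + 1))).card))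
    _ (T + 3) Ω s1 fun σ _ =>
      ns_small σ.1 (cls σ) (B (T + 1)) (D T) (D (T + 1)) (E T) (r T) _ (c2 σ) (p12 T le_rfl)
  have y2 := union_small (range (Q + 1)) (fun v =>
      univ.filter (fun A : Fin k × Fin n → Fin (U + 1) =>
        ∃ i0 : Fin k, ∃ F : Finset (Fin k → Fin n), F.card = v + e ∧
          (∀ l ∈ F, ∀ l' ∈ F, l i0 = l' i0 → l = l') ∧ ∃ R : Finset (Fin S), R.card = v ∧
          ∀ l ∈ F, inside (addr (zs A l)) (pre A) (T + 2) R))
    (Q + 1) (T + 3) Ω (by simp) (by
      intro v hv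
      have h1 := union_t pre addr out hyes v (v + e)
      refine Nat.le_of_mul_le_mul_left ?_ (show 0 < (U + 1) ^ (v + e) by positivity)
      rw [mul_left_comm]
      refine (Nat.mul_le_mul_left _ h1).trans ?_
      rw [← mul_assoc]
      exact Nat.mul_le_mul_right _ (p19 v (Nat.lt_succ_iff.1 (mem_range.1 hv))))
  set X1 := 𝒮.biUnion (fun σ => univ.filter (fun A : Fin k × Fin n → Fin (U + 1) =>
      k ^ 2 * (r T * (1 + k * D T) + n * E T) < (bad A σ.1 (cls σ) (D T) (D (T + 1))).card))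
    with hX1
  set X2 := (range (Q + 1)).biUnion (fun v =>
      univ.filter (fun A : Fin k × Fin n → Fin (U + 1) =>
        ∃ i0 : Fin k, ∃ F : Finset (Fin k → Fin n), F.card = v + e ∧
          (∀ l ∈ F, ∀ l' ∈ F, l i0 = l' i0 → l = l') ∧ ∃ R : Finset (Fin S), R.card = v ∧
          ∀ l ∈ F, inside (addr (zs A l)) (pre A) (T + 2) R)) with hX2
  have hlt : (X ∪ X1 ∪ X2).card < (univ : Finset (Fin k × Fin n → Fin (U + 1))).card := by
    rw [card_univ, ← hΩ]
    have h1 := (card_union_le (X ∪ X1) X2).trans (Nat.add_le_add_right (card_union_le X X1) _)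
    have h2 := Nat.mul_le_mul_left (T + 3) h1
    refine Nat.lt_of_mul_lt_mul_left (a := T + 3) ?_
    nlinarith
  obtain ⟨A, -, hA⟩ := exists_mem_notMem_of_card_lt_card hlt
  simp only [mem_union, not_or] at hA
  obtain ⟨⟨a1, a2⟩, a3⟩ := hA
  obtain ⟨σ, hσ, R, r1, r2, r3⟩ := x2 A a1
  refine ⟨A, σ.1, σ.2, cls σ, R, r1, r2, r3, c1 σ, (c3 σ).trans (by have := s2 σ hσ; omega),
    ?_, ?_⟩
  · by_contra hc
    exact a2 (mem_biUnion.2 ⟨σ, hσ, mem_filter.2 ⟨mem_univ _, not_le.1 hc⟩⟩)
  · intro v hv hc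
    exact a3 (mem_biUnion.2 ⟨v, mem_range.2 (Nat.lt_succ_iff.2 hv), mem_filter.2 ⟨mem_univ _, hc⟩⟩)

theorem abstract (k n U S w T : ℕ) (hk : 2 ≤ k) (hp : Par k n U S w T) :
    ¬ Solves k n U S w (T + 2) := by
  classical
  rintro ⟨pre0, addr, out, H⟩
  obtain ⟨ρ, P, K, d, N, V, B, D, G, E, r, p1, p2, p3, p4, p5, p6, p7, p8, p9, p10, p11, p12, p13,
    p14, p15, p16, p17, p18, p19⟩ := hp
  set pre : (Fin k × Fin n → Fin (U + 1)) → Fin S → Fin (2 ^ w) :=
    fun A => pre0 (fun a i => ((A (a, i) : ℕ) : ℤ)) with hpre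
  obtain ⟨A, Z, seen, cls, R, r1, r2, r3, c1, c3, hb, hu⟩ := typical B D G E r pre addr out (by
    intro A z hz
    obtain ⟨z0, z1⟩ := mem_Icc.mp hz
    exact H _ (fun a i => ⟨by positivity, by exact_mod_cast Nat.lt_succ_iff.mp (A (a, i)).2⟩)
      z z0 z1) p1 p2 p3 p4 p6 p8 p9 p10 p12 (T * ρ + 1) p19
  rw [p7] at hb
  set L := good A Z (D T) \ bad A Z cls (D T) 0 with hL
  have hLc : N ≤ L.card := by
    have := le_card_sdiff (bad A Z cls (D T) 0) (good A Z (D T))
    rw [← hL] at this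
    omega
  have hLg : ∀ l ∈ L, l ∈ good A Z (D T) := fun l hl => (mem_sdiff.1 hl).1
  have hLZ : ∀ l ∈ L, zs A l ∈ Z := fun l hl => (mem_filter.1 (hLg l hl)).2.1
  have hLp : ∀ l ∈ L, l ∈ good A (piece Z cls (cls (zs A l))) 0 := by
    intro l hl
    by_contra hc
    exact (mem_sdiff.1 hl).2 (mem_filter.2 ⟨hLg l hl, hc⟩)
  set last : (Fin k → Fin n) → Fin S :=
    fun l => addr (zs A l) (reads (addr (zs A l)) (pre A) (T + 1)) with hlast
  obtain ⟨i0, L1, s1, gr, g1, g2, g3, g4⟩ := rainbow_groups (by omega : 0 < k) last (4 * d)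
    (by omega) L
  have hm : N ≤ 2 * k * L1.card := by
    rw [mul_assoc] at p15 ⊢
    omega
  have hN0 : 0 < N := lt_of_lt_of_le (by have : 0 < k := by omega
                                         positivity) p17
  have hL1 : L1.Nonempty := by
    refine card_pos.1 (Nat.pos_of_ne_zero fun h0 => ?_)
    rw [h0] at hm
    omega
  set f : (Fin k → Fin n) → ℤ ⊕ Fin S := fun l => cls (zs A l) with hf
  have : Nonempty (Fin k → Fin n) := ⟨hL1.choose⟩
  set a : (Fin k → Fin n) → (Fin k → Fin n) := fun l => Function.invFunOn f L (f l) with ha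
  have ha1 : ∀ l ∈ L, f (a l) = f l := fun l hl => Function.invFunOn_eq ⟨l, hl, rfl⟩
  have ha0 : ∀ l ∈ L, a l ∈ L := fun l hl => Function.invFunOn_mem ⟨l, hl, rfl⟩
  have ha2 : (L1.image a).card ≤ S + V := by
    have e1 : L1.image a ⊆ (Z.image cls).image (Function.invFunOn f L) := by
      intro x hx
      obtain ⟨l, hl, rfl⟩ := mem_image.mp hx
      exact mem_image_of_mem _ (mem_image_of_mem _ (hLZ l (s1 hl)))
    refine (card_le_card e1).trans (card_image_le.trans
      (Nat.le_of_mul_le_mul_left (c3.trans ?_) (p4 T le_rfl)))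
    rw [mul_add, mul_comm _ V]
    omega
  have hden : 2 * (d * ((L1.image a).card + (L1.image gr).card)) ≤ L1.card := by
    have e1 : 4 * d * (L1.image a).card ≤ L1.card := by
      refine Nat.le_of_mul_le_mul_left ?_ (show 0 < 2 * k by omega)
      calc 2 * k * (4 * d * (L1.image a).card) = 8 * k * d * (L1.image a).card := by ring
        _ ≤ _ := Nat.mul_le_mul_left _ ha2
        _ ≤ _ := p16.trans hm
    rw [mul_assoc] at e1 g3
    rw [mul_add]
    omega
  obtain ⟨F, s2, f1, f2, f3⟩ := thetas a gr (fun l => l i0) L1 hL1 d K (1 + k * D T)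
    (2 * (T * ρ + 1)) p13 (by
      intro l hl l' hl' e1 e2
      have e3 : cls (zs A l') = cls (zs A l) := by
        have := ha1 l (s1 hl)
        rw [e1, ha1 l' (s1 hl')] at this
        exact this
      have h1 := row A (piece Z cls (cls (zs A l))) 0 i0 (l i0)
      rw [mul_zero, add_zero] at h1
      refine card_le_one.1 h1 l (mem_filter.2 ⟨hLp l (s1 hl), rfl⟩) l'
        (mem_filter.2 ⟨?_, e2.symm⟩)
      rw [← e3]
      exact hLp l' (s1 hl')) g2 hden (by simpa using p18) (by
      intro c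
      refine le_trans (card_le_card ?_) (row A Z (D T) i0 c)
      exact filter_subset_filter _ fun l hl => hLg l (s1 hl)) (by
      refine Nat.le_of_mul_le_mul_left ?_ (show 0 < 2 * k by omega)
      refine le_trans (le_of_eq ?_) (p17.trans hm)
      ring)
  set R' : Finset (Fin S) := R ∪ ((F.image a).image (fun l => addr (zs A l) (seen (zs A l))) ∪
    (F.image gr).image last) with hR'
  have hRc : R'.card + (T * ρ + 1) ≤ F.card := by
    have := (card_union_le _ _).trans (Nat.add_le_add r1 ((card_union_le _ _).trans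
      (Nat.add_le_add (card_image_le (s := F.image a)
        (f := fun l => addr (zs A l) (seen (zs A l)))) (card_image_le (s := F.image gr) (f := last)))))
    rw [← hR'] at this
    omega
  obtain ⟨F', s3, f4⟩ := exists_subset_card_eq hRc
  refine hu R'.card (by
      have : 3 * K * (2 * (T * ρ + 1)) = 6 * K * (T * ρ + 1) := by ring
      omega) ⟨i0, F', f4, fun l hl l' hl' => f1 l (s3 hl) l' (s3 hl'), R', rfl, ?_⟩
  intro l hl u hu
  have hlL : l ∈ L := s1 (s2 (s3 hl))
  obtain ⟨q1, q2⟩ := r2 _ (hLZ l hlL)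
  rcases Nat.lt_or_ge u T with h | h
  · exact mem_union_left _ (q2 u h)
  · refine mem_union_right _ ?_
    rcases (show u = T ∨ u = T + 1 by omega) with rfl | rfl
    · rw [q1]
      exact mem_union_left _ (mem_image.2 ⟨a l, mem_image_of_mem _ (s3 hl),
        c1 _ (hLZ _ (ha0 l hlL)) _ (hLZ l hlL) (ha1 l hlL)⟩)
    · exact mem_union_right _ (mem_image.2 ⟨gr l, mem_image_of_mem _ (s3 hl), g1 l (s2 (s3 hl))⟩)

end Pool.Agent.MP_5e38ef_lc.SP

end
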