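import Pool.Agent.Mg.F5e38efa.G478d36

section

namespace Pool.Agent.MP_5e38ef_lc.WW
open Finset

/-- No other label has the same sum as `l`. -/
def uniq {k n U : ℕ} (A : Fin k × Fin n → Fin (U + 1)) (l : Fin k → Fin n) : Prop :=
  ∀ l', TP.zs A l' = TP.zs A l → l' = l

instance {k n U : ℕ} (A : Fin k × Fin n → Fin (U + 1)) : DecidablePred (uniq A) := fun l => by
  unfold uniq; infer_instance

/-- Label sets that can be ordered so that each label has a coordinate value not used before. -/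
inductive Ind {k n : ℕ} : Finset (Fin k → Fin n) → Prop
  | empty : Ind ∅
  | insert (F : Finset (Fin k → Fin n)) (l : Fin k → Fin n) (i : Fin k) :
      Ind F → (∀ l' ∈ F, l' i ≠ l i) → Ind (insert l F)

/-- Labels that are pairwise different in every coordinate. -/
def pd {k n : ℕ} (σ : Finset (Fin k → Fin n)) : Prop :=
  ∀ l ∈ σ, ∀ l' ∈ σ, l ≠ l' → ∀ i, l i ≠ l' i

instance {k n : ℕ} : DecidablePred (pd (k := k) (n := n)) := fun σ => by
  unfold pd; infer_instance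

/-- The `pd` sets of `a` labels of `L` on which `f` is constant. -/
def stars {k n : ℕ} (L : Finset (Fin k → Fin n)) (f : (Fin k → Fin n) → (Fin k → Fin n))
    (a : ℕ) : Finset (Finset (Fin k → Fin n)) :=
  (powersetCard a L).filter (fun σ => (∀ l ∈ σ, ∀ l' ∈ σ, f l = f l') ∧ pd σ)

/-- The numerical conditions of the combinatorial core. -/
def Num (Q k a h S N Sb d τ τL Δ P H D0 r0 gg : ℕ) : Prop :=
  0 < h ∧ 0 < d ∧ 0 < P ∧ 0 < H ∧ 0 < D0 ∧ 2 * (k * (a * (h * a)) * r0 * Δ) ≤ N ∧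
    4 * S * (2 * a) ^ k * d ≤ N ∧ 32 * k * Sb * d ≤ N ∧ d ≤ τ * gg ∧ 2 * gg ^ k ≤ d ∧
    2 * (a * k * τL) ≤ d ∧ H * P * (2 * (a * k * τL)) ≤ d ^ 2 ∧ Δ * d ^ (a - 1) ≤ D0 * P ^ a ∧
    τ * d ^ (a - 1) ≤ D0 * P ^ (a - 1) ∧ τL ≤ τ ∧ d ^ a ≤ H * D0 * P ^ (a - 1) ∧
    H ^ (a - 2) * (a * (h * a)) ^ k ≤ D0 ∧ 32 * k * Q * D0 * P ^ a * r0 ≤ N * d ^ (a - 1) ∧
    8 * k * h * Q * D0 * P ^ (a - 1) ≤ d ^ a ∧ 0 < N

/-- The numerical conditions under which `T + 2` probes are impossible. -/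
def ParW (Q k a n U S w T : ℕ) : Prop :=
  ∃ (ρ P N h d τ H D0 r0 gg e0 : ℕ) (B D G E r : ℕ → ℕ),
    S ≤ P * ρ ∧ k * U + 1 ≤ B 0 ∧ (∀ s < T, B s ≤ P * B (s + 1)) ∧ (∀ s ≤ T, 0 < B (s + 1)) ∧
    B T ≤ P * ρ * B (T + 1) ∧ n ^ (k - 1) ≤ D 0 ∧ 2 * G 0 ≤ n ^ k ∧
    2 * (T + 4) * n ^ k ≤ U + 1 ∧
    (∀ s < T, 0 < G (s + 1)) ∧
    (∀ s < T, 2 * P * G (s + 1) + k ^ 2 * (r s * (1 + k * D s) + n * E s) ≤ G s) ∧
    N + k ^ 2 * (r T * (1 + k * D T) + n * E T) ≤ G T ∧
    (∀ s ≤ T, (T + 4) * (2 * P * (2 ^ w) ^ ρ) ^ s *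
        (k ^ 2 * n.choose (r s) * (n ^ (k - 1) * D s * B (s + 1)) ^ r s)
      ≤ ((D (s + 1) + 1) * (E s + 1) * (U + 1)) ^ r s) ∧
    Num Q k a h S N (P * ρ) d τ (1 + k * D (T + 1)) (1 + k * D T) P H D0 r0 gg ∧
    h * a * (T * ρ) ≤ r0 ∧ e0 ≤ r0 ∧
    ∀ v ≤ S, ∀ e ≤ n ^ k, e0 ≤ e → h * a * v ≤ (h + 2) * e →
      (T + 4) * ((S + 1) * (n ^ k + 1)) * ((n ^ k) ^ e * (S * 2 ^ w) ^ v) ≤ (U + 1) ^ e

end Pool.Agent.MP_5e38ef_lc.WW

end

section

namespace Pool.Agent.MP_5e38ef_lc.WW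
open Finset TP SP

theorem ind_rainbow {k n : ℕ} (i0 : Fin k) (F : Finset (Fin k → Fin n))
    (hF : ∀ l ∈ F, ∀ l' ∈ F, l i0 = l' i0 → l = l') : Ind F := by
  induction F using Finset.induction_on with
  | empty => exact Ind.empty
  | insert l F hl ih =>
    refine Ind.insert F l i0 (ih fun x hx y hy =>
      hF x (mem_insert_of_mem hx) y (mem_insert_of_mem hy)) fun l' hl' h0 => hl ?_
    rw [← hF l' (mem_insert_of_mem hl') l (mem_insert_self _ _) h0]
    exact hl'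

theorem ind_union {k n : ℕ} {F F' : Finset (Fin k → Fin n)} (hF : Ind F) (hF' : Ind F')
    (h : ∀ l ∈ F, ∀ l' ∈ F', ∀ i, l i ≠ l' i) : Ind (F ∪ F') := by
  induction hF' with
  | empty => simpa using hF
  | insert F' l i _ hl ih =>
    rw [union_insert]
    refine Ind.insert _ l i (ih fun x hx y hy => h x hx y (mem_insert_of_mem hy)) fun l' hl' => ?_
    rcases mem_union.1 hl' with h1 | h1
    · exact h l' h1 l (mem_insert_self _ _) i
    · exact hl l' h1

/-- labels all of whose coordinate values occur in `F` -/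
def blk_Gadget {k n : ℕ} (F : Finset (Fin k → Fin n)) : Finset (Fin k → Fin n) :=
  Fintype.piFinset fun i => F.image fun l => l i

lemma blk_card_Gadget {k n : ℕ} (F : Finset (Fin k → Fin n)) :
    (blk_Gadget F).card ≤ F.card ^ k := by
  rw [blk_Gadget, Fintype.card_piFinset]
  refine (Finset.prod_le_pow_card _ _ F.card fun i _ => card_image_le).trans ?_
  simp

lemma blk_not_Gadget {k n : ℕ} {F : Finset (Fin k → Fin n)} {l : Fin k → Fin n}
    (hl : l ∉ blk_Gadget F) : ∃ i, ∀ l' ∈ F, l' i ≠ l i := by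
  by_contra h0
  push Not at h0
  exact hl (Fintype.mem_piFinset.2 fun i => mem_image.2 (h0 i))

lemma g1_Gadget {k n : ℕ} (E : Finset (Fin k → Fin n)) (s : ℕ) (hs : s ^ k < E.card) :
    ∀ j ≤ s, ∃ F ⊆ E, Ind F ∧ F.card = j := by
  intro j
  induction j with
  | zero => exact fun _ => ⟨∅, empty_subset _, Ind.empty, rfl⟩
  | succ j ih =>
    intro hj
    obtain ⟨F, hFE, hF, hc⟩ := ih (by omega)
    have h1 : (blk_Gadget F).card < E.card :=
      ((blk_card_Gadget F).trans (Nat.pow_le_pow_left (by omega) k)).trans_lt hs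
    obtain ⟨l, hlE, hl⟩ := exists_mem_notMem_of_card_lt_card h1
    obtain ⟨i, hi⟩ := blk_not_Gadget hl
    refine ⟨insert l F, insert_subset hlE hFE, Ind.insert F l i hF hi, ?_⟩
    rw [card_insert_of_notMem fun h0 => hi l h0 rfl, hc]

lemma pd_union_Gadget {k n : ℕ} {F σ : Finset (Fin k → Fin n)} (hF : Ind F) (hσ : pd σ)
    (hb : ∀ l ∈ σ, l ∉ blk_Gadget F) : ∀ s ⊆ σ, Ind (F ∪ s) := by
  intro s
  induction s using Finset.induction_on with
  | empty => intro _; simpa using hF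
  | insert l s hl ih =>
    intro hs
    have hlσ : l ∈ σ := hs (mem_insert_self _ _)
    have hsσ : s ⊆ σ := (subset_insert _ _).trans hs
    obtain ⟨i, hi⟩ := blk_not_Gadget (hb l hlσ)
    rw [union_insert]
    refine Ind.insert _ l i (ih hsσ) fun l' hl' => ?_
    rcases mem_union.1 hl' with h1 | h1
    · exact hi l' h1
    · exact hσ l' (hsσ h1) l hlσ (fun h0 => hl (h0 ▸ h1)) i

lemma g2_Gadget {k n : ℕ} {X Y : Type} [DecidableEq X] (E : Finset (Fin k → Fin n))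
    (f : (Fin k → Fin n) → X) (g : (Fin k → Fin n) → Y) (a M : ℕ) (R : Finset Y) (Xs : Finset X)
    (hX : ∀ x ∈ Xs, ∃ σ ⊆ E, σ.card = a ∧ pd σ ∧ ∀ l ∈ σ, f l = x ∧ g l ∈ R)
    (hM : (a * M) ^ k < Xs.card) :
    ∀ j ≤ M, ∃ F ⊆ E, Ind F ∧ F.card = a * j ∧ (F.image f).card ≤ j ∧ ∀ l ∈ F, g l ∈ R := by
  intro j
  induction j with
  | zero => exact fun _ => ⟨∅, empty_subset _, Ind.empty, rfl, by simp, by simp⟩
  | succ j ih =>
    intro hj
    obtain ⟨F, hFE, hF, hc, hf, hg⟩ := ih (by omega)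
    have h0 : F.card ≤ a * M := hc ▸ Nat.mul_le_mul_left a (by omega)
    have h1 : ((blk_Gadget F).image f).card < Xs.card :=
      (card_image_le.trans ((blk_card_Gadget F).trans (Nat.pow_le_pow_left h0 k))).trans_lt hM
    obtain ⟨x, hx, hxb⟩ := exists_mem_notMem_of_card_lt_card h1
    obtain ⟨σ, hσE, hσa, hσ, hσx⟩ := hX x hx
    have hb : ∀ l ∈ σ, l ∉ blk_Gadget F := fun l hl h2 =>
      hxb (mem_image.2 ⟨l, h2, (hσx l hl).1⟩)
    have hd : Disjoint F σ := disjoint_right.2 fun l hl h2 => by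
      obtain ⟨i, hi⟩ := blk_not_Gadget (hb l hl)
      exact hi l h2 rfl
    refine ⟨F ∪ σ, union_subset hFE hσE, pd_union_Gadget hF hσ hb σ Subset.rfl, ?_, ?_, ?_⟩
    · rw [card_union_of_disjoint hd, hc, hσa, Nat.mul_succ]
    · have h2 : (F ∪ σ).image f ⊆ insert x (F.image f) := by
        intro y hy
        obtain ⟨l, hl, rfl⟩ := mem_image.1 hy
        rcases mem_union.1 hl with h3 | h3
        · exact mem_insert_of_mem (mem_image_of_mem f h3)
        · rw [(hσx l h3).1]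
          exact mem_insert_self _ _
      exact (card_le_card h2).trans ((card_insert_le _ _).trans (by omega))
    · intro l hl
      rcases mem_union.1 hl with h3 | h3
      · exact hg l h3
      · exact (hσx l h3).2

lemma fresh_Gadget {k n : ℕ} (L F : Finset (Fin k → Fin n)) (Δ : ℕ)
    (hΔ : ∀ i c, (L.filter (fun l => l i = c)).card ≤ Δ) :
    L.card ≤ (L.filter fun l => ∀ l' ∈ F, ∀ i, l' i ≠ l i).card + k * F.card * Δ := by
  rw [← card_filter_add_card_filter_not (s := L) fun l => ∀ l' ∈ F, ∀ i, l' i ≠ l i]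
  refine Nat.add_le_add_left ?_ _
  have h1 : (L.filter fun l => ¬∀ l' ∈ F, ∀ i, l' i ≠ l i) ⊆
      ((univ : Finset (Fin k)) ×ˢ F).biUnion fun p => L.filter fun l => l p.1 = p.2 p.1 := by
    intro l hl
    obtain ⟨hL, h2⟩ := mem_filter.1 hl
    push Not at h2
    obtain ⟨l', hl', i, hi⟩ := h2
    exact mem_biUnion.2 ⟨(i, l'), mem_product.2 ⟨mem_univ _, hl'⟩, mem_filter.2 ⟨hL, hi.symm⟩⟩
  refine (card_le_card h1).trans ((card_biUnion_le_card_mul _ _ Δ fun p _ => hΔ _ _).trans ?_)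
  simp

theorem dichotomy {k n : ℕ} {X Y : Type} [DecidableEq X] [DecidableEq Y] (hk : 0 < k)
    (L : Finset (Fin k → Fin n)) (f : (Fin k → Fin n) → X) (g : (Fin k → Fin n) → Y)
    (a h Δ r : ℕ) (ha : 2 ≤ a) (hh : 0 < h)
    (hΔ : ∀ i c, (L.filter (fun l => l i = c)).card ≤ Δ)
    (hunion : ∀ F F' : Finset (Fin k → Fin n), Ind F → Ind F' →
      (∀ l ∈ F, ∀ l' ∈ F', ∀ i, l i ≠ l' i) → Ind (F ∪ F')) :
    (∃ F ⊆ L, Ind F ∧ r ≤ F.card ∧
      h * a * ((F.image f).card + (F.image g).card) ≤ (h + 1) * F.card) ∨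
    ∃ E ⊆ L, L.card ≤ E.card + k * (a * (h * a)) * r * Δ ∧
      (∀ x y, (E.filter (fun l => f l = x ∧ g l = y)).card ≤ (2 * a) ^ k) ∧
      ∀ R : Finset Y, R.card ≤ a → ∀ Xs : Finset X,
        (∀ x ∈ Xs, ∃ σ ⊆ E, σ.card = a ∧ pd σ ∧ ∀ l ∈ σ, f l = x ∧ g l ∈ R) →
        Xs.card ≤ (a * (h * a)) ^ k := by
  have hha : 2 ≤ h * a := ha.trans (Nat.le_mul_of_pos_left a hh)
  by_cases H : ∀ E ⊆ L, L.card ≤ E.card + k * (a * (h * a)) * r * Δ →
      ∃ F ⊆ E, Ind F ∧ 1 ≤ F.card ∧ F.card ≤ a * (h * a) ∧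
        h * a * ((F.image f).card + (F.image g).card) ≤ (h + 1) * F.card
  · left
    have key : ∀ j ≤ r, ∃ F ⊆ L, Ind F ∧ j ≤ F.card ∧ F.card ≤ a * (h * a) * j ∧
        h * a * ((F.image f).card + (F.image g).card) ≤ (h + 1) * F.card := by
      intro j
      induction j with
      | zero => exact fun _ => ⟨∅, empty_subset _, Ind.empty, by simp, by simp, by simp⟩
      | succ j ih =>
        intro hj
        obtain ⟨F, hFL, hF, h1, h2, h3⟩ := ih (by omega)
        have h4 : F.card ≤ a * (h * a) * r := h2.trans (Nat.mul_le_mul_left _ (by omega))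
        obtain ⟨F', hF'E, hF', h5, h6, h7⟩ :=
          H (L.filter fun l => ∀ l' ∈ F, ∀ i, l' i ≠ l i) (filter_subset _ _)
            ((fresh_Gadget L F Δ hΔ).trans (Nat.add_le_add_left (Nat.mul_le_mul_right Δ (by
              rw [mul_assoc k]
              exact Nat.mul_le_mul_left k h4)) _))
        have hfr : ∀ l ∈ F, ∀ l' ∈ F', ∀ i, l i ≠ l' i := fun l hl l' hl' i =>
          (mem_filter.1 (hF'E hl')).2 l hl i
        have hd : Disjoint F F' := disjoint_left.2 fun l hl hl' => hfr l hl l hl' ⟨0, hk⟩ rfl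
        have hc := card_union_of_disjoint hd
        refine ⟨F ∪ F', union_subset hFL (hF'E.trans (filter_subset _ _)),
          hunion F F' hF hF' hfr, by omega, by rw [hc, Nat.mul_succ]; omega, ?_⟩
        rw [image_union, image_union, hc, Nat.mul_add (h + 1)]
        refine le_trans (Nat.mul_le_mul_left _
          (Nat.add_le_add (card_union_le _ _) (card_union_le _ _))) ?_
        refine le_trans (le_of_eq ?_) (Nat.add_le_add h3 h7)
        ring
    obtain ⟨F, hFL, hF, h1, -, h3⟩ := key r le_rfl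
    exact ⟨F, hFL, hF, h1, h3⟩
  · right
    push Not at H
    obtain ⟨E, hEL, hE, H⟩ := H
    refine ⟨E, hEL, hE, fun x y => ?_, fun R hR Xs hX => ?_⟩
    · by_contra h0
      obtain ⟨F, hFE, hF, hc⟩ := g1_Gadget _ _ (not_le.1 h0) _ le_rfl
      have h1 : (F.image f).card ≤ 1 := card_le_one.2 fun u hu v hv => by
        obtain ⟨l, hl, rfl⟩ := mem_image.1 hu
        obtain ⟨l', hl', rfl⟩ := mem_image.1 hv
        rw [(mem_filter.1 (hFE hl)).2.1, (mem_filter.1 (hFE hl')).2.1]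
      have h2 : (F.image g).card ≤ 1 := card_le_one.2 fun u hu v hv => by
        obtain ⟨l, hl, rfl⟩ := mem_image.1 hu
        obtain ⟨l', hl', rfl⟩ := mem_image.1 hv
        rw [(mem_filter.1 (hFE hl)).2.2, (mem_filter.1 (hFE hl')).2.2]
      refine absurd (H F (hFE.trans (filter_subset _ _)) hF (by omega) ?_) (not_lt.2 ?_)
      · rw [hc, mul_comm 2 a]
        exact Nat.mul_le_mul_left a hha
      · rw [hc]
        refine (Nat.mul_le_mul_left _ (Nat.add_le_add h1 h2)).trans ?_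
        nlinarith
    · by_contra h0
      obtain ⟨F, hFE, hF, hc, h1, h2⟩ := g2_Gadget E f g a (h * a) R Xs hX (not_le.1 h0) _ le_rfl
      have h3 : (F.image g).card ≤ a := (card_le_card fun u hu => by
        obtain ⟨l, hl, rfl⟩ := mem_image.1 hu
        exact h2 l hl).trans hR
      refine absurd (H F hFE hF (hc ▸ Nat.mul_pos (by omega) (by omega)) hc.le) (not_lt.2 ?_)
      rw [hc]
      refine (Nat.mul_le_mul_left _ (Nat.add_le_add h1 h3)).trans (le_of_eq ?_)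
      ring

end Pool.Agent.MP_5e38ef_lc.WW

end

section

namespace Pool.Agent.MP_5e38ef_lc.WW
open Finset TP SP

theorem sup_count {α : Type} [DecidableEq α] (N Q : Finset α) (a : ℕ) :
    ((powersetCard a N).filter (fun σ => Q ⊆ σ)).card ≤ N.card ^ (a - Q.card) := by
  refine le_trans (card_le_card_of_injOn (t := powersetCard (a - Q.card) N) (fun σ => σ \ Q)
    ?_ ?_) ?_
  · intro σ hσ
    obtain ⟨h1, h2⟩ := mem_filter.1 (mem_coe.1 hσ)
    obtain ⟨h3, h4⟩ := mem_powersetCard.1 h1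
    exact mem_coe.2 (mem_powersetCard.2 ⟨sdiff_subset.trans h3, by
      rw [card_sdiff_of_subset h2, h4]⟩)
  · intro σ hσ σ' hσ' e
    have h1 := (mem_filter.1 (mem_coe.1 hσ)).2
    have h2 := (mem_filter.1 (mem_coe.1 hσ')).2
    rw [← sdiff_union_of_subset h1, ← sdiff_union_of_subset h2]
    exact congrArg (· ∪ Q) e
  · rw [card_powersetCard]
    exact Nat.choose_le_pow _ _

theorem pd_count {k n : ℕ} (C : Finset (Fin k → Fin n)) (τL x a : ℕ)
    (hτ : ∀ i c, (C.filter (fun l => l i = c)).card ≤ τL) (hk : 0 < k)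
    (hx : x + a * k * τL ≤ C.card) :
    x ^ a ≤ a.factorial * ((powersetCard a C).filter pd).card := by
  induction a with
  | zero =>
    have : (powersetCard 0 C).filter pd = {∅} := by
      rw [powersetCard_zero, filter_singleton, if_pos (by simp [pd])]
    rw [this]
    simp
  | succ a ih =>
    have h0 : a * k * τL ≤ (a + 1) * k * τL :=
      Nat.mul_le_mul_right _ (Nat.mul_le_mul_right _ (Nat.le_succ a))
    have h1 := ih (by omega)
    have key : ((powersetCard a C).filter pd).card * x ≤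
        ((powersetCard (a + 1) C).filter pd).card * (a + 1) := by
      refine card_mul_le_card_mul (fun σ σ' => σ ⊆ σ') ?_ ?_
      · intro σ hσ
        obtain ⟨h2, h3⟩ := mem_filter.1 hσ
        obtain ⟨h4, h5⟩ := mem_powersetCard.1 h2
        have e1 : (C.filter (fun l => ∃ l' ∈ σ, ∃ i, l i = l' i)).card ≤ a * k * τL := by
          have : C.filter (fun l => ∃ l' ∈ σ, ∃ i, l i = l' i) ⊆
              (σ ×ˢ (univ : Finset (Fin k))).biUnion
                (fun y => C.filter (fun l => l y.2 = y.1 y.2)) := by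
            intro l hl
            obtain ⟨h6, l', h7, i, h8⟩ := mem_filter.1 hl
            exact mem_biUnion.2 ⟨(l', i), mem_product.2 ⟨h7, mem_univ _⟩, mem_filter.2 ⟨h6, h8⟩⟩
          refine (card_le_card this).trans (card_biUnion_le.trans ?_)
          refine (sum_le_card_nsmul _ _ τL fun y _ => hτ _ _).trans ?_
          simp [h5]
        have e2 := card_filter_add_card_filter_not (s := C) (fun l => ∃ l' ∈ σ, ∃ i, l i = l' i)
        have e3 : ∀ l ∈ C.filter (fun l => ¬ ∃ l' ∈ σ, ∃ i, l i = l' i), l ∉ σ :=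
          fun l hl h => (mem_filter.1 hl).2 ⟨l, h, ⟨0, hk⟩, rfl⟩
        refine le_trans (by omega) (card_le_card_of_injOn
          (s := C.filter (fun l => ¬ ∃ l' ∈ σ, ∃ i, l i = l' i)) (fun l => insert l σ) ?_ ?_)
        · intro l hl
          obtain ⟨h6, h7⟩ := mem_filter.1 (mem_coe.1 hl)
          refine mem_coe.2 (mem_filter.2 ⟨mem_filter.2 ⟨mem_powersetCard.2
            ⟨insert_subset h6 h4, by rw [card_insert_of_notMem (e3 l hl), h5]⟩, ?_⟩,
            subset_insert _ _⟩)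
          intro m hm m' hm' hne i e
          rcases mem_insert.1 hm with rfl | g <;> rcases mem_insert.1 hm' with rfl | g'
          · exact hne rfl
          · exact h7 ⟨m', g', i, e⟩
          · exact h7 ⟨m, g, i, e.symm⟩
          · exact h3 m g m' g' hne i e
        · intro l hl l' _ e
          have : l ∈ insert l' σ := by
            rw [← show insert l σ = insert l' σ from e]
            exact mem_insert_self l σ
          exact (mem_insert.1 this).resolve_right (e3 l hl)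
      · intro σ' hσ'
        have h5 := (mem_powersetCard.1 (mem_filter.1 hσ').1).2
        refine le_trans (card_le_card (t := powersetCard a σ') fun σ hσ => ?_) ?_
        · obtain ⟨h6, h7⟩ := mem_filter.1 hσ
          exact mem_powersetCard.2 ⟨h7, (mem_powersetCard.1 (mem_filter.1 h6).1).2⟩
        · rw [card_powersetCard, h5, Nat.choose_succ_self_right]
    calc x ^ (a + 1) = x ^ a * x := pow_succ _ _
      _ ≤ a.factorial * (((powersetCard a C).filter pd).card * x) := by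
          rw [← mul_assoc]; exact Nat.mul_le_mul_right _ h1
      _ ≤ a.factorial * (((powersetCard (a + 1) C).filter pd).card * (a + 1)) :=
          Nat.mul_le_mul_left _ key
      _ = _ := by rw [Nat.factorial_succ]; ring

lemma greedy_StarB {α : Type} [DecidableEq α] (𝓖 : Finset α) (r : α → α → Prop) [DecidableRel r]
    (D : ℕ) (hs : ∀ σ σ', r σ σ' → r σ' σ) (hr : ∀ σ ∈ 𝓖, r σ σ) :
    ∃ I ⊆ 𝓖, (∀ σ ∈ I, ∀ σ' ∈ I, r σ σ' → σ = σ') ∧
      D * 𝓖.card ≤ D ^ 2 * I.card + ((𝓖 ×ˢ 𝓖).filter (fun x => r x.1 x.2)).card := by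
  set low := 𝓖.filter (fun σ => (𝓖.filter (r σ)).card ≤ D) with hlow
  obtain ⟨I, hI, hmax⟩ := exists_max_image
    (low.powerset.filter (fun I => ∀ σ ∈ I, ∀ σ' ∈ I, r σ σ' → σ = σ')) card ⟨∅, by simp⟩
  obtain ⟨h1, h2⟩ := mem_filter.1 hI
  have h3 := mem_powerset.1 h1
  refine ⟨I, h3.trans (filter_subset _ _), h2, ?_⟩
  have e1 : low ⊆ I.biUnion (fun σ => 𝓖.filter (r σ)) := by
    intro σ hσ
    by_contra hc
    have hc' : ∀ τ ∈ I, ¬ r τ σ := fun τ hτ h =>
      hc (mem_biUnion.2 ⟨τ, hτ, mem_filter.2 ⟨(mem_filter.1 hσ).1, h⟩⟩)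
    have hn : σ ∉ I := fun h => hc' σ h (hr σ (mem_filter.1 hσ).1)
    have := hmax (insert σ I) (mem_filter.2 ⟨mem_powerset.2 (insert_subset hσ h3), by
      intro m hm m' hm' h
      rcases mem_insert.1 hm with rfl | g <;> rcases mem_insert.1 hm' with rfl | g'
      · rfl
      · exact absurd (hs _ _ h) (hc' m' g')
      · exact absurd h (hc' m g)
      · exact h2 m g m' g' h⟩)
    rw [card_insert_of_notMem hn] at this
    omega
  have e2 : low.card ≤ I.card * D := (card_le_card e1).trans (card_biUnion_le.trans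
    (sum_le_card_nsmul _ _ D fun σ hσ => (mem_filter.1 (h3 hσ)).2))
  have e3 : ((𝓖 ×ˢ 𝓖).filter (fun x => r x.1 x.2)).card = ∑ σ ∈ 𝓖, (𝓖.filter (r σ)).card := by
    simp only [card_filter, sum_product]
  have e4 : (𝓖.filter (fun σ => ¬ (𝓖.filter (r σ)).card ≤ D)).card * D ≤
      ∑ σ ∈ 𝓖, (𝓖.filter (r σ)).card :=
    le_trans (card_nsmul_le_sum _ _ D fun σ hσ => (not_le.1 (mem_filter.1 hσ).2).le)
      (sum_le_sum_of_subset (filter_subset _ _))
  have e5 := card_filter_add_card_filter_not (s := 𝓖) (fun σ => (𝓖.filter (r σ)).card ≤ D)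
  rw [← hlow] at e5
  have e6 := Nat.mul_le_mul_left D e2
  rw [e3, ← e5]
  calc _ = D * low.card + (𝓖.filter (fun σ => ¬ (𝓖.filter (r σ)).card ≤ D)).card * D := by ring
    _ ≤ D * (I.card * D) + _ := Nat.add_le_add e6 e4
    _ = _ := by ring

lemma sample_StarB {Y : Type} [Fintype Y] [DecidableEq Y] {P : ℕ} (z : Fin P) (J : Finset Y) :
    P ^ J.card * (univ.filter (fun χ : Y → Fin P => ∀ y ∈ J, χ y = z)).card
      = P ^ Fintype.card Y := by
  have e : univ.filter (fun χ : Y → Fin P => ∀ y ∈ J, χ y = z) =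
      Fintype.piFinset (fun y => if y ∈ J then {z} else univ) := by
    ext χ
    simp only [mem_filter, mem_univ, true_and, Fintype.mem_piFinset]
    refine forall_congr' fun y => ?_
    split_ifs with h <;> simp [h]
  rw [e, Fintype.card_piFinset]
  have : ∀ y, (if y ∈ J then ({z} : Finset (Fin P)) else univ).card = if y ∈ J then 1 else P := by
    intro y
    split_ifs <;> simp
  simp only [this]
  rw [prod_ite, prod_const_one, prod_const, one_mul, ← pow_add]
  congr 1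
  have := card_filter_add_card_filter_not (s := (univ : Finset Y)) (fun y => y ∈ J)
  rw [card_univ] at this
  rw [← this]
  simp

lemma sum_sample_StarB {β Y : Type} [Fintype Y] [DecidableEq Y] {P : ℕ} (z : Fin P)
    (s : Finset β) (J : β → Finset Y) (j : β → ℕ) (b : ℕ) (h : ∀ x ∈ s, j x + (J x).card = b) :
    P ^ b * ∑ χ : Y → Fin P, (s.filter (fun x => ∀ y ∈ J x, χ y = z)).card
      = (∑ x ∈ s, P ^ j x) * P ^ Fintype.card Y := by
  simp only [card_filter]
  rw [sum_comm, mul_sum, sum_mul]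
  refine sum_congr rfl fun x hx => ?_
  rw [← card_filter, ← h x hx, pow_add, mul_assoc, sample_StarB]

theorem average {α Y : Type} [DecidableEq α] [Fintype Y] [DecidableEq Y] (𝓕 : Finset α)
    (leaf : α → Finset Y) (r : α → α → Prop) [DecidableRel r] (B : Finset Y)
    (a P D h r0 : ℕ) (hP : 0 < P) (hD : 0 < D) (hs : ∀ σ σ', r σ σ' → r σ' σ)
    (hr : ∀ σ ∈ 𝓕, r σ σ) (hl : ∀ σ ∈ 𝓕, (leaf σ).card = a ∧ leaf σ ⊆ B)
    (hX : ∑ x ∈ (𝓕 ×ˢ 𝓕).filter (fun x => r x.1 x.2), P ^ (leaf x.1 ∩ leaf x.2).card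
      ≤ D * 𝓕.card * P ^ a)
    (hn : 4 * D * P ^ a * (P * r0 + h * B.card) ≤ 𝓕.card * P) :
    ∃ I ⊆ 𝓕, (∀ σ ∈ I, ∀ σ' ∈ I, r σ σ' → σ = σ') ∧
      r0 + h * (I.biUnion leaf).card ≤ I.card := by
  set z : Fin P := ⟨0, hP⟩
  choose I i1 i2 i3 using fun χ : Y → Fin P =>
    greedy_StarB (𝓕.filter (fun σ => ∀ y ∈ leaf σ, χ y = z)) r (2 * D) hs
      (fun σ hσ => hr σ (mem_filter.1 hσ).1)
  by_contra hc
  have h1 : ∀ χ, (I χ).card + 1 ≤
      r0 + h * (B.filter (fun y => ∀ y' ∈ ({y} : Finset Y), χ y' = z)).card := by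
    intro χ
    by_contra h2
    refine hc ⟨I χ, (i1 χ).trans (filter_subset _ _), i2 χ, le_trans (Nat.add_le_add_left
      (Nat.mul_le_mul_left _ (card_le_card (biUnion_subset.2 fun σ hσ y hy => ?_))) _)
      (Nat.lt_succ_iff.1 (not_le.1 h2))⟩
    obtain ⟨h3, h4⟩ := mem_filter.1 (i1 χ hσ)
    exact mem_filter.2 ⟨(hl σ h3).2 hy, fun y' hy' => by rw [mem_singleton.1 hy']; exact h4 y hy⟩
  have s1 := sum_sample_StarB z 𝓕 leaf (fun _ => 0) a fun σ hσ => by simp [(hl σ hσ).1]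
  have s2 := sum_sample_StarB z ((𝓕 ×ˢ 𝓕).filter (fun x => r x.1 x.2))
    (fun x => leaf x.1 ∪ leaf x.2) (fun x => (leaf x.1 ∩ leaf x.2).card) (2 * a) fun x hx => by
      obtain ⟨h2, h3⟩ := mem_product.1 (mem_filter.1 hx).1
      have := card_union_add_card_inter (leaf x.1) (leaf x.2)
      rw [(hl _ h2).1, (hl _ h3).1] at this
      omega
  have s3 := sum_sample_StarB z B (fun y => {y}) (fun _ => 0) 1 fun y _ => by simp
  have s4 : ∀ χ : Y → Fin P, (((𝓕.filter (fun σ => ∀ y ∈ leaf σ, χ y = z)) ×ˢ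
      (𝓕.filter (fun σ => ∀ y ∈ leaf σ, χ y = z))).filter (fun x => r x.1 x.2)).card ≤
      (((𝓕 ×ˢ 𝓕).filter (fun x => r x.1 x.2)).filter
        (fun x => ∀ y ∈ leaf x.1 ∪ leaf x.2, χ y = z)).card := by
    intro χ
    refine card_le_card fun x hx => ?_
    obtain ⟨h2, h3⟩ := mem_filter.1 hx
    obtain ⟨h4, h5⟩ := mem_product.1 h2
    obtain ⟨h6, h7⟩ := mem_filter.1 h4
    obtain ⟨h8, h9⟩ := mem_filter.1 h5
    exact mem_filter.2 ⟨mem_filter.2 ⟨mem_product.2 ⟨h6, h8⟩, h3⟩,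
      fun y hy => (mem_union.1 hy).elim (h7 y) (h9 y)⟩
  have t1 := sum_le_sum fun χ (_ : χ ∈ univ) => (i3 χ).trans (Nat.add_le_add_left (s4 χ) _)
  have t2 := sum_le_sum fun χ (_ : χ ∈ univ) => h1 χ
  simp only [sum_add_distrib, ← mul_sum, sum_const, card_univ, smul_eq_mul, Fintype.card_fun,
    Fintype.card_fin, pow_zero, mul_one, pow_one] at t1 t2 s1 s3
  generalize (∑ χ : Y → Fin P, (I χ).card) = A at *
  generalize (∑ χ : Y → Fin P, (𝓕.filter (fun σ => ∀ y ∈ leaf σ, χ y = z)).card) = G at *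
  generalize (∑ χ : Y → Fin P, (((𝓕 ×ˢ 𝓕).filter (fun x => r x.1 x.2)).filter
        (fun x => ∀ y ∈ leaf x.1 ∪ leaf x.2, χ y = z)).card) = X at *
  generalize (∑ χ : Y → Fin P,
    (B.filter (fun y => ∀ y' ∈ ({y} : Finset Y), χ y' = z)).card) = R at *
  have hΩ : 0 < P ^ Fintype.card Y := by positivity
  generalize P ^ Fintype.card Y = Ω at *
  have hp : 0 < P ^ a := by positivity
  have u1 : X ≤ D * G := by
    refine Nat.le_of_mul_le_mul_left ?_ (show 0 < P ^ (2 * a) by positivity)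
    rw [s2, two_mul, pow_add]
    calc _ ≤ D * 𝓕.card * P ^ a * Ω := Nat.mul_le_mul_right _ hX
      _ = D * P ^ a * (𝓕.card * Ω) := by ring
      _ = _ := by rw [← s1]; ring
  have u2 : G ≤ 4 * D * A := by
    refine Nat.le_of_mul_le_mul_left ?_ hD
    have : (2 * D) ^ 2 * A = D * (4 * D * A) := by ring
    have : 2 * D * G = 2 * (D * G) := by ring
    omega
  have u3 := Nat.mul_le_mul_right Ω hn
  have u4 : 4 * D * P ^ a * P * (A + Ω) ≤ 4 * D * P ^ a * P * A :=
    calc _ ≤ 4 * D * P ^ a * P * (Ω * r0 + h * R) := Nat.mul_le_mul_left _ t2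
      _ = 4 * D * P ^ a * (P * r0 * Ω + h * (P * R)) := by ring
      _ = 4 * D * P ^ a * (P * r0 + h * B.card) * Ω := by rw [s3]; ring
      _ ≤ 𝓕.card * P * Ω := u3
      _ = P * (P ^ a * G) := by rw [s1]; ring
      _ ≤ P * (P ^ a * (4 * D * A)) := Nat.mul_le_mul_left _ (Nat.mul_le_mul_left _ u2)
      _ = _ := by ring
  have := Nat.le_of_mul_le_mul_left u4 (by positivity)
  omega

end Pool.Agent.MP_5e38ef_lc.WW

end

section

namespace Pool.Agent.MP_5e38ef_lc.WW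
open Finset TP SP

theorem cover_PairHigh {β γ : Type*} [DecidableEq β] (S : Finset β) (T : Finset γ)
    (F : γ → Finset β) (f : β → ℕ) (h : ∀ s ∈ S, ∃ t ∈ T, s ∈ F t) :
    ∑ s ∈ S, f s ≤ ∑ t ∈ T, ∑ s ∈ F t, f s := by
  calc ∑ s ∈ S, f s ≤ ∑ s ∈ S, ∑ t ∈ T, (if s ∈ F t then f s else 0) := by
        refine sum_le_sum fun s hs => ?_
        obtain ⟨t, ht, hst⟩ := h s hs
        have := single_le_sum (f := fun t => if s ∈ F t then f s else 0)
          (fun _ _ => Nat.zero_le _) ht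
        simpa [hst] using this
    _ = ∑ t ∈ T, ∑ s ∈ S, (if s ∈ F t then f s else 0) := sum_comm
    _ ≤ ∑ t ∈ T, ∑ s ∈ F t, f s := by
        refine sum_le_sum fun t _ => ?_
        rw [← sum_filter]
        exact sum_le_sum_of_subset fun s hs => (mem_filter.1 hs).2

theorem pre_PairHigh {α : Type*} [DecidableEq α] (N : Finset α) (q : α → α)
    (hN : Set.InjOn q N) (J : Finset α) :
    (N.filter (fun l => q l ∈ J)).card = (J ∩ N.image q).card := by
  rw [← card_image_of_injOn (f := q) (hN.mono (by intro l hl; exact (mem_filter.1 hl).1))]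
  congr 1
  ext y
  simp only [mem_image, mem_filter, mem_inter]
  constructor
  · rintro ⟨l, ⟨hl, hJ⟩, rfl⟩
    exact ⟨hJ, l, hl, rfl⟩
  · rintro ⟨hJ, l, hl, rfl⟩
    exact ⟨l, ⟨hl, hJ⟩, rfl⟩

theorem fiber_PairHigh {α : Type*} [DecidableEq α] (N : Finset α) (q : α → α)
    (hN : Set.InjOn q N) (a d : ℕ) (hd : N.card ≤ d)
    (hsup : ∀ (N Q : Finset α) (a : ℕ),
      ((powersetCard a N).filter (fun σ => Q ⊆ σ)).card ≤ N.card ^ (a - Q.card))
    (J : Finset α) (hJ : J ⊆ N.image q) :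
    ((powersetCard a N).filter (fun σ => J ⊆ σ.image q)).card ≤ d ^ (a - J.card) := by
  have hc : (N.filter (fun l => q l ∈ J)).card = J.card := by
    rw [pre_PairHigh N q hN J, inter_eq_left.2 hJ]
  calc ((powersetCard a N).filter (fun σ => J ⊆ σ.image q)).card
      ≤ ((powersetCard a N).filter (fun σ => N.filter (fun l => q l ∈ J) ⊆ σ)).card := by
        refine card_le_card fun σ hσ => ?_
        obtain ⟨h1, h2⟩ := mem_filter.1 hσ
        refine mem_filter.2 ⟨h1, fun l hl => ?_⟩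
        obtain ⟨hl1, hl2⟩ := mem_filter.1 hl
        obtain ⟨l', hl', he⟩ := mem_image.1 (h2 hl2)
        have : l' = l := hN ((mem_powersetCard.1 h1).1 hl') hl1 he
        exact this ▸ hl'
    _ ≤ N.card ^ (a - (N.filter (fun l => q l ∈ J)).card) := hsup _ _ _
    _ ≤ d ^ (a - J.card) := by rw [hc]; exact Nat.pow_le_pow_left hd _

theorem count_PairHigh {α : Type*} [DecidableEq α] (N N' : Finset α) (q : α → α)
    (hN : Set.InjOn q N) (hN' : Set.InjOn q N') (a d j : ℕ) (hd : N.card ≤ d) (hd' : N'.card ≤ d)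
    (hsup : ∀ (N Q : Finset α) (a : ℕ),
      ((powersetCard a N).filter (fun σ => Q ⊆ σ)).card ≤ N.card ^ (a - Q.card)) :
    ((powersetCard a N ×ˢ powersetCard a N').filter
        (fun x => (x.1.image q ∩ x.2.image q).card = j)).card
      ≤ d ^ (a - j) * d ^ (a - j) * (N.image q ∩ N'.image q).card ^ j := by
  have h1 := card_le_mul_card_image_of_maps_to
    (f := fun x : Finset α × Finset α => x.1.image q ∩ x.2.image q)
    (s := (powersetCard a N ×ˢ powersetCard a N').filter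
        (fun x => (x.1.image q ∩ x.2.image q).card = j))
    (t := powersetCard j (N.image q ∩ N'.image q)) (by
      intro x hx
      obtain ⟨hx1, hx2⟩ := mem_filter.1 hx
      obtain ⟨h1, h2⟩ := mem_product.1 hx1
      exact mem_powersetCard.2 ⟨inter_subset_inter (image_subset_image (mem_powersetCard.1 h1).1)
        (image_subset_image (mem_powersetCard.1 h2).1), hx2⟩) (d ^ (a - j) * d ^ (a - j)) (by
      intro J hJ
      obtain ⟨hJ1, hJ2⟩ := mem_powersetCard.1 hJ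
      have e1 := fiber_PairHigh N q hN a d hd hsup J (hJ1.trans inter_subset_left)
      have e2 := fiber_PairHigh N' q hN' a d hd' hsup J (hJ1.trans inter_subset_right)
      rw [hJ2] at e1 e2
      refine le_trans ?_ (Nat.mul_le_mul e1 e2)
      rw [← card_product]
      refine card_le_card fun x hx => ?_
      obtain ⟨hx1, hx2⟩ := mem_filter.1 hx
      obtain ⟨hx3, _⟩ := mem_filter.1 hx1
      obtain ⟨h1, h2⟩ := mem_product.1 hx3
      refine mem_product.2 ⟨mem_filter.2 ⟨h1, ?_⟩, mem_filter.2 ⟨h2, ?_⟩⟩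
      · rw [← hx2]; exact inter_subset_left
      · rw [← hx2]; exact inter_subset_right)
  refine h1.trans (Nat.mul_le_mul_left _ ?_)
  rw [card_powersetCard]
  exact Nat.choose_le_pow _ _

theorem low_PairHigh (H κ P d a j : ℕ) (hj : 2 ≤ j) (hja : j ≤ a) (h : H * κ * P ≤ d ^ 2) :
    H * (P ^ j * (d ^ (a - j) * d ^ (a - j) * κ ^ j)) ≤ κ * (P * d ^ (2 * a - 2)) := by
  rcases Nat.eq_zero_or_pos H with rfl | hH
  · simp
  obtain ⟨i, rfl⟩ : ∃ i, j = i + 2 := ⟨j - 2, by omega⟩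
  obtain ⟨m, rfl⟩ : ∃ m, a = i + 2 + m := ⟨a - (i + 2), by omega⟩
  have h1 : κ * P ≤ d ^ 2 := by
    calc κ * P ≤ H * (κ * P) := Nat.le_mul_of_pos_left _ hH
      _ = H * κ * P := by ring
      _ ≤ _ := h
  have h2 : (κ * P) ^ i ≤ (d ^ 2) ^ i := Nat.pow_le_pow_left h1 _
  have e1 : i + 2 + m - (i + 2) = m := by omega
  have e2 : 2 * (i + 2 + m) - 2 = 2 + 2 * i + 2 * m := by omega
  rw [e1, e2]
  calc H * (P ^ (i + 2) * (d ^ m * d ^ m * κ ^ (i + 2)))
      = (H * κ * P) * (κ * P) ^ i * (κ * P * (d ^ m * d ^ m)) := by ring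
    _ ≤ d ^ 2 * (d ^ 2) ^ i * (κ * P * (d ^ m * d ^ m)) :=
        Nat.mul_le_mul_right _ (Nat.mul_le_mul h h2)
    _ = κ * (P * d ^ (2 + 2 * i + 2 * m)) := by ring

theorem high_PairHigh (H κ P d a j : ℕ) (hj : 2 ≤ j) (hja : j ≤ a) (h : d ^ 2 < H * κ * P) :
    H * (P ^ j * (d ^ (a - j) * d ^ (a - j) * κ ^ j)) ≤ H ^ (a - 1) * P ^ a * κ ^ a := by
  have hH : 0 < H := by
    rcases Nat.eq_zero_or_pos H with rfl | hH
    · simp at h
    · exact hH
  obtain ⟨i, rfl⟩ : ∃ i, j = i + 2 := ⟨j - 2, by omega⟩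
  obtain ⟨m, rfl⟩ : ∃ m, a = i + 2 + m := ⟨a - (i + 2), by omega⟩
  have e1 : i + 2 + m - (i + 2) = m := by omega
  have e2 : i + 2 + m - 1 = i + 1 + m := by omega
  rw [e1, e2]
  have h2 : (d ^ 2) ^ m ≤ (H * κ * P) ^ m := Nat.pow_le_pow_left h.le _
  have h3 : 1 ≤ H ^ i := Nat.one_le_pow _ _ hH
  calc H * (P ^ (i + 2) * (d ^ m * d ^ m * κ ^ (i + 2)))
      = 1 * (d ^ 2) ^ m * (H * P ^ (i + 2) * κ ^ (i + 2)) := by ring
    _ ≤ H ^ i * (H * κ * P) ^ m * (H * P ^ (i + 2) * κ ^ (i + 2)) :=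
        Nat.mul_le_mul_right _ (Nat.mul_le_mul h3 h2)
    _ = H ^ (i + 1 + m) * P ^ (i + 2 + m) * κ ^ (i + 2 + m) := by ring

theorem num_PairHigh (H κ P d a j t c : ℕ) (hj : 2 ≤ j) (hja : j ≤ a)
    (hH : H * P * (2 * t) ≤ d ^ 2)
    (hc : ∀ x, x + t ≤ κ → x ^ a ≤ a.factorial * c) :
    H * (P ^ j * (d ^ (a - j) * d ^ (a - j) * κ ^ j))
      ≤ κ * (P * d ^ (2 * a - 2)) + H ^ (a - 1) * P ^ a * (2 ^ a * a.factorial) * c := by
  rcases le_or_gt (H * κ * P) (d ^ 2) with h | h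
  · exact (low_PairHigh H κ P d a j hj hja h).trans (Nat.le_add_right _ _)
  · refine (high_PairHigh H κ P d a j hj hja h).trans (le_trans ?_ (Nat.le_add_left _ _))
    have h1 : H * P * (2 * t) < H * P * κ := by
      calc H * P * (2 * t) ≤ d ^ 2 := hH
        _ < H * κ * P := h
        _ = H * P * κ := by ring
    have h2 : 2 * t < κ := Nat.lt_of_mul_lt_mul_left h1
    have h3 := hc (κ - t) (by omega)
    have h4 : κ ^ a ≤ (2 * (κ - t)) ^ a := Nat.pow_le_pow_left (by omega) _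
    have h5 : κ ^ a ≤ 2 ^ a * a.factorial * c := by
      calc κ ^ a ≤ (2 * (κ - t)) ^ a := h4
        _ = 2 ^ a * (κ - t) ^ a := by rw [mul_pow]
        _ ≤ 2 ^ a * (a.factorial * c) := Nat.mul_le_mul_left _ h3
        _ = 2 ^ a * a.factorial * c := by ring
    calc H ^ (a - 1) * P ^ a * κ ^ a ≤ H ^ (a - 1) * P ^ a * (2 ^ a * a.factorial * c) :=
          Nat.mul_le_mul_left _ h5
      _ = _ := by ring

theorem kap_PairHigh {α : Type*} [DecidableEq α] (L V B : Finset α) (p q : α → α) (d : ℕ)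
    (hq : ∀ y, (L.filter (fun l => q l = y)).card ≤ d) (hB : B.card ≤ d) :
    ∑ x' ∈ V, ((L.filter (fun l => p l = x')).filter (fun l => q l ∈ B)).card ≤ d * d := by
  have h1 : ∑ x' ∈ V, ((L.filter (fun l => p l = x')).filter (fun l => q l ∈ B)).card
      ≤ (L.filter (fun l => q l ∈ B)).card := by
    rw [← card_biUnion]
    · refine card_le_card fun l hl => ?_
      obtain ⟨x, _, hx⟩ := mem_biUnion.1 hl
      obtain ⟨h1, h2⟩ := mem_filter.1 hx
      exact mem_filter.2 ⟨(mem_filter.1 h1).1, h2⟩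
    · intro x _ y _ hxy
      refine disjoint_left.2 fun l h1 h2 => hxy ?_
      rw [← (mem_filter.1 (mem_filter.1 h1).1).2, ← (mem_filter.1 (mem_filter.1 h2).1).2]
  have h2 := card_le_mul_card_image_of_maps_to (f := q) (s := L.filter (fun l => q l ∈ B))
    (t := B) (fun l hl => (mem_filter.1 hl).2) d (by
      intro y _
      refine le_trans (card_le_card fun l hl => ?_) (hq y)
      exact mem_filter.2 ⟨(mem_filter.1 (mem_filter.1 hl).1).1, (mem_filter.1 hl).2⟩)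
  exact h1.trans (h2.trans (Nat.mul_le_mul_left _ hB))

theorem cnt_PairHigh {α : Type*} [DecidableEq α] (L V B : Finset α) (p q : α → α) (a d M : ℕ)
    (R : Finset α → Prop) [DecidablePred R] (ha : 0 < a)
    (hinj : ∀ x, Set.InjOn q (L.filter (fun l => p l = x) : Finset α))
    (St : Finset (Finset α))
    (hSt : ∀ σ, σ ⊆ L → σ.card = a → (∀ l ∈ σ, ∀ l' ∈ σ, p l = p l') → R σ → σ ∈ St)
    (hM : ∀ J, (St.filter (fun σ => σ.image q = J)).card ≤ M) (hB : B.card ≤ d) :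
    ∑ x' ∈ V, ((powersetCard a
        ((L.filter (fun l => p l = x')).filter (fun l => q l ∈ B))).filter R).card
      ≤ d ^ a * M := by
  have h1 : ∑ x' ∈ V, ((powersetCard a
        ((L.filter (fun l => p l = x')).filter (fun l => q l ∈ B))).filter R).card
      ≤ (St.filter (fun σ => σ.image q ∈ powersetCard a B)).card := by
    rw [← card_biUnion]
    · refine card_le_card fun σ hσ => ?_
      obtain ⟨x, _, hx⟩ := mem_biUnion.1 hσ
      obtain ⟨h1, h2⟩ := mem_filter.1 hx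
      obtain ⟨h3, h4⟩ := mem_powersetCard.1 h1
      have h5 : σ ⊆ L.filter (fun l => p l = x) := h3.trans (filter_subset _ _)
      refine mem_filter.2 ⟨hSt σ (h5.trans (filter_subset _ _)) h4 ?_ h2,
        mem_powersetCard.2 ⟨?_, ?_⟩⟩
      · intro l hl l' hl'
        rw [(mem_filter.1 (h5 hl)).2, (mem_filter.1 (h5 hl')).2]
      · intro y hy
        obtain ⟨l, hl, rfl⟩ := mem_image.1 hy
        exact (mem_filter.1 (h3 hl)).2
      · rw [card_image_of_injOn ((hinj x).mono (by exact_mod_cast h5)), h4]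
    · intro x _ y _ hxy
      refine disjoint_left.2 fun σ h1 h2 => hxy ?_
      obtain ⟨h3, h4⟩ := mem_powersetCard.1 (mem_filter.1 h1).1
      obtain ⟨h5, _⟩ := mem_powersetCard.1 (mem_filter.1 h2).1
      obtain ⟨l, hl⟩ : σ.Nonempty := card_pos.1 (by omega)
      rw [← (mem_filter.1 (mem_filter.1 (h3 hl)).1).2, ← (mem_filter.1 (mem_filter.1 (h5 hl)).1).2]
  have h2 := card_le_mul_card_image_of_maps_to (f := fun σ : Finset α => σ.image q)
    (s := St.filter (fun σ => σ.image q ∈ powersetCard a B))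
    (t := powersetCard a B) (fun σ hσ => (mem_filter.1 hσ).2) M (by
      intro J _
      refine le_trans (card_le_card fun σ hσ => ?_) (hM J)
      exact mem_filter.2 ⟨(mem_filter.1 (mem_filter.1 hσ).1).1, (mem_filter.1 hσ).2⟩)
  refine h1.trans (h2.trans ?_)
  rw [card_powersetCard, mul_comm]
  exact Nat.mul_le_mul_right _ ((Nat.choose_le_pow _ _).trans (Nat.pow_le_pow_left hB _))

theorem abs_PairHigh {α : Type*} [DecidableEq α] (L : Finset α)
    (p q : α → α) (a d t M P H : ℕ) (ha : 2 ≤ a)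
    (R : Finset α → Prop) [DecidablePred R] (St : Finset (Finset α))
    (hSt : ∀ σ, σ ∈ St ↔ σ ⊆ L ∧ σ.card = a ∧ (∀ l ∈ σ, ∀ l' ∈ σ, p l = p l') ∧ R σ)
    (hsimple : ∀ l ∈ L, ∀ l' ∈ L, p l = p l' → q l = q l' → l = l')
    (hp : ∀ x, (L.filter (fun l => p l = x)).card ≤ d)
    (hq : ∀ y, (L.filter (fun l => q l = y)).card ≤ d)
    (hM : ∀ J, (St.filter (fun σ => σ.image q = J)).card ≤ M)
    (hH : H * P * (2 * t) ≤ d ^ 2)
    (hsup : ∀ (N Q : Finset α) (a : ℕ),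
      ((powersetCard a N).filter (fun σ => Q ⊆ σ)).card ≤ N.card ^ (a - Q.card))
    (hpd : ∀ (C : Finset α) (x' : α) (x : ℕ), C ⊆ L.filter (fun l => p l = x') →
      x + t ≤ C.card → x ^ a ≤ a.factorial * ((powersetCard a C).filter R).card) :
    H * ∑ x ∈ (St ×ˢ St).filter
        (fun x => 2 ≤ (x.1.image q ∩ x.2.image q).card), P ^ (x.1.image q ∩ x.2.image q).card
      ≤ a * (L.image p).card *
        (d ^ (2 * a) * P + H ^ (a - 1) * P ^ a * (2 ^ a * a.factorial) * d ^ a * M) := by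
  obtain ⟨N, hN⟩ : ∃ N : α → Finset α, N = fun x => L.filter (fun l => p l = x) := ⟨_, rfl⟩
  have hinj : ∀ x, Set.InjOn q (L.filter (fun l => p l = x) : Finset α) := by
    intro x l hl l' hl' he
    obtain ⟨h1, h2⟩ := mem_filter.1 (mem_coe.1 hl)
    obtain ⟨h3, h4⟩ := mem_filter.1 (mem_coe.1 hl')
    exact hsimple l h1 l' h3 (h2.trans h4.symm) he
  have hinjN : ∀ x, Set.InjOn q (N x) := by rw [hN]; exact hinj
  have hNd : ∀ x, (N x).card ≤ d := by rw [hN]; exact hp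
  have hcen : ∀ σ ∈ St, ∃ x ∈ L.image p, σ ∈ powersetCard a (N x) := by
    intro σ hσ
    obtain ⟨h1, h2, h3, _⟩ := (hSt σ).1 hσ
    obtain ⟨l, hl⟩ : σ.Nonempty := card_pos.1 (by omega)
    refine ⟨p l, mem_image_of_mem _ (h1 hl), mem_powersetCard.2 ⟨fun l' hl' => ?_, h2⟩⟩
    rw [hN]
    exact mem_filter.2 ⟨h1 hl', h3 _ hl' _ hl⟩
  obtain ⟨K, hK⟩ : ∃ K : ℕ, K = H ^ (a - 1) * P ^ a * (2 ^ a * a.factorial) := ⟨_, rfl⟩
  have h1 := cover_PairHigh ((St ×ˢ St).filter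
      (fun x => 2 ≤ (x.1.image q ∩ x.2.image q).card))
    (L.image p ×ˢ (L.image p ×ˢ Icc 2 a))
    (fun z => (powersetCard a (N z.1) ×ˢ powersetCard a (N z.2.1)).filter
        (fun x => (x.1.image q ∩ x.2.image q).card = z.2.2))
    (fun x => P ^ (x.1.image q ∩ x.2.image q).card) (by
      intro s hs
      obtain ⟨hs1, hs2⟩ := mem_filter.1 hs
      obtain ⟨hs3, hs4⟩ := mem_product.1 hs1
      obtain ⟨x, hx, hx1⟩ := hcen _ hs3
      obtain ⟨y, hy, hy1⟩ := hcen _ hs4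
      refine ⟨(x, y, (s.1.image q ∩ s.2.image q).card),
        mem_product.2 ⟨hx, mem_product.2 ⟨hy, mem_Icc.2 ⟨hs2, ?_⟩⟩⟩,
        mem_filter.2 ⟨mem_product.2 ⟨hx1, hy1⟩, rfl⟩⟩
      calc (s.1.image q ∩ s.2.image q).card ≤ (s.1.image q).card := card_le_card inter_subset_left
        _ ≤ s.1.card := card_image_le
        _ = a := (mem_powersetCard.1 hx1).2)
  have h2 : ∀ x y j, j ∈ Icc 2 a →
      H * ∑ s ∈ (powersetCard a (N x) ×ˢ powersetCard a (N y)).filter
        (fun s => (s.1.image q ∩ s.2.image q).card = j), P ^ (s.1.image q ∩ s.2.image q).card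
      ≤ ((N y).filter (fun l => q l ∈ (N x).image q)).card * (P * d ^ (2 * a - 2)) +
        K * ((powersetCard a ((N y).filter (fun l => q l ∈ (N x).image q))).filter R).card := by
    intro x y j hj
    obtain ⟨hj1, hj2⟩ := mem_Icc.1 hj
    rw [sum_congr rfl (g := fun _ => P ^ j) (fun s hs => by rw [(mem_filter.1 hs).2]),
      sum_const, smul_eq_mul, mul_comm _ (P ^ j)]
    have e1 := count_PairHigh (N x) (N y) q (hinjN x) (hinjN y) a d j (hNd x) (hNd y) hsup
    rw [← pre_PairHigh (N y) q (hinjN y) ((N x).image q)] at e1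
    refine le_trans (Nat.mul_le_mul_left _ (Nat.mul_le_mul_left _ e1)) ?_
    rw [hK]
    refine num_PairHigh H _ P d a j t _ hj1 hj2 hH fun u hu => hpd _ y u ?_ hu
    rw [hN]
    exact filter_subset _ _
  have h3 : ∀ x, ∑ y ∈ L.image p,
      (((N y).filter (fun l => q l ∈ (N x).image q)).card * (P * d ^ (2 * a - 2)) +
        K * ((powersetCard a ((N y).filter (fun l => q l ∈ (N x).image q))).filter R).card)
      ≤ d ^ (2 * a) * P + K * d ^ a * M := by
    intro x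
    have hB : ((N x).image q).card ≤ d := card_image_le.trans (hNd x)
    rw [sum_add_distrib, ← sum_mul, ← mul_sum]
    generalize (N x).image q = B at hB
    have e1 := kap_PairHigh L (L.image p) B p q d hq hB
    have e2 := cnt_PairHigh L (L.image p) B p q a d M R (by omega) hinj St
      (fun σ h1 h2 h3 h4 => (hSt σ).2 ⟨h1, h2, h3, h4⟩) hM hB
    subst hN
    refine Nat.add_le_add ((Nat.mul_le_mul_right _ e1).trans (le_of_eq ?_))
      ((Nat.mul_le_mul_left _ e2).trans (le_of_eq (by ring)))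
    obtain ⟨m, rfl⟩ : ∃ m, a = m + 1 := ⟨a - 1, by omega⟩
    have : 2 * (m + 1) - 2 = 2 * m := by omega
    rw [this]
    ring
  refine le_trans (Nat.mul_le_mul_left _ h1) ?_
  rw [mul_sum, sum_product, ← hK]
  calc _ ≤ ∑ _x ∈ L.image p, a * (d ^ (2 * a) * P + K * d ^ a * M) := by
        refine sum_le_sum fun x _ => ?_
        rw [sum_product]
        refine le_trans ?_ (Nat.mul_le_mul_left a (h3 x))
        rw [mul_sum]
        refine sum_le_sum fun y _ => ?_
        refine (sum_le_card_nsmul _ _ _ (fun j hj => h2 x y j hj)).trans ?_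
        rw [smul_eq_mul]
        refine Nat.mul_le_mul_right _ ?_
        rw [Nat.card_Icc]
        omega
    _ = _ := by rw [sum_const, smul_eq_mul]; ring

theorem pair_high {k n : ℕ} (hk : 0 < k) (L : Finset (Fin k → Fin n))
    (p q : (Fin k → Fin n) → (Fin k → Fin n)) (a d τL M P H : ℕ) (ha : 2 ≤ a)
    (hsimple : ∀ l ∈ L, ∀ l' ∈ L, p l = p l' → q l = q l' → l = l')
    (hp : ∀ x, (L.filter (fun l => p l = x)).card ≤ d)
    (hq : ∀ y, (L.filter (fun l => q l = y)).card ≤ d)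
    (hτL : ∀ x i c, (L.filter (fun l => p l = x ∧ l i = c)).card ≤ τL)
    (hM : ∀ J, ((stars L p a).filter (fun σ => σ.image q = J)).card ≤ M)
    (hH : H * P * (2 * (a * k * τL)) ≤ d ^ 2)
    (hsup : ∀ (N Q : Finset (Fin k → Fin n)) (a : ℕ),
      ((powersetCard a N).filter (fun σ => Q ⊆ σ)).card ≤ N.card ^ (a - Q.card))
    (hpd : ∀ (C : Finset (Fin k → Fin n)) (x : ℕ),
      (∀ i c, (C.filter (fun l => l i = c)).card ≤ τL) → x + a * k * τL ≤ C.card →
      x ^ a ≤ a.factorial * ((powersetCard a C).filter pd).card) :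
    H * ∑ x ∈ (stars L p a ×ˢ stars L p a).filter
        (fun x => 2 ≤ (x.1.image q ∩ x.2.image q).card), P ^ (x.1.image q ∩ x.2.image q).card
      ≤ a * (L.image p).card *
        (d ^ (2 * a) * P + H ^ (a - 1) * P ^ a * (2 ^ a * a.factorial) * d ^ a * M) := by
  have _ := hk
  refine abs_PairHigh L p q a d (a * k * τL) M P H ha pd (stars L p a) ?_ hsimple hp hq hM hH
    hsup ?_
  · intro σ
    simp only [stars, mem_filter, mem_powersetCard, and_assoc]
  · intro C x' x hC hx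
    refine hpd C x (fun i c => le_trans (card_le_card fun l hl => ?_) (hτL x' i c)) hx
    obtain ⟨h1, h2⟩ := mem_filter.1 hl
    obtain ⟨h3, h4⟩ := mem_filter.1 (hC h1)
    exact mem_filter.2 ⟨h3, h4, h2⟩

end Pool.Agent.MP_5e38ef_lc.WW

end

section

namespace Pool.Agent.MP_5e38ef_lc.WW
open Finset TP SP

theorem pick_LevelsQ {k n U : ℕ} {T : Type} [DecidableEq T] (A : Fin k × Fin n → Fin (U + 1))
    (Z : Finset ℤ) (cls : ℤ → T) (Q : Finset (Fin k → Fin n)) (D D' m g : ℕ) (hg : 0 < g)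
    (hm : 0 < m) (hc : (Z.image cls).card ≤ m)
    (h : m * g + (bad A Z cls D D').card ≤ (good A Z D ∩ Q).card) :
    ∃ c ∈ Z.image cls, g ≤ (good A (piece Z cls c) D' ∩ Q).card := by
  have h1 : m * g ≤ ((good A Z D ∩ Q) \ bad A Z cls D D').card := by
    have := le_card_sdiff (bad A Z cls D D') (good A Z D ∩ Q)
    omega
  have h2 : ∀ l ∈ (good A Z D ∩ Q) \ bad A Z cls D D', cls (zs A l) ∈ Z.image cls := fun l hl =>
    mem_image_of_mem _ (mem_filter.1 (mem_inter.1 (mem_sdiff.1 hl).1).1).2.1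
  obtain ⟨l0, hl0⟩ : ((good A Z D ∩ Q) \ bad A Z cls D D').Nonempty :=
    card_pos.1 ((Nat.mul_pos hm hg).trans_le h1)
  obtain ⟨c, hc', h3⟩ := exists_le_card_fiber_of_mul_le_card_of_maps_to h2 ⟨_, h2 l0 hl0⟩
    ((Nat.mul_le_mul_right g hc).trans h1)
  refine ⟨c, hc', h3.trans (card_le_card fun l hl => ?_)⟩
  obtain ⟨hl', rfl⟩ := mem_filter.1 hl
  obtain ⟨h4, h5⟩ := mem_sdiff.1 hl'
  refine mem_inter.2 ⟨?_, (mem_inter.1 h4).2⟩
  by_contra h6
  exact h5 (mem_filter.2 ⟨(mem_inter.1 h4).1, h6⟩)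

theorem levelsQ {k n U S W ρ P : ℕ} (pre : (Fin k × Fin n → Fin (U + 1)) → Fin S → Fin W)
    (addr : ℤ → List (Fin W) → Fin S) (hS : S ≤ P * ρ) (B D G : ℕ → ℕ) (H T : ℕ)
    (Q : (Fin k × Fin n → Fin (U + 1)) → Finset (Fin k → Fin n))
    (hQ : H * (univ.filter (fun A => (Q A).card < G 0)).card
      ≤ Fintype.card (Fin k × Fin n → Fin (U + 1)))
    (hB0 : k * U + 1 ≤ B 0) (hB : ∀ s < T, B s ≤ P * B (s + 1)) (hB1 : ∀ s < T, 0 < B (s + 1))
    (hD0 : n ^ (k - 1) ≤ D 0) (hG : ∀ s < T, 0 < G (s + 1))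
    (hns : ∀ s < T, ∀ (Z : Finset ℤ) (cls : ℤ → ℤ ⊕ Fin P), (∀ c, (piece Z cls c).card ≤ B (s + 1)) →
      H * (2 * P * W ^ ρ) ^ s * (univ.filter (fun A : Fin k × Fin n → Fin (U + 1) =>
        G s < 2 * P * G (s + 1) + (bad A Z cls (D s) (D (s + 1))).card)).card
        ≤ Fintype.card (Fin k × Fin n → Fin (U + 1))) :
    ∃ 𝒮 : Finset (Finset ℤ × (ℤ → List (Fin W))), 𝒮.card ≤ (2 * P * W ^ ρ) ^ T ∧
      (∀ σ ∈ 𝒮, σ.1.card ≤ B T) ∧ ∃ X : Finset (Fin k × Fin n → Fin (U + 1)),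
      H * X.card ≤ (T + 1) * Fintype.card (Fin k × Fin n → Fin (U + 1)) ∧
      ∀ A ∉ X, ∃ σ ∈ 𝒮, ∃ R : Finset (Fin S), R.card ≤ T * ρ ∧
        (∀ z ∈ σ.1, reads (addr z) (pre A) T = σ.2 z ∧ inside (addr z) (pre A) T R) ∧
        G T ≤ (good A σ.1 (D T) ∩ Q A).card := by
  classical
  induction T with
  | zero =>
    refine ⟨{(Icc (0 : ℤ) (k * U), fun _ => [])}, by simp, ?_,
      univ.filter (fun A => (Q A).card < G 0), by simpa using hQ, fun A hA =>
      ⟨_, mem_singleton_self _, ∅, by simp, fun z _ => ⟨rfl, fun u hu => absurd hu (by omega)⟩, ?_⟩⟩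
    · intro σ hσ
      rw [mem_singleton.1 hσ, Int.card_Icc]
      have : ((k : ℤ) * U + 1 - 0).toNat = k * U + 1 := by
        rw [show (k : ℤ) * U + 1 - 0 = ((k * U + 1 : ℕ) : ℤ) by push_cast; ring, Int.toNat_natCast]
      omega
    · rw [good_zero_Levels A _ hD0, univ_inter]
      by_contra h
      exact hA (mem_filter.2 ⟨mem_univ _, not_le.1 h⟩)
  | succ T ih =>
    obtain ⟨𝒮, hc, hcB, X, hX, hA⟩ := ih (fun s hs => hB s (by omega))
      (fun s hs => hB1 s (by omega)) (fun s hs => hG s (by omega)) (fun s hs => hns s (by omega))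
    have hT : T < T + 1 := Nat.lt_succ_self T
    obtain ⟨e⟩ : Nonempty (Fin S ↪ Fin P × Fin ρ) :=
      Function.Embedding.nonempty_of_card_le (by simpa using hS)
    have : Nonempty (Fin S) := ⟨addr 0 []⟩
    have hP : 0 < P := (e (addr 0 [])).1.pos
    choose cls hc1 hc2 hc3 using fun σ : Finset ℤ × (ℤ → List (Fin W)) =>
      classesZ σ.1 (B (T + 1)) (hB1 T hT) (fun z => (e (addr z (σ.2 z))).1)
    have hc4 : ∀ σ ∈ 𝒮, (σ.1.image (cls σ)).card ≤ 2 * P := fun σ hσ => by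
      refine Nat.le_of_mul_le_mul_left ((hc3 σ).trans ?_) (hB1 T hT)
      have := (hcB σ hσ).trans (hB T hT)
      nlinarith
    refine ⟨𝒮.biUnion fun σ => ((σ.1.image (cls σ)) ×ˢ (univ : Finset (Fin ρ → Fin W))).image
      fun p => (piece σ.1 (cls σ) p.1, fun z => p.2 (e (addr z (σ.2 z))).2 :: σ.2 z), ?_, ?_,
      X ∪ 𝒮.biUnion fun σ => univ.filter (fun A : Fin k × Fin n → Fin (U + 1) =>
        G T < 2 * P * G (T + 1) + (bad A σ.1 (cls σ) (D T) (D (T + 1))).card), ?_, ?_⟩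
    · refine (card_biUnion_le_card_mul _ _ (2 * P * W ^ ρ) fun σ hσ => ?_).trans ?_
      · refine card_image_le.trans ?_
        rw [card_product, card_univ, Fintype.card_fun, Fintype.card_fin, Fintype.card_fin]
        exact Nat.mul_le_mul_right _ (hc4 σ hσ)
      · rw [pow_succ]
        exact Nat.mul_le_mul_right _ hc
    · intro τ hτ
      obtain ⟨σ, -, hτ⟩ := mem_biUnion.1 hτ
      obtain ⟨p, -, rfl⟩ := mem_image.1 hτ
      exact hc2 σ p.1
    · have h1 := union_small 𝒮 _ _ H _ hc fun σ _ => hns T hT σ.1 (cls σ) (hc2 σ)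
      refine (Nat.mul_le_mul_left H (card_union_le _ _)).trans ?_
      rw [mul_add, add_mul (T + 1), one_mul]
      exact add_le_add hX h1
    · intro A hAX
      obtain ⟨σ, hσ, R, hR, hz, hgood⟩ := hA A fun h => hAX (mem_union_left _ h)
      have h1 : 2 * P * G (T + 1) + (bad A σ.1 (cls σ) (D T) (D (T + 1))).card ≤ G T := by
        by_contra h
        exact hAX (mem_union_right _ (mem_biUnion.2 ⟨σ, hσ, mem_filter.2 ⟨mem_univ _, not_le.1 h⟩⟩))
      obtain ⟨c, hcm, h2⟩ := pick_LevelsQ A σ.1 (cls σ) (Q A) (D T) (D (T + 1)) (2 * P) (G (T + 1))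
        (hG T hT) (by omega) (hc4 σ hσ) (h1.trans hgood)
      obtain ⟨z0, hz0, rfl⟩ := mem_image.1 hcm
      refine ⟨_, mem_biUnion.2 ⟨σ, hσ, mem_image.2 ⟨(cls σ z0, fun x =>
        pre A (Function.invFun e ((e (addr z0 (σ.2 z0))).1, x))),
        mem_product.2 ⟨hcm, mem_univ _⟩, rfl⟩⟩,
        R ∪ univ.filter (fun y => (e y).1 = (e (addr z0 (σ.2 z0))).1), ?_, fun z hzp => ?_, h2⟩
      · refine (card_union_le _ _).trans ?_
        rw [add_mul, one_mul]
        exact add_le_add hR (fibre_Levels e _)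
      · obtain ⟨hz1, hz2⟩ := mem_filter.1 hzp
        have h3 : (e (addr z (σ.2 z))).1 = (e (addr z0 (σ.2 z0))).1 := hc1 σ z hz1 z0 hz0 hz2
        obtain ⟨h4, h5⟩ := hz z hz1
        refine ⟨?_, fun u hu => ?_⟩
        · change pre A (addr z (reads (addr z) (pre A) T)) :: reads (addr z) (pre A) T =
            pre A (Function.invFun e ((e (addr z0 (σ.2 z0))).1, (e (addr z (σ.2 z))).2)) :: σ.2 z
          rw [h4, ← h3, Prod.mk.eta, Function.leftInverse_invFun e.injective]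
        · rcases Nat.lt_succ_iff_lt_or_eq.1 hu with hu | rfl
          · exact mem_union_left _ (h5 u hu)
          · rw [h4]
            exact mem_union_right _ (mem_filter.2 ⟨mem_univ _, h3⟩)

end Pool.Agent.MP_5e38ef_lc.WW

end

section

namespace Pool.Agent.MP_5e38ef_lc.WW
open Finset TP SP

theorem finalW (Q k t a c : ℕ) (hk : 2 ≤ k) (ht : 2 ≤ t) (ha : 2 ≤ a)
    (hpar : ∃ c0 m0 : ℕ, ∀ m, m0 ≤ m → c0 + 1 ≤ m ∧ ∃ u0 : ℕ, ∀ u, u0 ≤ u → ∀ U S w : ℕ,
      2 ^ w ≤ (u ^ ((a * (t - 2 + 2) - 1) * m)) ^ (c + 1) →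
      2 ^ w * (u ^ ((a * (t - 2 + 2) - 1) * m)) ^ (k * (a + 1) + 1) ≤ U ^ a →
      S * u ^ c0 ≤ u ^ (a * (k - 1) * m + (a * (t - 2 + 2) - 1) * m) →
      ParW Q k a (u ^ ((a * (t - 2 + 2) - 1) * m)) U S w (t - 2))
    (habs : ∀ n U S w : ℕ, ParW Q k a n U S w (t - 2) → ¬ Solves k n U S w (t - 2 + 2))
    (δ : ℝ) (hδ : 0 < δ) :
    ∀ᶠ n : ℕ in Filter.atTop, ∀ U S w : ℕ, 2 ^ w ≤ n ^ c →
      2 ^ w * n ^ (k * (a + 1) + 1) ≤ U ^ a → Solves k n U S w t →
        (n : ℝ) ^ (1 + ((k : ℝ) - 1) / ((t : ℝ) - 1 / (a : ℝ)) - δ) ≤ S := by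
  rw [Nat.sub_add_cancel ht] at hpar habs
  obtain ⟨c0, m0, h⟩ := hpar
  obtain ⟨m, hm0, hm1⟩ : ∃ m : ℕ, m0 ≤ m ∧ (c0 : ℝ) + 1 ≤ m * δ := by
    refine ⟨max m0 ⌈((c0 : ℝ) + 1) / δ⌉₊, le_max_left _ _, (div_le_iff₀ hδ).1 ?_⟩
    exact (Nat.le_ceil _).trans (Nat.cast_le.2 (le_max_right _ _))
  obtain ⟨hc, u0, h⟩ := h m hm0
  obtain ⟨q, hq⟩ : ∃ q, a * t = q + 1 + 1 := ⟨a * t - 2, by have := Nat.mul_le_mul ha ht; omega⟩
  rw [hq, Nat.add_sub_cancel] at h
  have hmM : m ≤ (q + 1) * m := Nat.le_mul_of_pos_left _ (by omega)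
  obtain ⟨y, hy⟩ : ∃ y, a * (k - 1) * m + (q + 1) * m = y + c0 + 1 :=
    ⟨a * (k - 1) * m + (q + 1) * m - (c0 + 1), by omega⟩
  have hx : 1 + ((k : ℝ) - 1) / ((t : ℝ) - 1 / (a : ℝ)) - δ ≤
      (((q + 1) * m : ℕ) : ℝ)⁻¹ * y := by
    have h1 : (0 : ℝ) < (((q + 1) * m : ℕ) : ℝ) := by exact_mod_cast (by omega : 0 < (q + 1) * m)
    have h2 : (a : ℝ) * (k - 1) * m + (q + 1) * m = y + c0 + 1 := by
      rw [← Nat.cast_pred (by omega)]
      exact_mod_cast hy
    have h3 : (0 : ℝ) ≤ q * (m * δ) := by positivity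
    have h0 : (0 : ℝ) < a := by exact_mod_cast (by omega : 0 < a)
    have h4 : (t : ℝ) - 1 / a = (q + 1) / a := by
      have : (a : ℝ) * t = q + 1 + 1 := by exact_mod_cast hq
      field_simp
      linarith
    rw [le_inv_mul_iff₀ h1, h4]
    push_cast
    have h5 : ((q : ℝ) + 1) * m * (1 + (k - 1) / ((q + 1) / a) - δ) =
        (q + 1) * m + a * (k - 1) * m - (q * (m * δ) + m * δ) := by
      field_simp
    rw [h5]
    linarith
  generalize (q + 1) * m = M at *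
  have hM : 0 < M := by omega
  refine (Filter.eventually_ge_atTop (max u0 (max (2 ^ y) (2 ^ c)) ^ M)).mono
    fun n hn U S w h1 h2 h4 => ?_
  obtain ⟨u, hu, hu1, hu2⟩ := root_Final hM hn
  have hy2 : 2 ^ y ≤ u := ((le_max_left _ _).trans (le_max_right _ _)).trans hu
  have hc2 : 2 ^ c ≤ u := ((le_max_right _ _).trans (le_max_right _ _)).trans hu
  have hu0 : 0 < u := lt_of_lt_of_le (by positivity) hy2
  have hn1 : 1 ≤ n := le_trans (Nat.pow_pos hu0) hu1
  have hn2 : n ≤ (2 * u) ^ M := hu2.le.trans (Nat.pow_le_pow_left (by omega) _)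
  by_contra hS
  refine habs _ U S w (h u ((le_max_left _ _).trans hu) U S w ?_
    ((Nat.mul_le_mul_left _ (Nat.pow_le_pow_left hu1 _)).trans h2) ?_)
    (mono_Final h4 (Nat.pow_pos hu0) hu1)
  · calc 2 ^ w ≤ ((2 * u) ^ M) ^ c := h1.trans (Nat.pow_le_pow_left hn2 _)
      _ = (2 ^ c) ^ M * (u ^ M) ^ c := by ring
      _ ≤ u ^ M * (u ^ M) ^ c := Nat.mul_le_mul_right _ (Nat.pow_le_pow_left hc2 _)
      _ = (u ^ M) ^ (c + 1) := by ring
  · have h5 : (S : ℝ) ≤ (((2 * u) ^ y : ℕ) : ℝ) := by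
      refine (not_le.1 hS).le.trans ((Real.rpow_le_rpow_of_exponent_le (by exact_mod_cast hn1)
        hx).trans ?_)
      have h6 : (n : ℝ) ≤ ((2 * u : ℕ) : ℝ) ^ M := by exact_mod_cast hn2
      refine (Real.rpow_le_rpow (Nat.cast_nonneg _) h6 (by positivity)).trans (le_of_eq ?_)
      rw [Real.rpow_mul (by positivity), Real.pow_rpow_inv_natCast (Nat.cast_nonneg _) hM.ne',
        Real.rpow_natCast, Nat.cast_pow]
    have h6 : S ≤ u * u ^ y :=
      (Nat.cast_le.1 h5).trans (by rw [mul_pow]; exact Nat.mul_le_mul_right _ hy2)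
    rw [hy]
    calc S * u ^ c0 ≤ u * u ^ y * u ^ c0 := Nat.mul_le_mul_right _ h6
      _ = u ^ (y + c0 + 1) := by ring

end Pool.Agent.MP_5e38ef_lc.WW

end
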