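import Pool.Agent.Mg.F5e38efa.Gbe7db9
import Pool.Agent.Mg.F5e38efa.G478d36

section

namespace Pool.Agent.MP_5e38ef_lc.WW

open Finset TP SP

theorem heavy_Regular {Λ C : Type} [Fintype C] [DecidableEq C] (F : Finset Λ) (col : Λ → C)
    (d τ gg : ℕ) (hF : F.card ≤ d) (h2 : d ≤ τ * gg) :
    ((univ : Finset C).filter (fun c => τ < (F.filter (fun l => col l = c)).card)).card ≤ gg := by
  set H := (univ : Finset C).filter (fun c => τ < (F.filter (fun l => col l = c)).card) with hH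
  have h3 : F.card = ∑ c ∈ (univ : Finset C), (F.filter (fun l => col l = c)).card :=
    card_eq_sum_card_fiberwise fun x _ => mem_coe.2 (mem_univ _)
  have h4 : ∑ c ∈ H, (F.filter (fun l => col l = c)).card ≤
      ∑ c ∈ (univ : Finset C), (F.filter (fun l => col l = c)).card :=
    sum_le_sum_of_subset (subset_univ _)
  have h5 : H.card • (τ + 1) ≤ ∑ c ∈ H, (F.filter (fun l => col l = c)).card :=
    card_nsmul_le_sum _ _ _ fun c hc => (mem_filter.1 hc).2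
  rw [smul_eq_mul] at h5
  by_contra hlt
  have h6 : (gg + 1) * (τ + 1) ≤ H.card * (τ + 1) := Nat.mul_le_mul_right _ (by omega)
  nlinarith

theorem light_Regular {k n : ℕ} (hk : 0 < k) (L1 : Finset (Fin k → Fin n))
    (q : (Fin k → Fin n) → (Fin k → Fin n)) (d τ gg : ℕ)
    (hq : ∀ r, (L1.filter (fun l => q l = r)).card ≤ d) (hi : d * (L1.image q).card ≤ L1.card)
    (h2 : d ≤ τ * gg) (h3 : 2 * gg ^ k ≤ d) :
    ∃ i0 : Fin k, ∃ L2 ⊆ L1, L1.card ≤ 2 * k * L2.card ∧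
      ∀ y c, (L2.filter (fun l => q l = y ∧ l i0 = c)).card ≤ τ := by
  let M : Fin k → Finset (Fin k → Fin n) := fun i =>
    L1.filter fun l => ((L1.filter (fun l' => q l' = q l)).filter (fun l' => l' i = l i)).card ≤ τ
  obtain ⟨i0, -, hi0⟩ := exists_max_image univ (fun i => (M i).card) ⟨⟨0, hk⟩, mem_univ _⟩
  refine ⟨i0, M i0, filter_subset _ _, ?_, ?_⟩
  · have h6 : L1 ⊆ univ.biUnion M ∪ (L1.image q).biUnion fun y => Fintype.piFinset fun i =>
        (univ : Finset (Fin n)).filter (fun c => τ <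
          ((L1.filter (fun l' => q l' = y)).filter (fun l' => l' i = c)).card) := by
      intro l hl
      by_cases h7 : ∃ i, l ∈ M i
      · obtain ⟨i, hi⟩ := h7
        exact mem_union_left _ (mem_biUnion.2 ⟨i, mem_univ _, hi⟩)
      · refine mem_union_right _ (mem_biUnion.2 ⟨q l, mem_image_of_mem _ hl,
          Fintype.mem_piFinset.2 fun i => mem_filter.2 ⟨mem_univ _, ?_⟩⟩)
        by_contra h8
        exact h7 ⟨i, mem_filter.2 ⟨hl, not_lt.1 h8⟩⟩
    have h9 : L1.card ≤ k * (M i0).card + (L1.image q).card * gg ^ k := by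
      refine (card_le_card h6).trans ((card_union_le _ _).trans (add_le_add ?_ ?_))
      · refine (card_biUnion_le_card_mul _ _ _ fun i hi => hi0 i hi).trans ?_
        rw [card_univ, Fintype.card_fin]
      · refine card_biUnion_le_card_mul _ _ (gg ^ k) fun y _ => ?_
        rw [Fintype.card_piFinset]
        refine (prod_le_pow_card _ _ gg fun i _ =>
          heavy_Regular _ (fun l' : Fin k → Fin n => l' i) d τ gg (hq y) h2).trans ?_
        rw [card_univ, Fintype.card_fin]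
    have h10 : (L1.image q).card * (2 * gg ^ k) ≤ (L1.image q).card * d :=
      Nat.mul_le_mul_left _ h3
    nlinarith
  · intro y c
    rcases ((M i0).filter (fun l => q l = y ∧ l i0 = c)).eq_empty_or_nonempty with h | ⟨l0, h⟩
    · rw [h]; exact Nat.zero_le _
    · obtain ⟨h4, h5, h6⟩ := mem_filter.1 h
      refine (card_le_card fun l hl => ?_).trans (mem_filter.1 h4).2
      obtain ⟨h7, h8, h9⟩ := mem_filter.1 hl
      exact mem_filter.2 ⟨mem_filter.2 ⟨(mem_filter.1 h7).1, h8.trans h5.symm⟩, h9.trans h6.symm⟩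

theorem regular {k n S : ℕ} {X : Type} [DecidableEq X] (hk : 0 < k)
    (E : Finset (Fin k → Fin n)) (f : (Fin k → Fin n) → X) (g : (Fin k → Fin n) → Fin S)
    (μ d τ gg Sb : ℕ) (hd : 0 < d)
    (hμ : ∀ x y, (E.filter (fun l => f l = x ∧ g l = y)).card ≤ μ)
    (hf : (E.image f).card ≤ 2 * Sb) (h1 : 2 * S * μ * d ≤ E.card) (h2 : d ≤ τ * gg)
    (h3 : 2 * gg ^ k ≤ d) (h4 : 16 * k * Sb * d ≤ E.card) :
    ∃ i0 : Fin k, ∃ L ⊆ E, ∃ p q : (Fin k → Fin n) → (Fin k → Fin n),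
      (∀ l ∈ L, ∀ l' ∈ L, p l = p l' → f l = f l') ∧
      (∀ l ∈ L, ∀ l' ∈ L, q l = q l' → g l = g l') ∧
      (∀ l ∈ L, ∀ l' ∈ L, q l = q l' → f l = f l' → l = l') ∧
      (∀ l ∈ L, (L.filter (fun l' => p l' = p l)).card = d) ∧
      (∀ y, (L.filter (fun l => q l = y)).card ≤ d) ∧
      (∀ y c, (L.filter (fun l => q l = y ∧ l i0 = c)).card ≤ τ) ∧
      d * (L.image p).card = L.card ∧ (L.image q).card ≤ 4 * k * (L.image p).card ∧
      E.card ≤ 8 * k * L.card := by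
  obtain ⟨L1, hL1, q, a1, a2, a3, a4, a5⟩ := groups g f d hd E
  have b1 : (E \ L1).card ≤ S * (μ * d) := by
    have e : (E \ L1).card = ∑ y ∈ (univ : Finset (Fin S)),
        ((E \ L1).filter (fun l => g l = y)).card :=
      card_eq_sum_card_fiberwise fun x _ => mem_coe.2 (mem_univ _)
    rw [e]
    refine (sum_le_card_nsmul _ _ (μ * d) fun y _ => ?_).trans ?_
    · refine (card_le_mul_card_image (f := f) _ μ fun x _ => ?_).trans
        (Nat.mul_le_mul_left _ (a5 y).le)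
      refine (card_le_card fun l hl => ?_).trans (hμ x y)
      obtain ⟨h5, h6⟩ := mem_filter.1 hl
      obtain ⟨h7, h8⟩ := mem_filter.1 h5
      exact mem_filter.2 ⟨(mem_sdiff.1 h7).1, h6, h8⟩
    · rw [card_univ, Fintype.card_fin, smul_eq_mul]
  have b2 : E.card ≤ 2 * L1.card := by
    have e := card_sdiff_add_card_eq_card hL1
    nlinarith
  obtain ⟨i0, L2, hL2, b3, b4⟩ := light_Regular hk L1 q d τ gg a3 a4 h2 h3
  obtain ⟨L, hL, p, c1, -, c3, c4, c5⟩ := groups f id d hd L2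
  have b5 : (L2 \ L).card ≤ d * (2 * Sb) := by
    refine (card_le_mul_card_image (f := f) _ d fun x _ => ?_).trans
      (Nat.mul_le_mul_left _ ((card_le_card (image_subset_image ?_)).trans hf))
    · have h5 := (c5 x).le
      rwa [image_id] at h5
    · exact sdiff_subset.trans (hL2.trans hL1)
  have b6 : 4 * Sb * d ≤ L2.card := by
    refine Nat.le_of_mul_le_mul_left (c := 4 * k) ?_ (by omega)
    nlinarith
  have b7 : L2.card ≤ 2 * L.card := by
    have e := card_sdiff_add_card_eq_card hL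
    nlinarith
  have b8 : d * (L.image p).card = L.card :=
    le_antisymm c4 (card_le_mul_card_image (f := p) _ d fun x _ => c3 x)
  have hLL : L ⊆ L1 := hL.trans hL2
  have b9 : L1.card ≤ 4 * k * L.card := by nlinarith [Nat.mul_le_mul_left (2 * k) b7]
  refine ⟨i0, L, hLL.trans hL1, p, q, ?_, ?_, ?_, ?_, ?_, ?_, b8, ?_, ?_⟩
  · intro l hl l' hl' e
    rw [← (c1 l hl).2, ← (c1 l' hl').2, e]
  · intro l hl l' hl' e
    rw [← (a1 l (hLL hl)).2, ← (a1 l' (hLL hl')).2, e]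
  · exact fun l hl l' hl' => a2 l (hLL hl) l' (hLL hl')
  · intro l hl
    have e : ∑ r ∈ L.image p, (L.filter (fun l' => p l' = r)).card = ∑ _r ∈ L.image p, d := by
      rw [← card_eq_sum_card_image, sum_const, smul_eq_mul, mul_comm, b8]
    exact (sum_eq_sum_iff_of_le fun r _ => c3 r).1 e (p l) (mem_image_of_mem _ hl)
  · exact fun y => (card_le_card (filter_subset_filter _ hLL)).trans (a3 y)
  · exact fun y c => (card_le_card (filter_subset_filter _ hL)).trans (b4 y c)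
  · refine Nat.le_of_mul_le_mul_left (c := d) ?_ hd
    have h5 := Nat.mul_le_mul_left d (card_le_card (image_subset_image (f := q) hLL))
    calc d * (L.image q).card ≤ 4 * k * L.card := h5.trans (a4.trans b9)
      _ = d * (4 * k * (L.image p).card) := by rw [← b8]; ring
  · nlinarith

end Pool.Agent.MP_5e38ef_lc.WW

end

section

namespace Pool.Agent.MP_5e38ef_lc.WW
open Finset TP SP

theorem fib_PairLow {α β : Type} [DecidableEq β] (s : Finset α) (t : Finset β) (f : α → β)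
    (a m : ℕ) (ht : t.card ≤ a) (h : ∀ b, (s.filter (fun x => f x = b)).card ≤ m) :
    (s.filter (fun x => f x ∈ t)).card ≤ a * m := by
  refine (card_le_mul_card_image_of_maps_to (f := f) (t := t)
    (fun x hx => (mem_filter.1 hx).2) m fun b _ => ?_).trans ?_
  · exact (card_le_card (filter_subset_filter _ (filter_subset _ _))).trans (h b)
  · rw [mul_comm]
    exact Nat.mul_le_mul_right _ ht

theorem cnt_PairLow {k n : ℕ} (L : Finset (Fin k → Fin n))
    (p : (Fin k → Fin n) → (Fin k → Fin n)) (a d : ℕ)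
    (hp : ∀ x, (L.filter (fun l => p l = x)).card ≤ d)
    (hsup : ∀ (N Q : Finset (Fin k → Fin n)) (a : ℕ),
      ((powersetCard a N).filter (fun σ => Q ⊆ σ)).card ≤ N.card ^ (a - Q.card))
    (Q : Finset (Fin k → Fin n)) (e : Fin k → Fin n) (he : e ∈ Q) :
    ((stars L p a).filter (fun σ => Q ⊆ σ)).card ≤ d ^ (a - Q.card) := by
  refine le_trans (card_le_card ?_) ((hsup (L.filter (fun l => p l = p e)) Q a).trans
    (Nat.pow_le_pow_left (hp _) _))
  intro σ hσ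
  simp only [stars, mem_filter, mem_powersetCard] at hσ ⊢
  obtain ⟨⟨⟨h1, h2⟩, h3, -⟩, h4⟩ := hσ
  exact ⟨⟨fun l hl => mem_filter.2 ⟨h1 hl, h3 l hl e (h4 he)⟩, h2⟩, h4⟩

theorem inner_PairLow {k n : ℕ} (L : Finset (Fin k → Fin n))
    (p q : (Fin k → Fin n) → (Fin k → Fin n)) (i0 : Fin k) (a d τ τL Δ P : ℕ) (ha : 2 ≤ a)
    (hp : ∀ x, (L.filter (fun l => p l = x)).card ≤ d)
    (hq : ∀ y, (L.filter (fun l => q l = y)).card ≤ d)
    (hτ : ∀ y c, (L.filter (fun l => q l = y ∧ l i0 = c)).card ≤ τ)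
    (hτL : ∀ x c, (L.filter (fun l => p l = x ∧ l i0 = c)).card ≤ τL)
    (hΔ : ∀ c, (L.filter (fun l => l i0 = c)).card ≤ Δ)
    (hsup : ∀ (N Q : Finset (Fin k → Fin n)) (a : ℕ),
      ((powersetCard a N).filter (fun σ => Q ⊆ σ)).card ≤ N.card ^ (a - Q.card))
    (σ : Finset (Fin k → Fin n)) (hσ : σ.card = a) :
    ∑ σ' ∈ (stars L p a).filter (fun σ' => (∃ l ∈ σ, ∃ l' ∈ σ', l i0 = l' i0) ∧
        (σ.image q ∩ σ'.image q).card ≤ 1), P ^ (σ.image q ∩ σ'.image q).card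
      ≤ a * Δ * d ^ (a - 1) + P * (a ^ 2 * (τ + τL) * d ^ (a - 1)) := by
  obtain ⟨C, hC⟩ : ∃ C, C = σ.image (fun l => l i0) := ⟨_, rfl⟩
  obtain ⟨Y, hY⟩ : ∃ Y, Y = σ.image q := ⟨_, rfl⟩
  have cC : C.card ≤ a := by rw [hC, ← hσ]; exact card_image_le
  have cY : Y.card ≤ a := by rw [hY, ← hσ]; exact card_image_le
  have one : ∀ e, ((stars L p a).filter (fun σ' => {e} ⊆ σ')).card ≤ d ^ (a - 1) := fun e => by
    simpa only [card_singleton] using cnt_PairLow L p a d hp hsup {e} e (mem_singleton_self e)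
  have hL : ∀ σ' ∈ stars L p a, σ' ⊆ L ∧ ∀ l ∈ σ', ∀ l' ∈ σ', p l = p l' := by
    intro σ' h
    simp only [stars, mem_filter, mem_powersetCard] at h
    exact ⟨h.1.1, h.2.1⟩
  rw [← hY]
  obtain ⟨S, hS⟩ : ∃ S, S = (stars L p a).filter (fun σ' => (∃ l ∈ σ, ∃ l' ∈ σ', l i0 = l' i0) ∧
    (Y ∩ σ'.image q).card ≤ 1) := ⟨_, rfl⟩
  rw [← hS]
  have mS : ∀ σ' ∈ S, σ' ∈ stars L p a ∧ (∃ l' ∈ σ', l' i0 ∈ C) ∧ (Y ∩ σ'.image q).card ≤ 1 := by
    intro σ' h
    rw [hS, mem_filter] at h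
    obtain ⟨h1, ⟨l, hl, l', hl', e⟩, h2⟩ := h
    exact ⟨h1, ⟨l', hl', by rw [hC]; exact mem_image.2 ⟨l, hl, e⟩⟩, h2⟩
  have c0 : S.card ≤ a * Δ * d ^ (a - 1) := by
    have sub : S ⊆ (L.filter (fun l => l i0 ∈ C)).biUnion
        (fun e => (stars L p a).filter (fun σ' => {e} ⊆ σ')) := by
      intro σ' h
      obtain ⟨h1, ⟨e, he, hc⟩, -⟩ := mS σ' h
      exact mem_biUnion.2 ⟨e, mem_filter.2 ⟨(hL σ' h1).1 he, hc⟩,
        mem_filter.2 ⟨h1, singleton_subset_iff.2 he⟩⟩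
    refine (card_le_card sub).trans ((card_biUnion_le_card_mul _ _ _ fun e _ => one e).trans ?_)
    exact Nat.mul_le_mul_right _ (fib_PairLow L C (fun l => l i0) a Δ cC hΔ)
  have c1 : (S.filter (fun σ' => (Y ∩ σ'.image q).Nonempty)).card ≤
      a ^ 2 * (τ + τL) * d ^ (a - 1) := by
    have sub : S.filter (fun σ' => (Y ∩ σ'.image q).Nonempty) ⊆
        (L.filter (fun l => (q l, l i0) ∈ Y ×ˢ C)).biUnion
          (fun e => (stars L p a).filter (fun σ' => {e} ⊆ σ')) ∪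
        (L.filter (fun l => q l ∈ Y)).biUnion (fun e' =>
          (((L.filter (fun l => p l = p e')).filter (fun l => l i0 ∈ C)).erase e').biUnion
            (fun e => (stars L p a).filter (fun σ' => {e, e'} ⊆ σ'))) := by
      intro σ' h
      obtain ⟨h0, y, hy⟩ := mem_filter.1 h
      obtain ⟨h1, ⟨e, he, hc⟩, -⟩ := mS σ' h0
      obtain ⟨hy1, hy2⟩ := mem_inter.1 hy
      obtain ⟨e', he', rfl⟩ := mem_image.1 hy2
      obtain ⟨s1, s2⟩ := hL σ' h1
      by_cases hee : e = e'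
      · subst hee
        exact mem_union_left _ (mem_biUnion.2 ⟨e, mem_filter.2 ⟨s1 he, mem_product.2 ⟨hy1, hc⟩⟩,
          mem_filter.2 ⟨h1, singleton_subset_iff.2 he⟩⟩)
      · refine mem_union_right _ (mem_biUnion.2 ⟨e', mem_filter.2 ⟨s1 he', hy1⟩,
          mem_biUnion.2 ⟨e, mem_erase.2 ⟨hee, mem_filter.2
            ⟨mem_filter.2 ⟨s1 he, s2 e he e' he'⟩, hc⟩⟩, mem_filter.2 ⟨h1, ?_⟩⟩⟩)
        exact insert_subset he (singleton_subset_iff.2 he')
    have b1 : (L.filter (fun l => (q l, l i0) ∈ Y ×ˢ C)).card ≤ a * a * τ := by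
      refine fib_PairLow L (Y ×ˢ C) (fun l => (q l, l i0)) (a * a) τ ?_ fun b => ?_
      · rw [card_product]
        exact Nat.mul_le_mul cY cC
      · simpa only [Prod.ext_iff] using hτ b.1 b.2
    have b2 : (L.filter (fun l => q l ∈ Y)).card ≤ a * d := fib_PairLow L Y q a d cY hq
    have b3 : ∀ e', ((((L.filter (fun l => p l = p e')).filter (fun l => l i0 ∈ C)).erase e').biUnion
        (fun e => (stars L p a).filter (fun σ' => {e, e'} ⊆ σ'))).card ≤
        a * τL * d ^ (a - 2) := by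
      intro e'
      refine (card_biUnion_le_card_mul _ _ (d ^ (a - 2)) fun e he => ?_).trans
        (Nat.mul_le_mul_right _ (card_erase_le.trans ?_))
      · have := cnt_PairLow L p a d hp hsup {e, e'} e (mem_insert_self _ _)
        rwa [card_pair (mem_erase.1 he).1] at this
      · refine fib_PairLow (L.filter (fun l => p l = p e')) C (fun l => l i0) a τL cC fun c => ?_
        rw [filter_filter]
        exact hτL _ c
    have e : d ^ (a - 1) = d * d ^ (a - 2) := by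
      rw [← pow_succ']
      congr 1
      omega
    refine (card_le_card sub).trans ((card_union_le _ _).trans ?_)
    refine (Nat.add_le_add
      ((card_biUnion_le_card_mul _ _ _ fun e _ => one e).trans (Nat.mul_le_mul_right _ b1))
      ((card_biUnion_le_card_mul _ _ _ fun e' _ => b3 e').trans
        (Nat.mul_le_mul_right _ b2))).trans (le_of_eq ?_)
    rw [e]
    ring
  calc ∑ σ' ∈ S, P ^ (Y ∩ σ'.image q).card
      ≤ ∑ σ' ∈ S, (1 + if (Y ∩ σ'.image q).Nonempty then P else 0) := by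
        refine sum_le_sum fun σ' h => ?_
        have h1 := (mS σ' h).2.2
        split_ifs with h2
        · have h3 := h2.card_pos
          rw [show (Y ∩ σ'.image q).card = 1 by omega, pow_one]
          omega
        · rw [not_nonempty_iff_eq_empty.1 h2]
          simp
    _ = S.card + P * (S.filter (fun σ' => (Y ∩ σ'.image q).Nonempty)).card := by
        rw [sum_add_distrib, ← sum_filter, sum_const, sum_const, smul_eq_mul, smul_eq_mul, mul_one,
          mul_comm]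
    _ ≤ _ := Nat.add_le_add c0 (Nat.mul_le_mul_left _ c1)

theorem pair_low {k n : ℕ} (L : Finset (Fin k → Fin n))
    (p q : (Fin k → Fin n) → (Fin k → Fin n)) (i0 : Fin k) (a d τ τL Δ P : ℕ) (ha : 2 ≤ a)
    (hp : ∀ x, (L.filter (fun l => p l = x)).card ≤ d)
    (hq : ∀ y, (L.filter (fun l => q l = y)).card ≤ d)
    (hτ : ∀ y c, (L.filter (fun l => q l = y ∧ l i0 = c)).card ≤ τ)
    (hτL : ∀ x c, (L.filter (fun l => p l = x ∧ l i0 = c)).card ≤ τL)
    (hΔ : ∀ c, (L.filter (fun l => l i0 = c)).card ≤ Δ)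
    (hsup : ∀ (N Q : Finset (Fin k → Fin n)) (a : ℕ),
      ((powersetCard a N).filter (fun σ => Q ⊆ σ)).card ≤ N.card ^ (a - Q.card)) :
    ∑ x ∈ (stars L p a ×ˢ stars L p a).filter (fun x => (∃ l ∈ x.1, ∃ l' ∈ x.2, l i0 = l' i0) ∧
        (x.1.image q ∩ x.2.image q).card ≤ 1), P ^ (x.1.image q ∩ x.2.image q).card
      ≤ (stars L p a).card *
        (a * Δ * d ^ (a - 1) + P * (a ^ 2 * (τ + τL) * d ^ (a - 1))) := by
  rw [sum_filter, sum_product, ← smul_eq_mul]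
  refine sum_le_card_nsmul _ _ _ fun σ hσ => ?_
  rw [← sum_filter]
  exact inner_PairLow L p q i0 a d τ τL Δ P ha hp hq hτ hτL hΔ hsup σ
    (mem_powersetCard.1 (mem_filter.1 hσ).1).2

end Pool.Agent.MP_5e38ef_lc.WW

end

section

namespace Pool.Agent.MP_5e38ef_lc.WW
open Finset TP SP

lemma image_factor {α β γ : Type} [DecidableEq β] [DecidableEq γ] (F : Finset α) (q : α → β)
    (g : α → γ) (h : ∀ l ∈ F, ∀ l' ∈ F, q l = q l' → g l = g l') :
    (F.image g).card ≤ (F.image q).card := by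
  refine card_le_card_of_forall_subsingleton (fun y x => ∃ l ∈ F, g l = y ∧ q l = x) ?_ ?_
  · intro y hy
    obtain ⟨l, hl, rfl⟩ := mem_image.1 hy
    exact ⟨q l, mem_image_of_mem _ hl, l, hl, rfl, rfl⟩
  · rintro x - y ⟨-, l, hl, rfl, e⟩ y' ⟨-, l', hl', rfl, e'⟩
    exact h l hl l' hl' (e.trans e'.symm)

lemma mem_stars {k n : ℕ} {L : Finset (Fin k → Fin n)} {p : (Fin k → Fin n) → (Fin k → Fin n)}
    {a : ℕ} {σ : Finset (Fin k → Fin n)} : σ ∈ stars L p a ↔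
      (σ ⊆ L ∧ σ.card = a) ∧ (∀ l ∈ σ, ∀ l' ∈ σ, p l = p l') ∧ pd σ := by
  rw [stars, mem_filter, mem_powersetCard]

lemma stars_count {k n : ℕ} (hk : 0 < k) (L : Finset (Fin k → Fin n))
    (p : (Fin k → Fin n) → (Fin k → Fin n)) (a d τL : ℕ) (ha : 0 < a)
    (hp : ∀ l ∈ L, (L.filter (fun l' => p l' = p l)).card = d)
    (hτL : ∀ x i c, (L.filter (fun l => p l = x ∧ l i = c)).card ≤ τL)
    (hd : 2 * (a * k * τL) ≤ d) :
    (L.image p).card * d ^ a ≤ 2 ^ a * a.factorial * (stars L p a).card := by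
  have h1 : (L.image p).biUnion
      (fun x => (powersetCard a (L.filter (fun l => p l = x))).filter pd) ⊆ stars L p a := by
    intro σ hσ
    obtain ⟨x, -, hx⟩ := mem_biUnion.1 hσ
    obtain ⟨h1, h2⟩ := mem_filter.1 hx
    obtain ⟨h3, h4⟩ := mem_powersetCard.1 h1
    exact mem_stars.2 ⟨⟨h3.trans (filter_subset _ _), h4⟩, fun l hl l' hl' =>
      (mem_filter.1 (h3 hl)).2.trans (mem_filter.1 (h3 hl')).2.symm, h2⟩
  have h2 := card_le_card h1
  rw [card_biUnion] at h2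
  · refine le_trans ?_ (Nat.mul_le_mul_left _ h2)
    rw [mul_sum, ← smul_eq_mul]
    refine card_nsmul_le_sum _ _ _ fun x hx => ?_
    obtain ⟨l, hl, rfl⟩ := mem_image.1 hx
    have h3 := pd_count (L.filter (fun l' => p l' = p l)) τL (d - a * k * τL) a (fun i c => by
      rw [filter_filter]; exact hτL _ i c) hk (by rw [hp l hl]; omega)
    calc d ^ a ≤ (2 * (d - a * k * τL)) ^ a := Nat.pow_le_pow_left (by omega) _
      _ = 2 ^ a * (d - a * k * τL) ^ a := mul_pow _ _ _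
      _ ≤ _ := (Nat.mul_le_mul_left _ h3).trans (le_of_eq (mul_assoc _ _ _).symm)
  · intro x _ x' _ hne
    refine disjoint_left.2 fun σ h1 h2 => hne ?_
    obtain ⟨h3, h4⟩ := mem_powersetCard.1 (mem_filter.1 h1).1
    obtain ⟨h5, -⟩ := mem_powersetCard.1 (mem_filter.1 h2).1
    obtain ⟨l, hl⟩ := card_pos.1 (h4 ▸ ha)
    exact (mem_filter.1 (h3 hl)).2.symm.trans (mem_filter.1 (h5 hl)).2

lemma pairs_num {a y F V X1 X2 d τ τL Δ P H D0 M : ℕ} (ha : 2 ≤ a) (hH : 0 < H)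
    (hV : V * d ^ a ≤ y * F)
    (h1 : X1 ≤ F * (a * Δ * d ^ (a - 1) + P * (a ^ 2 * (τ + τL) * d ^ (a - 1))))
    (h2 : H * X2 ≤ a * V * (d ^ (2 * a) * P + H ^ (a - 1) * P ^ a * y * d ^ a * M))
    (n1 : Δ * d ^ (a - 1) ≤ D0 * P ^ a) (n2 : τ * d ^ (a - 1) ≤ D0 * P ^ (a - 1)) (n3 : τL ≤ τ)
    (n4 : d ^ a ≤ H * D0 * P ^ (a - 1)) (n5 : H ^ (a - 2) * M ≤ D0) :
    X1 + X2 ≤ (a + 2 * a ^ 2 + a * y + a * y ^ 2) * D0 * F * P ^ a := by
  obtain ⟨b, rfl⟩ := Nat.exists_eq_add_of_le' ha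
  simp only [show b + 2 - 1 = b + 1 by omega, Nat.add_sub_cancel] at *
  have e1 : X1 ≤ (b + 2 + 2 * (b + 2) ^ 2) * D0 * F * P ^ (b + 2) := by
    refine h1.trans ?_
    have u1 := Nat.mul_le_mul_left (b + 2) n1
    have u2 : (τ + τL) * d ^ (b + 1) ≤ 2 * (D0 * P ^ (b + 1)) := by
      have := Nat.mul_le_mul_right (d ^ (b + 1)) n3
      rw [add_mul]; omega
    have u3 := Nat.mul_le_mul_left (P * (b + 2) ^ 2) u2
    calc _ = F * ((b + 2) * (Δ * d ^ (b + 1)) + P * (b + 2) ^ 2 * ((τ + τL) * d ^ (b + 1))) := by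
          ring
      _ ≤ F * ((b + 2) * (D0 * P ^ (b + 2)) + P * (b + 2) ^ 2 * (2 * (D0 * P ^ (b + 1)))) :=
          Nat.mul_le_mul_left _ (Nat.add_le_add u1 u3)
      _ = _ := by ring
  have e2 : X2 ≤ ((b + 2) * y + (b + 2) * y ^ 2) * D0 * F * P ^ (b + 2) := by
    refine Nat.le_of_mul_le_mul_left (h2.trans ?_) hH
    have u1 := Nat.mul_le_mul_right P n4
    have u2 := Nat.mul_le_mul_left (H * P ^ (b + 2) * y) n5
    calc _ = (b + 2) * (V * d ^ (b + 2)) *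
          (d ^ (b + 2) * P + H * P ^ (b + 2) * y * (H ^ b * M)) := by ring
      _ ≤ (b + 2) * (y * F) * (H * D0 * P ^ (b + 1) * P + H * P ^ (b + 2) * y * D0) :=
          Nat.mul_le_mul (Nat.mul_le_mul_left _ hV) (Nat.add_le_add u1 u2)
      _ = _ := by ring
  calc X1 + X2 ≤ _ := Nat.add_le_add e1 e2
    _ = _ := by ring

lemma avg_num {k a y C F V Y N d P D0 h r0 : ℕ} (ha : 2 ≤ a) (hk : 0 < k) (hy : 0 < y)
    (hV : V * d ^ a ≤ y * F) (hN : N ≤ 16 * k * (d * V)) (hY : Y ≤ 4 * k * V)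
    (n1 : 32 * k * (4 * y * C) * D0 * P ^ a * r0 ≤ N * d ^ (a - 1))
    (n2 : 8 * k * h * (4 * y * C) * D0 * P ^ (a - 1) ≤ d ^ a) :
    4 * (C * D0) * P ^ a * (P * r0 + h * Y) ≤ F * P := by
  obtain ⟨b, rfl⟩ := Nat.exists_eq_add_of_le' (show 1 ≤ a by omega)
  simp only [Nat.add_sub_cancel] at *
  have e1 : 2 * (4 * y * C * D0 * P ^ (b + 1) * r0) ≤ V * d ^ (b + 1) := by
    refine Nat.le_of_mul_le_mul_left ?_ (show 0 < 16 * k by omega)
    calc _ = 32 * k * (4 * y * C) * D0 * P ^ (b + 1) * r0 := by ring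
      _ ≤ _ := n1.trans (Nat.mul_le_mul_right _ hN)
      _ = _ := by ring
  have e2 : 2 * (4 * y * C * D0 * P ^ (b + 1) * (h * Y)) ≤ V * d ^ (b + 1) * P := by
    calc _ = 8 * y * C * D0 * P ^ (b + 1) * h * Y := by ring
      _ ≤ 8 * y * C * D0 * P ^ (b + 1) * h * (4 * k * V) := Nat.mul_le_mul_left _ hY
      _ = 8 * k * h * (4 * y * C) * D0 * P ^ b * (V * P) := by ring
      _ ≤ d ^ (b + 1) * (V * P) := Nat.mul_le_mul_right _ n2
      _ = _ := by ring
  have e3 := Nat.mul_le_mul_right P e1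
  have e4 := Nat.mul_le_mul_right P hV
  refine Nat.le_of_mul_le_mul_left ?_ (show 0 < 2 * y by omega)
  calc _ = 2 * (4 * y * C * D0 * P ^ (b + 1) * r0) * P +
        2 * (4 * y * C * D0 * P ^ (b + 1) * (h * Y)) := by ring
    _ ≤ V * d ^ (b + 1) * P + V * d ^ (b + 1) * P := Nat.add_le_add e3 e2
    _ ≤ y * F * P + y * F * P := Nat.add_le_add e4 e4
    _ = _ := by ring

theorem core (k a : ℕ) (hk : 0 < k) (ha : 2 ≤ a) : ∃ Q : ℕ, ∀ (n S : ℕ) (X : Type) [DecidableEq X]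
    (L : Finset (Fin k → Fin n)) (f : (Fin k → Fin n) → X) (g : (Fin k → Fin n) → Fin S)
    (h N Sb d τ τL Δ P H D0 r0 gg : ℕ), Num Q k a h S N Sb d τ τL Δ P H D0 r0 gg →
    N ≤ L.card → (L.image f).card ≤ 2 * Sb →
    (∀ x i c, (L.filter (fun l => f l = x ∧ l i = c)).card ≤ τL) →
    (∀ i c, (L.filter (fun l => l i = c)).card ≤ Δ) →
    ∃ F ⊆ L, Ind F ∧ r0 ≤ F.card ∧
      h * a * ((F.image f).card + (F.image g).card) ≤ (h + 1) * F.card := by
  set y := 2 ^ a * a.factorial with hy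
  have hy0 : 0 < y := by positivity
  set C := a + 2 * a ^ 2 + a * y + a * y ^ 2 with hC
  refine ⟨4 * y * C, ?_⟩
  intro n S X _ L f g h N Sb d τ τL Δ P H D0 r0 gg
    ⟨n1, n2, n3, n4, n5, n6, n7, n8, n9, n10, n11, n12, n13, n14, n15, n16, n17, n18, n19, n20⟩
    hN hf hτL hΔ
  rcases dichotomy hk L f g a h Δ r0 ha n1 hΔ (fun F F' => ind_union) with
    hF | ⟨E, hE, e1, e2, e3⟩
  · exact hF
  have hNE : N ≤ 2 * E.card := by omega
  obtain ⟨i0, L3, hL3, p, q, r1, r2, r3, r4, r5, r6, r7, r8, r9⟩ := regular hk E f g ((2 * a) ^ k)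
    d τ gg Sb n2 e2 ((card_le_card (image_subset_image hE)).trans hf) (by
      have : 4 * S * (2 * a) ^ k * d = 2 * (2 * S * (2 * a) ^ k * d) := by ring
      omega) n9 n10 (by
      have : 32 * k * Sb * d = 2 * (16 * k * Sb * d) := by ring
      omega)
  have hsub : L3 ⊆ L := hL3.trans hE
  have hp : ∀ x, (L3.filter (fun l => p l = x)).card ≤ d := by
    intro x
    rcases (L3.filter (fun l => p l = x)).eq_empty_or_nonempty with h0 | ⟨l, hl⟩
    · simp [h0]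
    · obtain ⟨h1, rfl⟩ := mem_filter.1 hl
      exact (r4 l h1).le
  have hτp : ∀ x i c, (L3.filter (fun l => p l = x ∧ l i = c)).card ≤ τL := by
    intro x i c
    rcases (L3.filter (fun l => p l = x ∧ l i = c)).eq_empty_or_nonempty with h0 | ⟨l, hl⟩
    · simp [h0]
    · obtain ⟨h1, h2, -⟩ := mem_filter.1 hl
      refine le_trans (card_le_card fun l' hl' => ?_) (hτL (f l) i c)
      obtain ⟨h3, h4, h5⟩ := mem_filter.1 hl'
      exact mem_filter.2 ⟨hsub h3, r1 l' h3 l h1 (h4.trans h2.symm), h5⟩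
  have hsimple : ∀ l ∈ L3, ∀ l' ∈ L3, p l = p l' → q l = q l' → l = l' :=
    fun l hl l' hl' e e' => r3 l hl l' hl' e' (r1 l hl l' hl' e)
  have hM : ∀ J, ((stars L3 p a).filter (fun σ => σ.image q = J)).card ≤ (a * (h * a)) ^ k := by
    intro J
    rcases ((stars L3 p a).filter (fun σ => σ.image q = J)).eq_empty_or_nonempty with
      h0 | ⟨σ0, h0⟩
    · simp [h0]
    obtain ⟨h1, h2⟩ := mem_filter.1 h0
    obtain ⟨⟨h3, h4⟩, -, -⟩ := mem_stars.1 h1
    refine le_trans (card_le_card_of_forall_subsingleton (fun σ x => ∃ l ∈ σ, f l = x) ?_ ?_)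
      (e3 (σ0.image g) (card_image_le.trans h4.le)
        ((((stars L3 p a).filter (fun σ => σ.image q = J)).biUnion id).image f) ?_)
    · intro σ hσ
      obtain ⟨l, hl⟩ := card_pos.1 (show 0 < σ.card by
        rw [(mem_stars.1 (mem_filter.1 hσ).1).1.2]; omega)
      exact ⟨f l, mem_image_of_mem _ (mem_biUnion.2 ⟨σ, hσ, hl⟩), l, hl, rfl⟩
    · have key : ∀ σ ∈ (stars L3 p a).filter (fun σ => σ.image q = J),
          ∀ σ' ∈ (stars L3 p a).filter (fun σ => σ.image q = J), ∀ l ∈ σ, ∀ l' ∈ σ',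
          f l = f l' → σ ⊆ σ' := by
        intro σ hσ σ' hσ' l hl l' hl' e m hm
        obtain ⟨s1, s2⟩ := mem_filter.1 hσ
        obtain ⟨s3, s4⟩ := mem_filter.1 hσ'
        obtain ⟨⟨s5, -⟩, s6, -⟩ := mem_stars.1 s1
        obtain ⟨⟨s7, -⟩, s8, -⟩ := mem_stars.1 s3
        obtain ⟨m', hm', e'⟩ := mem_image.1 (show q m ∈ σ'.image q by
          rw [s4, ← s2]; exact mem_image_of_mem _ hm)
        have : m' = m := r3 m' (s7 hm') m (s5 hm) e' (by
          rw [r1 m' (s7 hm') l' (s7 hl') (s8 m' hm' l' hl'), ← e,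
            r1 m (s5 hm) l (s5 hl) (s6 m hm l hl)])
        exact this ▸ hm'
      rintro x - σ ⟨hσ, l, hl, e⟩ σ' ⟨hσ', l', hl', e'⟩
      exact Subset.antisymm (key σ hσ σ' hσ' l hl l' hl' (e.trans e'.symm))
        (key σ' hσ' σ hσ l' hl' l hl (e'.trans e.symm))
    · intro x hx
      obtain ⟨l, hl, rfl⟩ := mem_image.1 hx
      obtain ⟨σ, hσ, hl⟩ := mem_biUnion.1 hl
      obtain ⟨s1, s2⟩ := mem_filter.1 hσ
      obtain ⟨⟨s5, s6⟩, s7, s8⟩ := mem_stars.1 s1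
      refine ⟨σ, s5.trans hL3, s6, s8, fun m hm => ⟨r1 m (s5 hm) l (s5 hl) (s7 m hm l hl), ?_⟩⟩
      obtain ⟨m', hm', e'⟩ := mem_image.1 (show q m ∈ σ0.image q by
        rw [h2, ← s2]; exact mem_image_of_mem _ hm)
      exact mem_image.2 ⟨m', hm', r2 m' (h3 hm') m (s5 hm) e'⟩
  have hcount := stars_count hk L3 p a d τL (by omega) r4 hτp n11
  have hlow := pair_low L3 p q i0 a d τ τL Δ P ha hp r5 r6 (fun x c => hτp x i0 c)
    (fun c => (card_le_card (filter_subset_filter _ hsub)).trans (hΔ i0 c)) sup_count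
  have hhigh := pair_high hk L3 p q a d τL _ P H ha hsimple hp r5 hτp hM n12 sup_count
    (fun C x h1 h2 => pd_count C τL x a h1 hk h2)
  have hX := pairs_num ha n4 hcount hlow hhigh n13 n14 n15 n16 n17
  obtain ⟨I, hI, i1, i2⟩ := average (stars L3 p a) (fun σ => σ.image q)
    (fun σ σ' => ∃ l ∈ σ, ∃ l' ∈ σ', l i0 = l' i0) (L3.image q) a P (C * D0) h r0 n3
    (by positivity) (fun σ σ' ⟨l, hl, l', hl', e⟩ => ⟨l', hl', l, hl, e.symm⟩) (by
      intro σ hσ
      obtain ⟨l, hl⟩ := card_pos.1 (show 0 < σ.card by rw [(mem_stars.1 hσ).1.2]; omega)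
      exact ⟨l, hl, l, hl, rfl⟩) (by
      intro σ hσ
      obtain ⟨⟨s1, s2⟩, s3, -⟩ := mem_stars.1 hσ
      refine ⟨?_, image_subset_image s1⟩
      rw [card_image_of_injOn fun l hl l' hl' e =>
        hsimple l (s1 hl) l' (s1 hl') (s3 l hl l' hl') e, s2]) (by
      refine le_trans ?_ hX
      rw [← sum_filter_add_sum_filter_not _
        (fun x : Finset (Fin k → Fin n) × Finset (Fin k → Fin n) =>
          (x.1.image q ∩ x.2.image q).card ≤ 1), filter_filter, filter_filter]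
      refine Nat.add_le_add le_rfl (sum_le_sum_of_subset fun x hx => ?_)
      obtain ⟨h1, -, h2⟩ := mem_filter.1 hx
      exact mem_filter.2 ⟨h1, by omega⟩)
    (avg_num ha hk hy0 hcount (by rw [r7]; have : 16 * k * L3.card = 2 * (8 * k * L3.card) := by ring
                                  omega) r8 n18 n19)
  have hFL : I.biUnion id ⊆ L3 := biUnion_subset.2 fun σ hσ => (mem_stars.1 (hI hσ)).1.1
  have hc : (I.biUnion id).card = a * I.card := by
    rw [card_biUnion]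
    · rw [mul_comm]
      exact sum_const_nat fun σ hσ => (mem_stars.1 (hI hσ)).1.2
    · intro σ hσ σ' hσ' hne
      exact disjoint_left.2 fun l hl hl' => hne (i1 σ hσ σ' hσ' ⟨l, hl, l, hl', rfl⟩)
  have hf1 : ((I.biUnion id).image f).card ≤ I.card := by
    rw [biUnion_image]
    refine card_biUnion_le.trans ((sum_le_card_nsmul _ _ 1 fun σ hσ => ?_).trans (by simp))
    obtain ⟨⟨s1, -⟩, s3, -⟩ := mem_stars.1 (hI hσ)
    refine card_le_one.2 fun x hx x' hx' => ?_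
    obtain ⟨l, hl, rfl⟩ := mem_image.1 hx
    obtain ⟨l', hl', rfl⟩ := mem_image.1 hx'
    exact r1 l (s1 hl) l' (s1 hl') (s3 l hl l' hl')
  have hg1 : ((I.biUnion id).image g).card ≤ (I.biUnion (fun σ => σ.image q)).card := by
    refine (image_factor _ q g fun l hl l' hl' => r2 l (hFL hl) l' (hFL hl')).trans ?_
    rw [biUnion_image]
    exact le_rfl
  refine ⟨I.biUnion id, hFL.trans hsub, ind_rainbow i0 _ ?_, ?_, ?_⟩
  · intro l hl l' hl' e
    obtain ⟨σ, hσ, hl⟩ := mem_biUnion.1 hl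
    obtain ⟨σ', hσ', hl'⟩ := mem_biUnion.1 hl'
    obtain rfl := i1 σ hσ σ' hσ' ⟨l, hl, l', hl', e⟩
    by_contra hne
    exact (mem_stars.1 (hI hσ)).2.2 l hl l' hl' hne i0 e
  · rw [hc]
    exact (le_trans (Nat.le_add_right _ _) i2).trans (Nat.le_mul_of_pos_left _ (by omega))
  · rw [hc]
    have u1 := Nat.mul_le_mul_left (h * a) (Nat.add_le_add hf1 hg1)
    have u2 : h * (I.biUnion (fun σ => σ.image q)).card ≤ I.card := by omega
    have u3 := Nat.mul_le_mul_left a u2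
    calc _ ≤ _ := u1
      _ = h * a * I.card + a * (h * (I.biUnion (fun σ => σ.image q)).card) := by ring
      _ ≤ h * a * I.card + a * I.card := Nat.add_le_add_left u3 _
      _ = _ := by ring

end Pool.Agent.MP_5e38ef_lc.WW

end

section

namespace Pool.Agent.MP_5e38ef_lc.WW
open Finset TP SP

theorem four3_Params (s : ℕ) : s + 3 ≤ 4 ^ (s + 1) := by
  induction s with
  | zero => norm_num
  | succ s ih => rw [pow_succ]; omega

theorem two_Params {k u q : ℕ} (hk : 1 ≤ k) (hu : 1 ≤ u) : 1 + k * u ^ q ≤ 2 * k * u ^ q := by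
  have : 1 ≤ k * u ^ q := Nat.mul_pos hk (Nat.one_le_pow _ _ hu)
  rw [mul_assoc]
  omega

theorem lastW_Params {k a c T n U S w v e : ℕ} (ha : 1 ≤ a) (hn : 4 * (T + 4) ≤ n)
    (hS : S ≤ n ^ k) (hw : 2 ^ w ≤ n ^ c) (hU : 2 ^ w * n ^ (k * (a + 1) + 1) ≤ U ^ a)
    (he : 2 * a * (2 * k + 1) ≤ e) (hv : 4 * (k + c) * a * v ≤ (4 * (k + c) + 2) * e) :
    (T + 4) * ((S + 1) * (n ^ k + 1)) * ((n ^ k) ^ e * (S * 2 ^ w) ^ v) ≤ (U + 1) ^ e := by
  have hn1 : 1 ≤ n := by omega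
  have hnk : 1 ≤ n ^ k := Nat.one_le_pow _ _ hn1
  obtain ⟨y, hy1, hy2⟩ : ∃ y, a * v ≤ e + y ∧ 2 * ((k + c) * y) ≤ e := by
    rcases le_total (a * v) e with h | h
    · exact ⟨0, by omega, by simp⟩
    · obtain ⟨y, hy⟩ := Nat.exists_eq_add_of_le h
      refine ⟨y, hy.le, ?_⟩
      have e1 : 4 * (k + c) * a * v = 4 * ((k + c) * e) + 4 * ((k + c) * y) := by
        rw [mul_assoc (4 * (k + c)), hy]; ring
      have e2 : (4 * (k + c) + 2) * e = 4 * ((k + c) * e) + 2 * e := by ring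
      omega
  obtain ⟨X, hX⟩ : ∃ X, X = n ^ k * 2 ^ w := ⟨_, rfl⟩
  have hX1 : 1 ≤ X := by rw [hX]; exact Nat.mul_pos hnk (by positivity)
  have hX2 : X ≤ n ^ (k + c) := by rw [hX, pow_add]; exact Nat.mul_le_mul_left _ hw
  have h0 : (T + 4) * ((S + 1) * (n ^ k + 1)) ≤ n ^ (2 * k + 1) :=
    calc (T + 4) * ((S + 1) * (n ^ k + 1)) ≤ (T + 4) * ((2 * n ^ k) * (2 * n ^ k)) := by
          gcongr <;> omega
      _ = 4 * (T + 4) * n ^ (2 * k) := by ring
      _ ≤ n * n ^ (2 * k) := Nat.mul_le_mul_right _ hn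
      _ = n ^ (2 * k + 1) := by ring
  have h1 : (S * 2 ^ w) ^ v ≤ X ^ v := by
    rw [hX]
    exact Nat.pow_le_pow_left (Nat.mul_le_mul_right _ hS) v
  have h2 : X * ((n ^ k) ^ a * n) ≤ U ^ a := by
    refine le_of_eq_of_le ?_ hU
    rw [hX]
    generalize 2 ^ w = z
    ring
  have h3 : n ^ (2 * k + 1) * ((n ^ k) ^ e * X ^ v) ≤ U ^ e := by
    rw [← Nat.pow_le_pow_iff_left (show a ≠ 0 by omega)]
    have g1 : (X ^ v) ^ a ≤ X ^ e * n ^ ((k + c) * y) :=
      calc (X ^ v) ^ a = X ^ (a * v) := by rw [← pow_mul, mul_comm]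
        _ ≤ X ^ (e + y) := Nat.pow_le_pow_right hX1 hy1
        _ = X ^ e * X ^ y := pow_add _ _ _
        _ ≤ X ^ e * (n ^ (k + c)) ^ y := by gcongr
        _ = X ^ e * n ^ ((k + c) * y) := by rw [← pow_mul]
    have g2 : (n ^ (2 * k + 1)) ^ a * n ^ ((k + c) * y) ≤ n ^ e := by
      rw [← pow_mul, ← pow_add]
      refine Nat.pow_le_pow_right hn1 ?_
      have : 2 * a * (2 * k + 1) = 2 * ((2 * k + 1) * a) := by ring
      omega
    calc (n ^ (2 * k + 1) * ((n ^ k) ^ e * X ^ v)) ^ a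
        = (n ^ (2 * k + 1)) ^ a * (((n ^ k) ^ e) ^ a * (X ^ v) ^ a) := by rw [mul_pow, mul_pow]
      _ ≤ (n ^ (2 * k + 1)) ^ a * (((n ^ k) ^ e) ^ a * (X ^ e * n ^ ((k + c) * y))) := by gcongr
      _ = X ^ e * (((n ^ k) ^ e) ^ a * ((n ^ (2 * k + 1)) ^ a * n ^ ((k + c) * y))) := by ac_rfl
      _ ≤ X ^ e * (((n ^ k) ^ e) ^ a * n ^ e) := by gcongr
      _ = (X * ((n ^ k) ^ a * n)) ^ e := by rw [mul_pow, mul_pow, pow_right_comm]
      _ ≤ (U ^ a) ^ e := Nat.pow_le_pow_left h2 e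
      _ = (U ^ e) ^ a := pow_right_comm _ _ _
  calc (T + 4) * ((S + 1) * (n ^ k + 1)) * ((n ^ k) ^ e * (S * 2 ^ w) ^ v)
      ≤ n ^ (2 * k + 1) * ((n ^ k) ^ e * X ^ v) := by gcongr
    _ ≤ U ^ e := h3
    _ ≤ (U + 1) ^ e := Nat.pow_le_pow_left (Nat.le_succ U) _

theorem bitsW_Params {T k a L u w s x y : ℕ} (hu : (T + 4) * k ^ 2 + T * (1 + a + L) ≤ u)
    (hu1 : 1 ≤ u) (hw : 2 ^ w ≤ u ^ L) (hs : s ≤ T) (hxy : x + 1 < y) :
    (T + 4) * k ^ 2 * (2 * u ^ a * (2 ^ w) ^ u ^ x) ^ s ≤ 2 ^ u ^ y := by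
  have h1 : (2 * u ^ a * (2 ^ w) ^ u ^ x) ^ s ≤ 2 ^ (T * (1 + u * a + u * L * u ^ x)) := by
    have b1 : u ^ a ≤ (2 ^ u) ^ a := Nat.pow_le_pow_left Nat.lt_two_pow_self.le a
    have b2 : 2 ^ w ≤ (2 ^ u) ^ L := hw.trans (Nat.pow_le_pow_left Nat.lt_two_pow_self.le L)
    calc (2 * u ^ a * (2 ^ w) ^ u ^ x) ^ s
        ≤ (2 * (2 ^ u) ^ a * ((2 ^ u) ^ L) ^ u ^ x) ^ s := by gcongr
      _ = 2 ^ ((1 + u * a + u * L * u ^ x) * s) := by
          rw [pow_mul 2 (1 + u * a + u * L * u ^ x), pow_add, pow_add, pow_one,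
            pow_mul 2 u a, pow_mul 2 (u * L), pow_mul 2 u L]
      _ ≤ 2 ^ (T * (1 + u * a + u * L * u ^ x)) := by
          refine Nat.pow_le_pow_right (by norm_num) ?_
          rw [mul_comm]
          exact Nat.mul_le_mul_right _ hs
  have h2 : (T + 4) * k ^ 2 + T * (1 + u * a + u * L * u ^ x) ≤ u ^ y := by
    have c1 : 1 ≤ u ^ (x + 1) := Nat.one_le_pow _ _ hu1
    have c2 : u ≤ u ^ (x + 1) := Nat.le_self_pow (by omega) u
    have c3 : 1 + u * a + u * L * u ^ x ≤ (1 + a + L) * u ^ (x + 1) := by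
      have d1 : u * a ≤ u ^ (x + 1) * a := Nat.mul_le_mul_right _ c2
      have d2 : u * L * u ^ x = L * u ^ (x + 1) := by ring
      have d3 : (1 + a + L) * u ^ (x + 1) = u ^ (x + 1) + u ^ (x + 1) * a + L * u ^ (x + 1) := by
        ring
      omega
    calc (T + 4) * k ^ 2 + T * (1 + u * a + u * L * u ^ x)
        ≤ (T + 4) * k ^ 2 * u ^ (x + 1) + T * ((1 + a + L) * u ^ (x + 1)) :=
          Nat.add_le_add (Nat.le_mul_of_pos_right _ c1) (Nat.mul_le_mul_left _ c3)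
      _ = ((T + 4) * k ^ 2 + T * (1 + a + L)) * u ^ (x + 1) := by ring
      _ ≤ u ^ y := cu_Params hu1 hu hxy
  calc (T + 4) * k ^ 2 * (2 * u ^ a * (2 ^ w) ^ u ^ x) ^ s
      ≤ 2 ^ ((T + 4) * k ^ 2) * 2 ^ (T * (1 + u * a + u * L * u ^ x)) :=
        Nat.mul_le_mul Nat.lt_two_pow_self.le h1
    _ = 2 ^ ((T + 4) * k ^ 2 + T * (1 + u * a + u * L * u ^ x)) := (pow_add _ _ _).symm
    _ ≤ 2 ^ u ^ y := Nat.pow_le_pow_right (by norm_num) h2

theorem numW_Params {Q k a h T al be z c1 K x e0 u S N : ℕ} (hk : 1 ≤ k) (ha : 2 ≤ a)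
    (hh : 0 < h) (hab : a * be = (a - 1) * al) (hN : N = al + z + (be + c1) + 1)
    (hK : K + 1 < c1) (hkbe : k < be + c1) (hx1 : x + 1 < be + c1)
    (hx2 : 1 + al + x < 2 * be + 2 * c1)
    (u1 : 2 * (k * (a * (h * a)) * (h * a * T + e0) * (2 * k)) ≤ u) (u2 : 4 * (2 * a) ^ k ≤ u)
    (u3 : 32 * k ≤ u) (u4 : 2 * (a * k * (2 * k)) ≤ u) (u5 : (a * (h * a)) ^ k ≤ u)
    (u6 : 32 * k * Q * (h * a * T + e0) ≤ u) (u7 : 8 * k * h * Q ≤ u)
    (hS : S ≤ u ^ al * u ^ z) :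
    Num Q k a h S (u ^ N) (u ^ al * u ^ z) (u ^ (be + c1)) (u ^ (be + c1 - 1)) (1 + k * u ^ x)
      (1 + k * u ^ (al + be + K)) (u ^ al) u (u ^ (a * c1 - 1)) (h * a * (T * u ^ z) + e0) u := by
  have hu1 : 1 ≤ u := by omega
  have hup : ∀ x, 0 < u ^ x := fun x => Nat.one_le_pow x u hu1
  have hr : h * a * (T * u ^ z) + e0 ≤ (h * a * T + e0) * u ^ z := by
    have : e0 ≤ e0 * u ^ z := Nat.le_mul_of_pos_right _ (hup z)
    rw [add_mul, mul_assoc (h * a)]
    omega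
  have hD1 := two_Params (q := x) hk hu1
  have hD2 := two_Params (q := al + be + K) hk hu1
  obtain ⟨a', rfl⟩ : ∃ a', a = a' + 1 := ⟨a - 1, by omega⟩
  unfold Num
  simp only [Nat.add_sub_cancel] at hab ⊢
  have e1 : (a' + 1) * c1 = a' * c1 + c1 := by ring
  have e2 : (a' + 1) * be = a' * be + be := by ring
  have e3 : (be + c1) * a' = a' * be + a' * c1 := by ring
  have e4 : al * (a' + 1) = a' * al + al := by ring
  have e5 : al * a' = a' * al := by ring
  have e6 : (be + c1) * (a' + 1) = a' * be + a' * c1 + be + c1 := by ring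
  have e7 : a' ≤ a' * c1 := Nat.le_mul_of_pos_right _ (by omega)
  refine ⟨hh, hup _, hup _, hu1, hup _, ?_, ?_, ?_, ?_, ?_, ?_, ?_, ?_, ?_, ?_, ?_, ?_, ?_, ?_,
    hup _⟩
  · calc 2 * (k * ((a' + 1) * (h * (a' + 1))) * (h * (a' + 1) * (T * u ^ z) + e0) *
          (1 + k * u ^ (al + be + K)))
        ≤ 2 * (k * ((a' + 1) * (h * (a' + 1))) * ((h * (a' + 1) * T + e0) * u ^ z) *
          (2 * k * u ^ (al + be + K))) := by gcongr
      _ = 2 * (k * ((a' + 1) * (h * (a' + 1))) * (h * (a' + 1) * T + e0) * (2 * k)) *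
            u ^ (z + (al + be + K)) := by rw [pow_add u z]; ac_rfl
      _ ≤ u ^ N := cu_Params hu1 u1 (by omega)
  · calc 4 * S * (2 * (a' + 1)) ^ k * u ^ (be + c1)
        ≤ 4 * (u ^ al * u ^ z) * (2 * (a' + 1)) ^ k * u ^ (be + c1) := by gcongr
      _ = 4 * (2 * (a' + 1)) ^ k * u ^ (al + z + (be + c1)) := by
          rw [pow_add u (al + z), pow_add u al]; ac_rfl
      _ ≤ u ^ N := cu_Params hu1 u2 (by omega)
  · calc 32 * k * (u ^ al * u ^ z) * u ^ (be + c1) = 32 * k * u ^ (al + z + (be + c1)) := by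
          rw [pow_add u (al + z), pow_add u al]; ac_rfl
      _ ≤ u ^ N := cu_Params hu1 u3 (by omega)
  · rw [← pow_succ]
    exact Nat.pow_le_pow_right hu1 (by omega)
  · exact cu_Params hu1 (by omega) hkbe
  · calc 2 * ((a' + 1) * k * (1 + k * u ^ x)) ≤ 2 * ((a' + 1) * k * (2 * k * u ^ x)) := by gcongr
      _ = 2 * ((a' + 1) * k * (2 * k)) * u ^ x := by ac_rfl
      _ ≤ u ^ (be + c1) := cu_Params hu1 u4 (by omega)
  · calc u * u ^ al * (2 * ((a' + 1) * k * (1 + k * u ^ x)))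
        ≤ u * u ^ al * (2 * ((a' + 1) * k * (2 * k * u ^ x))) := by gcongr
      _ = 2 * ((a' + 1) * k * (2 * k)) * u ^ (1 + al + x) := by
          rw [pow_add, pow_add, pow_one]; ac_rfl
      _ ≤ u ^ ((be + c1) * 2) := cu_Params hu1 u4 (by omega)
      _ = (u ^ (be + c1)) ^ 2 := pow_mul _ _ _
  · calc (1 + k * u ^ (al + be + K)) * (u ^ (be + c1)) ^ a'
        ≤ 2 * k * u ^ (al + be + K) * (u ^ (be + c1)) ^ a' := by gcongr
      _ = 2 * k * u ^ (al + be + K + (be + c1) * a') := by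
          rw [pow_add u (al + be + K), pow_mul, mul_assoc]
      _ ≤ u ^ ((a' + 1) * c1 - 1 + al * (a' + 1)) := cu_Params hu1 (by omega) (by omega)
      _ = u ^ ((a' + 1) * c1 - 1) * (u ^ al) ^ (a' + 1) := by rw [pow_add, pow_mul]
  · rw [← pow_mul, ← pow_mul, ← pow_add, ← pow_add]
    exact Nat.pow_le_pow_right hu1 (by omega)
  · exact hD1.trans (cu_Params hu1 (by omega) (by omega))
  · rw [← pow_mul, ← pow_mul, ← pow_succ', ← pow_add]
    exact Nat.pow_le_pow_right hu1 (by omega)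
  · rw [mul_comm]
    exact cu_Params hu1 u5 (by omega)
  · calc 32 * k * Q * u ^ ((a' + 1) * c1 - 1) * (u ^ al) ^ (a' + 1) *
          (h * (a' + 1) * (T * u ^ z) + e0)
        ≤ 32 * k * Q * u ^ ((a' + 1) * c1 - 1) * (u ^ al) ^ (a' + 1) *
          ((h * (a' + 1) * T + e0) * u ^ z) := by gcongr
      _ = 32 * k * Q * (h * (a' + 1) * T + e0) *
            u ^ ((a' + 1) * c1 - 1 + al * (a' + 1) + z) := by
          rw [pow_add u _ z, pow_add u _ (al * (a' + 1)), pow_mul]; ac_rfl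
      _ ≤ u ^ (N + (be + c1) * a') := cu_Params hu1 u6 (by omega)
      _ = u ^ N * (u ^ (be + c1)) ^ a' := by rw [pow_add, pow_mul]
  · calc 8 * k * h * Q * u ^ ((a' + 1) * c1 - 1) * (u ^ al) ^ a'
        = 8 * k * h * Q * u ^ ((a' + 1) * c1 - 1 + al * a') := by
          rw [pow_add, pow_mul, mul_assoc]
      _ ≤ u ^ ((be + c1) * (a' + 1)) := cu_Params hu1 u7 (by omega)
      _ = (u ^ (be + c1)) ^ (a' + 1) := pow_mul _ _ _

theorem coreW_Params {Q k a c T al be M c0 c1 u U S w : ℕ} (hk : 2 ≤ k) (ha : 2 ≤ a)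
    (hM1 : M * (k - 1) = al * (T + 1) + be) (hab : a * be = (a - 1) * al) (hab1 : al ≤ 2 * be)
    (hab2 : al ≤ be + M) (hc1 : c1 = 4 ^ (T + 2) + T + 5) (hc0 : c0 = c1 + T + 3)
    (hM : c0 + 4 ^ (T + 2) ≤ M) (hbe : k + T + 2 ≤ be)
    (u1 : 2 + 2 * k ^ 3 + k ^ 2 ≤ u) (u2 : 6 * (k + 3) ≤ u)
    (u3 : (T + 4) * k ^ 2 + T * (1 + al + M * c) ≤ u) (u4 : (2 * (T + 4)) ^ a ≤ u)
    (u5 : 4 * (T + 4) ≤ u)
    (v1 : 2 * (k * (a * (4 * (k + c) * a)) * (4 * (k + c) * a * T + 2 * a * (2 * k + 1)) *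
      (2 * k)) ≤ u) (v2 : 4 * (2 * a) ^ k ≤ u)
    (v3 : 32 * k ≤ u) (v4 : 2 * (a * k * (2 * k)) ≤ u) (v5 : (a * (4 * (k + c) * a)) ^ k ≤ u)
    (v6 : 32 * k * Q * (4 * (k + c) * a * T + 2 * a * (2 * k + 1)) ≤ u)
    (v7 : 8 * k * (4 * (k + c)) * Q ≤ u) (hw : 2 ^ w ≤ (u ^ M) ^ c)
    (hU : 2 ^ w * (u ^ M) ^ (k * (a + 1) + 1) ≤ U ^ a) (hS : S * u ^ c0 ≤ u ^ (al + M)) :
    ParW Q k a (u ^ M) U S w T := by
  have hu1 : 1 ≤ u := by omega
  have hup : ∀ x, 0 < u ^ x := fun x => Nat.one_le_pow x u hu1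
  have hMk : M * k = al * (T + 1) + be + M := by
    obtain ⟨j, rfl⟩ : ∃ j, k = j + 1 := ⟨k - 1, by omega⟩
    rw [← hM1, Nat.add_sub_cancel, mul_add, mul_one]
  have hn1 : (u ^ M) ^ (k - 1) = u ^ (al * (T + 1) + be) := by rw [← pow_mul, hM1]
  have hnk : (u ^ M) ^ k = u ^ (al * (T + 1) + be + M) := by rw [← pow_mul, hMk]
  have h4 : 4 ^ (T + 2) = 4 * 4 ^ (T + 1) := by ring
  have h4T := four3_Params T
  have hS1 : S ≤ u ^ (al + (M - c0)) := by
    refine Nat.le_of_mul_le_mul_right (hS.trans_eq ?_) (hup c0)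
    rw [← pow_add]
    congr 1
    omega
  have haT1 : al * (T + 1) = al * T + al := by ring
  have hun : u ≤ u ^ M := Nat.le_self_pow (by omega) u
  have hU2 : 2 * (T + 4) * (u ^ M) ^ k ≤ U := by
    rw [← Nat.pow_le_pow_iff_left (show a ≠ 0 by omega)]
    calc (2 * (T + 4) * (u ^ M) ^ k) ^ a = (2 * (T + 4)) ^ a * (u ^ M) ^ (k * a) := by
          rw [mul_pow _ ((u ^ M) ^ k), ← pow_mul]
      _ ≤ (u ^ M) ^ (k * (a + 1) + 1) :=
          cu_Params (hup M) (u4.trans hun) (by rw [mul_add]; omega)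
      _ ≤ 2 ^ w * (u ^ M) ^ (k * (a + 1) + 1) := Nat.le_mul_of_pos_left _ (by positivity)
      _ ≤ U ^ a := hU
  have hUk : u ^ (al * (T + 1) + be + M) ≤ U := by
    rw [← hnk]
    exact (Nat.le_mul_of_pos_left _ (by omega)).trans hU2
  have hU1 : 1 ≤ U := (hup _).trans_le hUk
  obtain ⟨b, hb⟩ : ∃ b, b = (k * U + 1) / u ^ (al * T) + 1 := ⟨_, rfl⟩
  have hb0 : 0 < b := by rw [hb]; exact Nat.succ_pos _
  have hb1 : k * U + 1 ≤ b * u ^ (al * T) := by
    rw [hb, mul_comm _ (u ^ (al * T))]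
    exact (Nat.lt_mul_div_succ _ (hup _)).le
  have hb2 : b * u ^ (al * T) ≤ (k + 2) * U := by
    have e1 : (k * U + 1) / u ^ (al * T) * u ^ (al * T) ≤ k * U + 1 := Nat.div_mul_le_self _ _
    have e2 : u ^ (al * T) ≤ U := (Nat.pow_le_pow_right hu1 (by omega)).trans hUk
    rw [hb, add_mul, one_mul, add_mul]
    omega
  obtain ⟨x, hx⟩ : ∃ x, x = be + 4 ^ (T + 2) + c0 - M := ⟨_, rfl⟩
  refine ⟨u ^ (M - c0), u ^ al, u ^ (al + be + M - T - 2), 4 * (k + c), u ^ (be + c1),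
    u ^ (be + c1 - 1), u, u ^ (a * c1 - 1),
    4 * (k + c) * a * (T * u ^ (M - c0)) + 2 * a * (2 * k + 1), u, 2 * a * (2 * k + 1),
    fun s => if s ≤ T then b * u ^ (al * (T - s)) else b / (u ^ al * u ^ (M - c0)) + 1,
    fun s => if s ≤ T then u ^ (al * (T + 1 - s) + be + 4 ^ (s + 1)) else u ^ x,
    fun s => u ^ (al * (T + 1 - s) + be + M - s - 1),
    fun s => u ^ (al * (T + 1 - s) + be - s - 2),
    fun s => u ^ (M - 2 * 4 ^ (s + 1)), ?_, ?_, ?_, ?_, ?_, ?_, ?_, hU2.trans (Nat.le_succ U), ?_,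
    ?_, ?_, ?_, ?_, Nat.le_add_right _ _, Nat.le_add_left _ _, ?_⟩
  · rwa [← pow_add]
  · simpa using hb1
  · intro s hs
    obtain ⟨j, rfl⟩ := Nat.exists_eq_add_of_lt hs
    have e1 : s + j + 1 - s = j + 1 := by omega
    have e2 : s + j + 1 - (s + 1) = j := by omega
    simp only [if_pos hs.le, if_pos (Nat.succ_le_of_lt hs), e1, e2]
    exact le_of_eq (by ring)
  · intro s _
    by_cases h : s + 1 ≤ T
    · simp only [if_pos h]
      exact Nat.mul_pos hb0 (hup _)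
    · simp only [if_neg h]
      exact Nat.succ_pos _
  · simp only [le_refl, if_true, Nat.sub_self, mul_zero, pow_zero, mul_one,
      if_neg (Nat.not_succ_le_self T)]
    exact (Nat.lt_mul_div_succ _ (Nat.mul_pos (hup _) (hup _))).le
  · simp only [Nat.zero_le, if_true, Nat.sub_zero, hn1]
    exact Nat.pow_le_pow_right hu1 (Nat.le_add_right _ _)
  · simp only [Nat.sub_zero, hnk]
    exact cu_Params hu1 (by omega) (by omega)
  · exact fun s _ => hup _
  · intro s hs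
    have f1 := four3_Params s
    have f2 : 4 ^ (s + 1) ≤ 4 ^ (T + 1) := Nat.pow_le_pow_right (by norm_num) (by omega)
    obtain ⟨j, rfl⟩ := Nat.exists_eq_add_of_lt hs
    have e1 : s + j + 1 + 1 - s = j + 2 := by omega
    have e2 : s + j + 1 + 1 - (s + 1) = j + 1 := by omega
    have e3 : al * (j + 2) = al * (j + 1) + al := by ring
    simp only [if_pos hs.le, e1, e2]
    refine step_Params (g := al * (j + 2) + be + M - s - 2) (by omega) u1 ?_ (by omega) (by omega)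
      (by omega)
    rw [mul_assoc, ← pow_add]
    exact Nat.mul_le_mul_left _ (Nat.pow_le_pow_right hu1 (by omega))
  · simp only [le_refl, if_true, Nat.add_sub_cancel_left, mul_one]
    exact step_Params (g := al + be + M - T - 2) (by omega) u1 (by omega) (by omega) (by omega)
      (by omega)
  · intro s hs
    have f1 := four3_Params s
    have f2 : 4 ^ (s + 1) ≤ 4 ^ (T + 1) := Nat.pow_le_pow_right (by norm_num) (by omega)
    have f3 : 4 ^ (s + 1 + 1) = 4 * 4 ^ (s + 1) := by ring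
    refine main_Params (T := T + 1) (g := u ^ (2 * 4 ^ (s + 1))) ?_
      (bitsW_Params (L := M * c) u3 hu1 (by rwa [pow_mul]) hs (by omega)) ?_
    · rw [← pow_add]
      congr 1
      omega
    rw [hn1]
    rcases hs.lt_or_eq with hs' | rfl
    · obtain ⟨j, rfl⟩ := Nat.exists_eq_add_of_lt hs'
      have e1 : s + j + 1 + 1 - s = j + 2 := by omega
      have e2 : s + j + 1 + 1 - (s + 1) = j + 1 := by omega
      have e3 : s + j + 1 - (s + 1) = j := by omega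
      simp only [if_pos hs, if_pos (Nat.succ_le_of_lt hs'), e1, e2, e3]
      refine ratio_Params (t := al * (s + 1)) (p := al * (j + 1) + be + 4 ^ (s + 1 + 1)) u2 ?_
        (Nat.le_succ _) ?_
      · calc b * u ^ (al * j) * u ^ (al * (s + 1)) = b * u ^ (al * (s + j + 1)) := by ring
          _ ≤ (k + 2) * U := hb2
          _ ≤ (k + 3) * U := Nat.mul_le_mul_right _ (by omega)
      · have g1 : al * (s + j + 1 + 1) = al * (j + 1) + al * (s + 1) := by ring
        have g2 : al * (j + 2) = al * (j + 1) + al := by ring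
        omega
    · simp only [le_refl, if_true, if_neg (Nat.not_succ_le_self s), Nat.add_sub_cancel_left,
        mul_one]
      refine ratio_Params (t := al + (M - c0) + al * s) (p := x) u2 ?_ (Nat.le_succ _) (by omega)
      rw [← pow_add]
      have e1 : b / u ^ (al + (M - c0)) * u ^ (al + (M - c0)) ≤ b := Nat.div_mul_le_self _ _
      have e2 : u ^ (al + (M - c0) + al * s) ≤ U :=
        (Nat.pow_le_pow_right hu1 (by omega)).trans hUk
      calc (b / u ^ (al + (M - c0)) + 1) * u ^ (al + (M - c0) + al * s)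
          = b / u ^ (al + (M - c0)) * u ^ (al + (M - c0)) * u ^ (al * s) +
              u ^ (al + (M - c0) + al * s) := by
            rw [add_mul, one_mul, pow_add u (al + (M - c0)), mul_assoc]
        _ ≤ b * u ^ (al * s) + U := Nat.add_le_add (Nat.mul_le_mul_right _ e1) e2
        _ ≤ (k + 2) * U + U := Nat.add_le_add_right hb2 _
        _ = (k + 3) * U := by ring
  · simp only [le_refl, if_true, if_neg (Nat.not_succ_le_self T), Nat.add_sub_cancel_left,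
      mul_one]
    exact numW_Params (by omega) ha (by omega) hab (by omega) (by omega) (by omega) (by omega)
      (by omega) v1 v2 v3 v4 v5 v6 v7 (by rwa [← pow_add])
  · intro v _ e _ he hv
    refine lastW_Params (by omega) (u5.trans hun) ?_ hw hU he hv
    rw [hnk]
    exact hS1.trans (Nat.pow_le_pow_right hu1 (by omega))

theorem paramsW (Q k a c T : ℕ) (hk : 2 ≤ k) (ha : 2 ≤ a) (hka : k ≤ a * (T + 2)) :
    ∃ c0 m0 : ℕ, ∀ m, m0 ≤ m → c0 + 1 ≤ m ∧ ∃ u0 : ℕ, ∀ u, u0 ≤ u → ∀ U S w : ℕ,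
      2 ^ w ≤ (u ^ ((a * (T + 2) - 1) * m)) ^ c →
      2 ^ w * (u ^ ((a * (T + 2) - 1) * m)) ^ (k * (a + 1) + 1) ≤ U ^ a →
      S * u ^ c0 ≤ u ^ (a * (k - 1) * m + (a * (T + 2) - 1) * m) →
      ParW Q k a (u ^ ((a * (T + 2) - 1) * m)) U S w T := by
  obtain ⟨c1, hc1⟩ : ∃ c1, c1 = 4 ^ (T + 2) + T + 5 := ⟨_, rfl⟩
  obtain ⟨c0, hc0⟩ : ∃ c0, c0 = c1 + T + 3 := ⟨_, rfl⟩
  refine ⟨c0, c0 + 4 ^ (T + 2) + T + k + 5, fun m hm => ⟨by omega, ?_⟩⟩
  obtain ⟨k', rfl⟩ : ∃ k', k = k' + 1 := ⟨k - 1, by omega⟩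
  obtain ⟨a', rfl⟩ : ∃ a', a = a' + 1 := ⟨a - 1, by omega⟩
  have e0 : (a' + 1) * (T + 2) - 1 = (a' + 1) * (T + 1) + a' := by
    have : (a' + 1) * (T + 2) = (a' + 1) * (T + 1) + a' + 1 := by ring
    omega
  have e1 : k' ≤ (a' + 1) * (T + 1) + a' := by omega
  rw [e0, Nat.add_sub_cancel]
  obtain ⟨M, hM⟩ : ∃ M, M = ((a' + 1) * (T + 1) + a') * m := ⟨_, rfl⟩
  obtain ⟨al, hal⟩ : ∃ al, al = (a' + 1) * k' * m := ⟨_, rfl⟩
  have h1 : k' * m ≤ M := by rw [hM]; exact Nat.mul_le_mul_right _ e1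
  have h2 : m ≤ k' * m := Nat.le_mul_of_pos_left _ (by omega)
  have h3 : k' * m ≤ a' * (k' * m) := Nat.le_mul_of_pos_left _ (by omega)
  have h4 : al = a' * (k' * m) + k' * m := by rw [hal]; ring
  rw [← hM, ← hal]
  obtain ⟨k, hk'⟩ : ∃ k, k = k' + 1 := ⟨_, rfl⟩
  obtain ⟨a, ha'⟩ : ∃ a, a = a' + 1 := ⟨_, rfl⟩
  have h5 : M * (k - 1) = al * (T + 1) + a' * (k' * m) := by
    rw [hk', Nat.add_sub_cancel, hM, hal]; ring
  have h6 : a * (a' * (k' * m)) = (a - 1) * al := by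
    rw [ha', Nat.add_sub_cancel, hal]; ring
  rw [← hk', ← ha']
  refine ⟨(2 + 2 * k ^ 3 + k ^ 2) + 6 * (k + 3) + ((T + 4) * k ^ 2 + T * (1 + al + M * c)) +
    (2 * (T + 4)) ^ a + 4 * (T + 4) +
    2 * (k * (a * (4 * (k + c) * a)) * (4 * (k + c) * a * T + 2 * a * (2 * k + 1)) * (2 * k)) +
    4 * (2 * a) ^ k + 32 * k + 2 * (a * k * (2 * k)) + (a * (4 * (k + c) * a)) ^ k +
    32 * k * Q * (4 * (k + c) * a * T + 2 * a * (2 * k + 1)) + 8 * k * (4 * (k + c)) * Q,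
    fun u hu U S w hw hU hS => ?_⟩
  exact coreW_Params (by omega) (by omega) h5 h6 (by omega) (by omega) hc1 hc0 (by omega)
    (by omega) (by omega) (by omega) (by omega) (by omega) (by omega) (by omega) (by omega)
    (by omega) (by omega) (by omega) (by omega) (by omega) hw hU hS

end Pool.Agent.MP_5e38ef_lc.WW

end
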