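import Pool.Agent.Mg.F5e38efa.Gbe7db9
import Pool.Agent.Mg.F5e38efa.G70d951
import Pool.Agent.Mg.F5e38efa.G1775e1
import Pool.Agent.Mg.F5e38efa.Gfe0b12

section

namespace Pool.Agent.MP_5e38ef_lc.WW
open Finset TP SP

/-- The indicator vector of the positions of a label. -/
def vec_First {k n : ℕ} (l : Fin k → Fin n) : Fin k × Fin n → ℚ :=
  fun p => if l p.1 = p.2 then 1 else 0

/-- `A` solves the linear equations listed in `V`. -/
def Sol_First {I : Type} [Fintype I] {m : ℕ} (V : Submodule ℚ ((I → ℚ) × ℚ)) (A : I → Fin m) :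
    Prop :=
  ∀ x ∈ V, ∑ p, x.1 p * ((A p : ℕ) : ℚ) = x.2

/-- `J` is a set of pivot columns of `V`. -/
def Piv_First {I : Type} (V : Submodule ℚ ((I → ℚ) × ℚ)) (J : Finset I) : Prop :=
  ∀ d : I → ℚ, ∃ x ∈ V, ∀ p ∈ J, x.1 p = d p

lemma eval_First {k n U : ℕ} (A : Fin k × Fin n → Fin (U + 1)) (l : Fin k → Fin n) :
    ∑ p, vec_First l p * ((A p : ℕ) : ℚ) = (zs A l : ℚ) := by
  rw [Fintype.sum_prod_type, zs]
  push_cast
  refine sum_congr rfl fun i _ => ?_
  simp [vec_First]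

lemma piv_First {I : Type} [DecidableEq I] {V : Submodule ℚ ((I → ℚ) × ℚ)} {J : Finset I}
    (h : Piv_First V J) (y : (I → ℚ) × ℚ) (hy : ∀ x ∈ V, x.1 ≠ y.1) :
    ∃ p ∉ J, Piv_First (V ⊔ Submodule.span ℚ {y}) (insert p J) := by
  obtain ⟨x, hx, h1⟩ := h y.1
  obtain ⟨p, hp⟩ := Function.ne_iff.1 (hy x hx)
  refine ⟨p, fun hJ => hp (h1 p hJ), fun d => ?_⟩
  obtain ⟨x1, hx1, h2⟩ := h d
  refine ⟨x1 + ((d p - x1.1 p) / (y.1 p - x.1 p)) • (y - x), add_mem (Submodule.mem_sup_left hx1)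
    (Submodule.smul_mem _ _ (sub_mem (Submodule.mem_sup_right (Submodule.mem_span_singleton_self y))
      (Submodule.mem_sup_left hx))), fun q hq => ?_⟩
  simp only [Prod.fst_add, Prod.smul_fst, Prod.fst_sub, Pi.add_apply, Pi.smul_apply, Pi.sub_apply,
    smul_eq_mul]
  rcases mem_insert.1 hq with rfl | hq
  · rw [div_mul_cancel₀ _ (sub_ne_zero.2 (Ne.symm hp))]
    ring
  · rw [h1 q hq, h2 q hq]
    ring

open Classical in
lemma sol_First {I : Type} [Fintype I] [DecidableEq I] {m : ℕ} {V : Submodule ℚ ((I → ℚ) × ℚ)}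
    {J : Finset I} (h : Piv_First V J) :
    m ^ J.card * (univ.filter (fun A : I → Fin m => Sol_First V A)).card
      ≤ Fintype.card (I → Fin m) := by
  have := card_le_card_of_injOn
    (s := (univ : Finset (J → Fin m)) ×ˢ univ.filter (fun A : I → Fin m => Sol_First V A))
    (t := (univ : Finset (I → Fin m)))
    (fun x p => if hp : p ∈ J then x.1 ⟨p, hp⟩ else x.2 p) (fun _ _ => mem_coe.2 (mem_univ _)) ?_
  · rwa [card_product, card_univ, card_univ, Fintype.card_fun, Fintype.card_fin,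
      Fintype.card_coe] at this
  rintro ⟨f, A⟩ h1 ⟨f', A'⟩ h2 e
  have hA : Sol_First V A := (mem_filter.1 (mem_product.1 (mem_coe.1 h1)).2).2
  have hA' : Sol_First V A' := (mem_filter.1 (mem_product.1 (mem_coe.1 h2)).2).2
  have e1 : ∀ p ∉ J, A p = A' p := fun p hp => by
    simpa only [dif_neg hp] using congrFun e p
  refine Prod.ext (funext fun p => ?_) (funext fun p => ?_)
  · simpa only [dif_pos p.2] using congrFun e p
  · by_cases hp : p ∈ J
    · obtain ⟨x, hx, h3⟩ := h (Pi.single p 1)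
      have h4 := sub_eq_zero.2 ((hA x hx).trans (hA' x hx).symm)
      rw [← sum_sub_distrib, sum_eq_single p, h3 p hp] at h4
      · simp only [Pi.single_eq_same, one_mul, sub_eq_zero, Nat.cast_inj] at h4
        exact Fin.ext h4
      · intro q _ hq
        by_cases hqJ : q ∈ J
        · rw [h3 q hqJ, Pi.single_eq_of_ne hq]
          simp
        · rw [e1 q hqJ, sub_self]
      · simp
    · exact e1 p hp

lemma rank_First {k n : ℕ} (y : (Fin k → Fin n) → ℚ) {F : Finset (Fin k → Fin n)} (hF : Ind F) :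
    F.card ≤ Module.finrank ℚ
      (Submodule.span ℚ ((fun l => (vec_First l, y l)) '' (F : Set (Fin k → Fin n)))) := by
  induction hF with
  | empty => simp
  | insert F l i _ hl ih =>
    refine (card_insert_le _ _).trans (Nat.succ_le_of_lt (ih.trans_lt
      (Submodule.finrank_lt_finrank_of_lt (lt_of_le_of_ne
        (Submodule.span_mono (Set.image_mono (coe_subset.2 (subset_insert _ _)))) fun e => ?_))))
    have h1 : (vec_First l, y l) ∈ Submodule.span ℚ
        ((fun l => (vec_First l, y l)) '' (F : Set (Fin k → Fin n))) := by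
      rw [e]
      exact Submodule.subset_span ⟨l, mem_coe.2 (mem_insert_self _ _), rfl⟩
    have h2 : Submodule.span ℚ ((fun l => (vec_First l, y l)) '' (F : Set (Fin k → Fin n))) ≤
        LinearMap.ker ((LinearMap.proj (i, l i)).comp (LinearMap.fst ℚ _ ℚ)) := by
      refine Submodule.span_le.2 ?_
      rintro _ ⟨l', hl', rfl⟩
      simp [vec_First, hl l' (mem_coe.1 hl')]
    simpa [vec_First] using h2 h1

/-- All elements of `Z` are sums, and `e` independent labels have unique sums in `Z`. -/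
def Ev_First {k n U : ℕ} (Z : Finset ℤ) (e : ℕ) (A : Fin k × Fin n → Fin (U + 1)) : Prop :=
  (∀ z ∈ Z, ∃ l, z = zs A l) ∧
    ∃ F : Finset (Fin k → Fin n), F.card = e ∧ Ind F ∧ ∀ l ∈ F, uniq A l ∧ zs A l ∈ Z

lemma states_First {k n U : ℕ} (Z : Finset ℤ) (e j : ℕ) (hj : j ≤ e) :
    ∃ 𝒱 : Finset (Submodule ℚ ((Fin k × Fin n → ℚ) × ℚ)), 𝒱.card ≤ (n ^ k) ^ j ∧
      (∀ V ∈ 𝒱, ∃ J : Finset (Fin k × Fin n), J.card = j ∧ Piv_First V J) ∧
      ∀ A : Fin k × Fin n → Fin (U + 1), Ev_First Z e A →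
        ∃ V ∈ 𝒱, Sol_First V A ∧ Module.finrank ℚ V ≤ j := by
  classical
  induction j with
  | zero =>
    refine ⟨{⊥}, by simp, fun V _ => ⟨∅, rfl, fun d => ⟨0, zero_mem _, by simp⟩⟩, fun A _ =>
      ⟨⊥, mem_singleton_self _, fun x hx => ?_, by simp⟩⟩
    rw [(Submodule.mem_bot ℚ).1 hx]
    simp
  | succ j ih =>
    obtain ⟨𝒱, h1, h2, h3⟩ := ih (by omega)
    have hn : ∀ V : Submodule ℚ ((Fin k × Fin n → ℚ) × ℚ), ∃ z : ℤ,
        (∃ z' ∈ Z, ∀ l, (vec_First l, (z' : ℚ)) ∉ V) →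
          z ∈ Z ∧ ∀ l, (vec_First l, (z : ℚ)) ∉ V := fun V => by
      by_cases h : ∃ z' ∈ Z, ∀ l, (vec_First l, (z' : ℚ)) ∉ V
      · obtain ⟨z, hz⟩ := h
        exact ⟨z, fun _ => hz⟩
      · exact ⟨0, fun h' => absurd h' h⟩
    choose nx hnx using hn
    refine ⟨((𝒱 ×ˢ (univ : Finset (Fin k → Fin n))).image fun x =>
      x.1 ⊔ Submodule.span ℚ {(vec_First x.2, (nx x.1 : ℚ))}).filter fun V =>
        ∃ J : Finset (Fin k × Fin n), J.card = j + 1 ∧ Piv_First V J, ?_,
      fun V hV => (mem_filter.1 hV).2, fun A hA => ?_⟩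
    · refine (card_filter_le _ _).trans (card_image_le.trans ?_)
      rw [card_product, card_univ, Fintype.card_fun, Fintype.card_fin, Fintype.card_fin, pow_succ]
      exact Nat.mul_le_mul_right _ h1
    · obtain ⟨V, hV, hS, hr⟩ := h3 A hA
      obtain ⟨hZ, F, hc, hI, hF⟩ := hA
      have hex : ∃ z' ∈ Z, ∀ l, (vec_First l, (z' : ℚ)) ∉ V := by
        by_contra h
        push Not at h
        have h4 : Submodule.span ℚ ((fun l => (vec_First l, (zs A l : ℚ))) ''
            (F : Set (Fin k → Fin n))) ≤ V := by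
          refine Submodule.span_le.2 ?_
          rintro _ ⟨l, hl, rfl⟩
          obtain ⟨l', hl'⟩ := h _ (hF l (mem_coe.1 hl)).2
          have h5 := hS _ hl'
          rw [eval_First] at h5
          rw [(hF l (mem_coe.1 hl)).1 l' (Int.cast_injective (α := ℚ) h5)] at hl'
          exact hl'
        have h5 := (rank_First (fun l => (zs A l : ℚ)) hI).trans (Submodule.finrank_mono h4)
        omega
      obtain ⟨h4, h5⟩ := hnx V hex
      obtain ⟨l, hl⟩ := hZ _ h4
      obtain ⟨J, hJ, hP⟩ := h2 V hV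
      obtain ⟨p, hp, hP'⟩ := piv_First hP (vec_First l, (nx V : ℚ)) fun x hx e => by
        have h6 := hS x hx
        rw [e, eval_First, ← hl] at h6
        exact h5 l (by rw [h6, show vec_First l = x.1 from e.symm]; exact hx)
      refine ⟨_, mem_filter.2 ⟨mem_image.2 ⟨(V, l), mem_product.2 ⟨hV, mem_univ _⟩, rfl⟩,
        insert p J, by rw [card_insert_of_notMem hp, hJ], hP'⟩, fun x hx => ?_, ?_⟩
      · obtain ⟨a, ha, b, hb, rfl⟩ := Submodule.mem_sup.1 hx
        obtain ⟨c, rfl⟩ := Submodule.mem_span_singleton.1 hb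
        simp only [Prod.fst_add, Prod.smul_fst, Pi.add_apply, Pi.smul_apply, smul_eq_mul,
          Prod.snd_add, Prod.smul_snd, add_mul, sum_add_distrib, mul_assoc, ← mul_sum]
        rw [hS a ha, eval_First, ← hl]
      · refine (Submodule.finrank_add_le_finrank_add_finrank _ _).trans (add_le_add hr ?_)
        exact (finrank_span_le_card _).trans (by simp)

open Classical in
lemma core_First {k n U : ℕ} (Z : Finset ℤ) (e : ℕ) :
    (U + 1) ^ e * (univ.filter (fun A : Fin k × Fin n → Fin (U + 1) => Ev_First Z e A)).card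
      ≤ (n ^ k) ^ e * Fintype.card (Fin k × Fin n → Fin (U + 1)) := by
  obtain ⟨𝒱, h1, h2, h3⟩ := states_First (k := k) (n := n) (U := U) Z e e le_rfl
  have hs : univ.filter (fun A : Fin k × Fin n → Fin (U + 1) => Ev_First Z e A) ⊆
      𝒱.biUnion fun V => univ.filter fun A => Sol_First V A := fun A hA => by
    obtain ⟨V, hV, h, -⟩ := h3 A (mem_filter.1 hA).2
    exact mem_biUnion.2 ⟨V, hV, mem_filter.2 ⟨mem_univ _, h⟩⟩
  refine (Nat.mul_le_mul_left _ ((card_le_card hs).trans card_biUnion_le)).trans ?_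
  rw [mul_sum]
  refine (sum_le_card_nsmul _ _ (Fintype.card (Fin k × Fin n → Fin (U + 1))) fun V hV => ?_).trans
    (Nat.mul_le_mul_right _ h1)
  obtain ⟨J, hJ, hP⟩ := h2 V hV
  rw [← hJ]
  convert sol_First (m := U + 1) hP

open Classical in
theorem union_lin {k n U S W t : ℕ} (pre : (Fin k × Fin n → Fin (U + 1)) → Fin S → Fin W)
    (addr : ℤ → List (Fin W) → Fin S) (out : ℤ → List (Fin W) → Bool)
    (hyes : ∀ A, ∀ z ∈ Icc (0 : ℤ) (k * U),
      (out z (reads (addr z) (pre A) t) = true ↔ ∃ l, z = zs A l)) (v e : ℕ) :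
    (U + 1) ^ e * (univ.filter (fun A : Fin k × Fin n → Fin (U + 1) =>
        ∃ F : Finset (Fin k → Fin n), F.card = e ∧ Ind F ∧ (∀ l ∈ F, uniq A l) ∧
          ∃ R : Finset (Fin S), R.card = v ∧ ∀ l ∈ F, inside (addr (zs A l)) (pre A) t R)).card
      ≤ (n ^ k) ^ e * (S * W) ^ v * Fintype.card (Fin k × Fin n → Fin (U + 1)) := by
  let Z : Finset (Fin S × Fin W) → Finset ℤ := fun mu => (Icc (0 : ℤ) (k * U)).filter fun z =>
    ∃ M : Fin S → Fin W, (∀ p ∈ mu, M p.1 = p.2) ∧ inside (addr z) M t (mu.image Prod.fst) ∧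
      out z (reads (addr z) M t) = true
  have hsub : (univ.filter (fun A : Fin k × Fin n → Fin (U + 1) =>
        ∃ F : Finset (Fin k → Fin n), F.card = e ∧ Ind F ∧ (∀ l ∈ F, uniq A l) ∧
          ∃ R : Finset (Fin S), R.card = v ∧ ∀ l ∈ F, inside (addr (zs A l)) (pre A) t R)) ⊆
      (powersetCard v univ).biUnion fun mu => univ.filter fun A : Fin k × Fin n → Fin (U + 1) =>
        Ev_First (Z mu) e A := by
    intro A hA
    obtain ⟨-, F, hF, hI, hu, T, hT, hl⟩ := mem_filter.1 hA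
    have hp : ∀ p ∈ T.image fun c => (c, pre A c), pre A p.1 = p.2 := by
      intro p hp
      obtain ⟨c, -, rfl⟩ := mem_image.1 hp
      rfl
    refine mem_biUnion.2 ⟨T.image fun c => (c, pre A c), mem_powersetCard.2 ⟨subset_univ _, ?_⟩,
      mem_filter.2 ⟨mem_univ _, fun z hz => ?_, F, hF, hI, fun l hlF => ⟨hu l hlF,
        mem_filter.2 ⟨zs_mem A l, pre A, hp, fun u hu => ?_,
          (hyes A _ (zs_mem A l)).2 ⟨l, rfl⟩⟩⟩⟩⟩
    · rw [card_image_of_injective _ fun a b e => (Prod.ext_iff.1 e).1, hT]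
    · obtain ⟨hz1, M, hM, e2, e3⟩ := mem_filter.1 hz
      have a1 : ∀ c ∈ (T.image fun c => (c, pre A c)).image Prod.fst, M c = pre A c := by
        intro c hc
        obtain ⟨p, hp', rfl⟩ := mem_image.1 hc
        rw [hM p hp', hp p hp']
      exact (hyes A z hz1).1 (by rw [agree_UnionT a1 e2 t le_rfl]; exact e3)
    · exact mem_image.2 ⟨_, mem_image_of_mem _ (hl l hlF u hu), rfl⟩
  refine (Nat.mul_le_mul_left _ ((card_le_card hsub).trans card_biUnion_le)).trans ?_
  rw [mul_sum, mul_comm ((n ^ k) ^ e), mul_assoc]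
  refine (sum_le_card_nsmul _ _ _ fun mu _ => core_First (Z mu) e).trans ?_
  rw [smul_eq_mul, card_powersetCard]
  refine Nat.mul_le_mul_right _ ((Nat.choose_le_pow _ _).trans ?_)
  simp

theorem nonuniq {k n U H : ℕ} (h : 2 * H * n ^ k ≤ U + 1) :
    H * (univ.filter (fun A : Fin k × Fin n → Fin (U + 1) =>
        2 * (univ.filter (uniq A)).card < n ^ k)).card
      ≤ Fintype.card (Fin k × Fin n → Fin (U + 1)) := by
  set N := Fintype.card (Fin k × Fin n → Fin (U + 1)) with hN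
  have hc : (univ : Finset (Fin k → Fin n)).card = n ^ k := by simp
  have h1 : ∀ A : Fin k × Fin n → Fin (U + 1), (univ.filter (fun l => ¬ uniq A l)).card ≤
      ∑ l : Fin k → Fin n, ∑ l' ∈ univ.filter (fun l' => l' ≠ l),
        if zs A l = zs A l' then 1 else 0 := fun A => by
    rw [card_filter]
    refine sum_le_sum fun l _ => ?_
    split_ifs with hl
    · exact Nat.zero_le _
    · obtain ⟨l', hl'⟩ := not_forall.1 hl
      obtain ⟨h2, h3⟩ := Classical.not_imp.1 hl'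
      have := single_le_sum (f := fun l' => if zs A l = zs A l' then 1 else 0)
        (s := univ.filter (fun l' => l' ≠ l)) (fun _ _ => Nat.zero_le _)
        (mem_filter.2 ⟨mem_univ l', h3⟩)
      simpa only [if_pos h2.symm] using this
  have h2 : (U + 1) * ∑ A : Fin k × Fin n → Fin (U + 1),
      (univ.filter (fun l => ¬ uniq A l)).card ≤ n ^ k * (n ^ k * N) := by
    refine (Nat.mul_le_mul_left _ (sum_le_sum fun A _ => h1 A)).trans ?_
    rw [sum_comm, mul_sum]
    refine (sum_le_card_nsmul _ _ (n ^ k * N) fun l _ => ?_).trans (by rw [hc, smul_eq_mul])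
    rw [sum_comm, mul_sum]
    refine (sum_le_card_nsmul _ _ N fun l' hl' => ?_).trans
      (Nat.mul_le_mul_right _ ((card_filter_le _ _).trans hc.le))
    rw [← card_filter]
    have := pair_Count (U := U) id 1 (fun c => card_le_one.2 fun a ha b hb =>
      (mem_filter.1 ha).2.trans (mem_filter.1 hb).2.symm) (mem_filter.1 hl').2
    rw [one_mul] at this
    exact this
  set X := univ.filter (fun A : Fin k × Fin n → Fin (U + 1) =>
    2 * (univ.filter (uniq A)).card < n ^ k) with hX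
  have h3 : X.card * (n ^ k + 1) ≤ 2 * ∑ A : Fin k × Fin n → Fin (U + 1),
      (univ.filter (fun l => ¬ uniq A l)).card := by
    rw [mul_sum]
    refine le_trans ?_ (sum_le_sum_of_subset (subset_univ X))
    rw [← smul_eq_mul]
    refine card_nsmul_le_sum X _ _ fun A hA => ?_
    have h4 := (mem_filter.1 hA).2
    have h5 := card_filter_add_card_filter_not (s := (univ : Finset (Fin k → Fin n))) (uniq A)
    omega
  refine Nat.le_of_mul_le_mul_left (c := (U + 1) * (n ^ k + 1)) ?_ (by positivity)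
  calc (U + 1) * (n ^ k + 1) * (H * X.card) = H * ((U + 1) * (X.card * (n ^ k + 1))) := by ring
    _ ≤ H * ((U + 1) * (2 * ∑ A : Fin k × Fin n → Fin (U + 1),
      (univ.filter (fun l => ¬ uniq A l)).card)) := by gcongr
    _ = 2 * H * ((U + 1) * ∑ A : Fin k × Fin n → Fin (U + 1),
      (univ.filter (fun l => ¬ uniq A l)).card) := by ring
    _ ≤ 2 * H * (n ^ k * (n ^ k * N)) := by gcongr
    _ = 2 * H * n ^ k * (n ^ k) * N := by ring
    _ ≤ (U + 1) * (n ^ k + 1) * N := by gcongr; omega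

end Pool.Agent.MP_5e38ef_lc.WW

end

section

namespace Pool.Agent.MP_5e38ef_lc.WW
open Finset TP SP

open Classical in
/-- A database outside all exceptional sets. -/
lemma typicalW {k n U S W T ρ P : ℕ} (B D G E r : ℕ → ℕ)
    (pre : (Fin k × Fin n → Fin (U + 1)) → Fin S → Fin W)
    (addr : ℤ → List (Fin W) → Fin S) (out : ℤ → List (Fin W) → Bool)
    (hyes : ∀ A, ∀ z ∈ Icc (0 : ℤ) (k * U),
      (out z (reads (addr z) (pre A) (T + 2)) = true ↔ ∃ l, z = zs A l))
    (p1 : S ≤ P * ρ) (p2 : k * U + 1 ≤ B 0) (p3 : ∀ s < T, B s ≤ P * B (s + 1))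
    (p4 : ∀ s ≤ T, 0 < B (s + 1)) (p6 : n ^ (k - 1) ≤ D 0) (p7 : 2 * G 0 ≤ n ^ k)
    (p8 : 2 * (T + 4) * n ^ k ≤ U + 1) (p9 : ∀ s < T, 0 < G (s + 1))
    (p10 : ∀ s < T, 2 * P * G (s + 1) + k ^ 2 * (r s * (1 + k * D s) + n * E s) ≤ G s)
    (p12 : ∀ s ≤ T, (T + 4) * (2 * P * W ^ ρ) ^ s *
        (k ^ 2 * n.choose (r s) * (n ^ (k - 1) * D s * B (s + 1)) ^ r s)
      ≤ ((D (s + 1) + 1) * (E s + 1) * (U + 1)) ^ r s) (c : ℕ → ℕ → Prop)
    (p19 : ∀ v ≤ S, ∀ e ≤ n ^ k, c v e →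
      (T + 4) * ((S + 1) * (n ^ k + 1)) * ((n ^ k) ^ e * (S * W) ^ v) ≤ (U + 1) ^ e) :
    ∃ (A : Fin k × Fin n → Fin (U + 1)) (Z : Finset ℤ) (seen : ℤ → List (Fin W))
      (cls : ℤ → ℤ ⊕ Fin S) (R : Finset (Fin S)), R.card ≤ T * ρ ∧
      (∀ z ∈ Z, reads (addr z) (pre A) T = seen z ∧ inside (addr z) (pre A) T R) ∧
      G T ≤ (good A Z (D T) ∩ univ.filter (uniq A)).card ∧
      (∀ z ∈ Z, ∀ z' ∈ Z, cls z = cls z' → addr z (seen z) = addr z' (seen z')) ∧
      B (T + 1) * (Z.image cls).card ≤ B (T + 1) * S + B T ∧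
      (bad A Z cls (D T) (D (T + 1))).card ≤ k ^ 2 * (r T * (1 + k * D T) + n * E T) ∧
      ∀ (F : Finset (Fin k → Fin n)) (R : Finset (Fin S)), c R.card F.card → Ind F →
        (∀ l ∈ F, uniq A l) → ¬ ∀ l ∈ F, inside (addr (zs A l)) (pre A) (T + 2) R := by
  set Ω := Fintype.card (Fin k × Fin n → Fin (U + 1)) with hΩ
  have hΩ0 : 0 < Ω := Fintype.card_pos
  obtain ⟨𝒮, s1, s2, X, x1, x2⟩ := levelsQ pre addr p1 B D G (T + 4) T
    (fun A => univ.filter (uniq A)) (by
      refine le_trans (Nat.mul_le_mul_left _ (card_le_card fun A hA => ?_)) (nonuniq p8)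
      have := (mem_filter.1 hA).2
      exact mem_filter.2 ⟨mem_univ _, by omega⟩) p2 p3
    (fun s hs => p4 s hs.le) p6 p9 (by
      intro s hs Z cls hc
      refine le_trans (Nat.mul_le_mul_left _ (card_le_card ?_))
        (ns_small Z cls (B (s + 1)) (D s) (D (s + 1)) (E s) (r s) _ hc (p12 s hs.le))
      intro A hA
      have h1 := (mem_filter.1 hA).2
      have h2 := p10 s hs
      exact mem_filter.2 ⟨mem_univ _, by omega⟩)
  choose cls c1 c2 c3 using fun σ : Finset ℤ × (ℤ → List (Fin W)) =>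
    classesZ σ.1 (B (T + 1)) (p4 T le_rfl) (fun z => addr z (σ.2 z))
  have y1 := union_small 𝒮 (fun σ => univ.filter (fun A : Fin k × Fin n → Fin (U + 1) =>
      k ^ 2 * (r T * (1 + k * D T) + n * E T) < (bad A σ.1 (cls σ) (D T) (D (T + 1))).card))
    _ (T + 4) Ω s1 fun σ _ =>
      ns_small σ.1 (cls σ) (B (T + 1)) (D T) (D (T + 1)) (E T) (r T) _ (c2 σ) (p12 T le_rfl)
  have y2 := union_small ((range (S + 1) ×ˢ range (n ^ k + 1)).filter (fun x => c x.1 x.2))
    (fun x => univ.filter (fun A : Fin k × Fin n → Fin (U + 1) =>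
        ∃ F : Finset (Fin k → Fin n), F.card = x.2 ∧ Ind F ∧ (∀ l ∈ F, uniq A l) ∧
          ∃ R : Finset (Fin S), R.card = x.1 ∧
          ∀ l ∈ F, inside (addr (zs A l)) (pre A) (T + 2) R))
    ((S + 1) * (n ^ k + 1)) (T + 4) Ω ((card_filter_le _ _).trans (by simp)) (by
      intro x hx
      obtain ⟨h2, h3⟩ := mem_filter.1 hx
      obtain ⟨h4, h5⟩ := mem_product.1 h2
      have h1 := union_lin pre addr out hyes x.1 x.2
      refine Nat.le_of_mul_le_mul_left ?_ (show 0 < (U + 1) ^ x.2 by positivity)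
      rw [mul_left_comm]
      refine (Nat.mul_le_mul_left _ h1).trans ?_
      rw [← mul_assoc]
      exact Nat.mul_le_mul_right _ (p19 _ (Nat.lt_succ_iff.1 (mem_range.1 h4)) _
        (Nat.lt_succ_iff.1 (mem_range.1 h5)) h3))
  set X1 := 𝒮.biUnion (fun σ => univ.filter (fun A : Fin k × Fin n → Fin (U + 1) =>
      k ^ 2 * (r T * (1 + k * D T) + n * E T) < (bad A σ.1 (cls σ) (D T) (D (T + 1))).card))
    with hX1
  set X2 := ((range (S + 1) ×ˢ range (n ^ k + 1)).filter (fun x => c x.1 x.2)).biUnion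
    (fun x => univ.filter (fun A : Fin k × Fin n → Fin (U + 1) =>
        ∃ F : Finset (Fin k → Fin n), F.card = x.2 ∧ Ind F ∧ (∀ l ∈ F, uniq A l) ∧
          ∃ R : Finset (Fin S), R.card = x.1 ∧
          ∀ l ∈ F, inside (addr (zs A l)) (pre A) (T + 2) R)) with hX2
  have hlt : (X ∪ X1 ∪ X2).card < (univ : Finset (Fin k × Fin n → Fin (U + 1))).card := by
    rw [card_univ, ← hΩ]
    have h1 := (card_union_le (X ∪ X1) X2).trans (Nat.add_le_add_right (card_union_le X X1) _)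
    have h2 := Nat.mul_le_mul_left (T + 4) h1
    refine Nat.lt_of_mul_lt_mul_left (a := T + 4) ?_
    nlinarith
  obtain ⟨A, -, hA⟩ := exists_mem_notMem_of_card_lt_card hlt
  simp only [mem_union, not_or] at hA
  obtain ⟨⟨a1, a2⟩, a3⟩ := hA
  obtain ⟨σ, hσ, R, r1, r2, r3⟩ := x2 A a1
  refine ⟨A, σ.1, σ.2, cls σ, R, r1, r2, r3, c1 σ, (c3 σ).trans (by have := s2 σ hσ; omega),
    ?_, ?_⟩
  · by_contra hc
    exact a2 (mem_biUnion.2 ⟨σ, hσ, mem_filter.2 ⟨mem_univ _, not_le.1 hc⟩⟩)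
  · intro F R hc h1 h2 h3
    refine a3 (mem_biUnion.2 ⟨(R.card, F.card), mem_filter.2 ⟨mem_product.2 ⟨mem_range.2 ?_,
      mem_range.2 ?_⟩, hc⟩, mem_filter.2 ⟨mem_univ _, F, rfl, h1, h2, R, rfl, h3⟩⟩)
    · exact Nat.lt_succ_iff.2 ((card_le_univ _).trans (by simp))
    · exact Nat.lt_succ_iff.2 ((card_le_univ _).trans (by simp))

theorem abstractW (k a : ℕ) (hk : 2 ≤ k) (ha : 2 ≤ a) : ∃ Q : ℕ, ∀ T n U S w : ℕ,
    ParW Q k a n U S w T → ¬ Solves k n U S w (T + 2) := by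
  classical
  obtain ⟨Q, hQ⟩ := core k a (by omega) ha
  refine ⟨Q, fun T n U S w hp => ?_⟩
  rintro ⟨pre0, addr, out, H0⟩
  obtain ⟨ρ, P, N, h, d, τ, H, D0, r0, gg, e0, B, D, G, E, r, p1, p2, p3, p4, p5, p6, p7, p8, p9,
    p10, p11, p12, p13, p14, p15, p19⟩ := hp
  set pre : (Fin k × Fin n → Fin (U + 1)) → Fin S → Fin (2 ^ w) :=
    fun A => pre0 (fun a i => ((A (a, i) : ℕ) : ℤ)) with hpre
  obtain ⟨A, Z, seen, cls, R, r1, r2, r3, c1, c3, hb, hu⟩ := typicalW B D G E r pre addr out (by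
    intro A z hz
    obtain ⟨z0, z1⟩ := mem_Icc.mp hz
    exact H0 _ (fun a i => ⟨by positivity, by exact_mod_cast Nat.lt_succ_iff.mp (A (a, i)).2⟩)
      z z0 z1) p1 p2 p3 p4 p6 p7 p8 p9 p10 p12
    (fun v e => e0 ≤ e ∧ h * a * v ≤ (h + 2) * e) (fun v hv e he hc => p19 v hv e he hc.1 hc.2)
  set L := (good A Z (D T) ∩ univ.filter (uniq A)) \ bad A Z cls (D T) (D (T + 1)) with hL
  have hLc : N ≤ L.card := by
    have := le_card_sdiff (bad A Z cls (D T) (D (T + 1))) (good A Z (D T) ∩ univ.filter (uniq A))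
    rw [← hL] at this
    omega
  have hLg : ∀ l ∈ L, l ∈ good A Z (D T) := fun l hl => (mem_inter.1 (mem_sdiff.1 hl).1).1
  have hLu : ∀ l ∈ L, uniq A l := fun l hl => (mem_filter.1 (mem_inter.1 (mem_sdiff.1 hl).1).2).2
  have hLZ : ∀ l ∈ L, zs A l ∈ Z := fun l hl => (mem_filter.1 (hLg l hl)).2.1
  have hLp : ∀ l ∈ L, l ∈ good A (piece Z cls (cls (zs A l))) (D (T + 1)) := by
    intro l hl
    by_contra hc
    exact (mem_sdiff.1 hl).2 (mem_filter.2 ⟨hLg l hl, hc⟩)
  set last : (Fin k → Fin n) → Fin S :=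
    fun l => addr (zs A l) (reads (addr (zs A l)) (pre A) (T + 1)) with hlast
  obtain ⟨F, s2, f1, f2, f3⟩ := hQ n S _ L (fun l => cls (zs A l)) last h N (P * ρ) d τ _ _ P H D0
    r0 gg p13 hLc (by
      have e1 : L.image (fun l => cls (zs A l)) ⊆ Z.image cls := by
        intro x hx
        obtain ⟨l, hl, rfl⟩ := mem_image.mp hx
        exact mem_image_of_mem _ (hLZ l hl)
      refine (card_le_card e1).trans (Nat.le_of_mul_le_mul_left (c3.trans ?_) (p4 T le_rfl))
      have := Nat.mul_le_mul_left (B (T + 1)) p1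
      rw [mul_comm (P * ρ)] at p5
      rw [mul_left_comm]
      omega) (by
      intro x i c
      refine le_trans (card_le_card fun l hl => ?_) (row A (piece Z cls x) (D (T + 1)) i c)
      obtain ⟨h1, rfl, h3⟩ := mem_filter.1 hl
      exact mem_filter.2 ⟨hLp l h1, h3⟩) (by
      intro i c
      exact le_trans (card_le_card (filter_subset_filter _ fun l hl => hLg l hl))
        (row A Z (D T) i c))
  set R' : Finset (Fin S) := R ∪ (F.image (fun l => addr (zs A l) (seen (zs A l))) ∪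
    F.image last) with hR'
  have hRc : R'.card ≤ T * ρ + ((F.image (fun l => cls (zs A l))).card + (F.image last).card) :=
    (card_union_le _ _).trans (Nat.add_le_add r1 ((card_union_le _ _).trans
      (Nat.add_le_add_right (image_factor F _ _ fun l hl l' hl' e =>
        c1 _ (hLZ l (s2 hl)) _ (hLZ l' (s2 hl')) e) _)))
  refine hu F R' ⟨p15.trans f2, ?_⟩ f1 (fun l hl => hLu l (s2 hl)) ?_
  · have u1 := Nat.mul_le_mul_left (h * a) hRc
    have u2 := p14.trans f2
    rw [mul_add] at u1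
    have u3 : (h + 2) * F.card = (h + 1) * F.card + F.card := by ring
    omega
  · intro l hl u hu
    obtain ⟨q1, q2⟩ := r2 _ (hLZ l (s2 hl))
    rcases Nat.lt_or_ge u T with h | h
    · exact mem_union_left _ (q2 u h)
    · refine mem_union_right _ ?_
      rcases (show u = T ∨ u = T + 1 by omega) with rfl | rfl
      · rw [q1]
        exact mem_union_left _ (mem_image.2 ⟨l, hl, rfl⟩)
      · exact mem_union_right _ (mem_image.2 ⟨l, hl, rfl⟩)

end Pool.Agent.MP_5e38ef_lc.WW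

end
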